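import Mathlib

namespace Pool.Agent.Helper35.Cuboid

lemma odd_sq_form {g : ℤ} (h : Odd g) : ∃ j, g ^ 2 = 8 * j + 1 := by
  obtain ⟨k, rfl⟩ := h
  obtain ⟨l, hl⟩ := Int.even_mul_succ_self k
  exact ⟨l, by linear_combination 4 * hl⟩

lemma odd_pow4_form {g : ℤ} (h : Odd g) : ∃ j, g ^ 4 = 16 * j + 1 := by
  obtain ⟨k, hk⟩ := odd_sq_form h
  exact ⟨4 * k ^ 2 + k, by linear_combination (g ^ 2 + 8 * k + 1) * hk⟩

lemma even_pow4_form {g : ℤ} (h : Even g) : ∃ j, g ^ 4 = 16 * j := by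
  obtain ⟨k, rfl⟩ := h
  exact ⟨k ^ 4, by ring⟩

lemma sq_of_isCoprime {a b c : ℤ} (h : IsCoprime a b) (heq : a * b = c ^ 2) :
    ∃ d, a = d ^ 2 ∨ a = -d ^ 2 :=
  Int.sq_of_gcd_eq_one (Int.isCoprime_iff_gcd_eq_one.mp h) heq

lemma pow4_of_isCoprime {a b c : ℤ} (h : IsCoprime a b) (ha : 0 ≤ a) (heq : a * b = c ^ 4) :
    ∃ d, a = d ^ 4 := by
  obtain ⟨d, hd⟩ := exists_associated_pow_of_mul_eq_pow' h heq
  rw [Int.associated_iff] at hd
  rcases hd with hd | hd
  · exact ⟨d, hd.symm⟩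
  · refine ⟨0, ?_⟩
    have h1 : 0 ≤ d ^ 4 := by positivity
    have : a = 0 := by linarith
    simpa using this

/-- From a pair of coprime nonnegative integers with product `2 c ^ 4`. -/
lemma split_two {A B c : ℤ} (h : IsCoprime A B) (hA : 0 ≤ A) (hB : 0 ≤ B)
    (heq : A * B = 2 * c ^ 4) :
    ∃ p q, IsCoprime p q ∧ c ^ 4 = p ^ 4 * q ^ 4 ∧
      ((A = 2 * p ^ 4 ∧ B = q ^ 4) ∨ (A = q ^ 4 ∧ B = 2 * p ^ 4)) := by
  have h2 : (2 : ℤ) ∣ A * B := ⟨c ^ 4, heq⟩
  rcases (Int.prime_two.dvd_or_dvd h2) with ⟨A', hA'⟩ | ⟨B', hB'⟩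
  · subst hA'
    have hcop : IsCoprime A' B := IsCoprime.of_mul_left_right h
    have e1 : A' * B = c ^ 4 := by linarith
    obtain ⟨p, hp⟩ := pow4_of_isCoprime hcop (by linarith) e1
    obtain ⟨q, hq⟩ := pow4_of_isCoprime hcop.symm hB (by rw [mul_comm]; exact e1)
    refine ⟨p, q, ?_, ?_, Or.inl ⟨by rw [hp], hq⟩⟩
    · rw [hp, hq] at hcop
      exact (IsCoprime.pow_iff (by norm_num) (by norm_num)).mp hcop
    · rw [← e1, hp, hq]
  · subst hB'
    have hcop : IsCoprime A B' := IsCoprime.of_mul_right_right h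
    have e1 : A * B' = c ^ 4 := by linarith
    obtain ⟨q, hq⟩ := pow4_of_isCoprime hcop hA e1
    obtain ⟨p, hp⟩ := pow4_of_isCoprime hcop.symm (by linarith) (by rw [mul_comm]; exact e1)
    refine ⟨p, q, ?_, ?_, Or.inr ⟨hq, by rw [hp]⟩⟩
    · rw [hp, hq] at hcop
      exact ((IsCoprime.pow_iff (by norm_num) (by norm_num)).mp hcop).symm
    · rw [← e1, hp, hq]; ring

/-- one descent step for `g ^ 4 + 2 h ^ 4 = a ^ 2` -/
lemma L1_step (g h a : ℤ) (hc : IsCoprime g h) (hh : h ≠ 0) (H : g ^ 4 + 2 * h ^ 4 = a ^ 2) :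
    ∃ g' h' a' : ℤ, IsCoprime g' h' ∧ h' ≠ 0 ∧ g' ^ 4 + 2 * h' ^ 4 = a' ^ 2 ∧
      h'.natAbs < h.natAbs := by
  -- wlog a ≥ 0
  obtain ⟨a, ha0, H⟩ : ∃ a : ℤ, 0 ≤ a ∧ g ^ 4 + 2 * h ^ 4 = a ^ 2 :=
    ⟨|a|, abs_nonneg a, by rw [sq_abs]; exact H⟩
  have hgodd : Odd g := by
    by_contra hg
    rw [Int.not_odd_iff_even] at hg
    have hhodd : Odd h := by
      by_contra h2
      rw [Int.not_odd_iff_even] at h2
      obtain ⟨g', hg'⟩ := hg
      obtain ⟨h', hh'⟩ := h2
      have : IsCoprime (2 * g') (2 * h') := by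
        rw [two_mul, two_mul, ← hg', ← hh']; exact hc
      have h3 := IsCoprime.of_mul_left_left this
      have h4 := IsCoprime.of_mul_right_left h3
      have := Int.isUnit_iff.mp (isCoprime_self.mp h4)
      omega
    obtain ⟨j, hj⟩ := odd_pow4_form hhodd
    obtain ⟨i, hi⟩ := even_pow4_form hg
    have haev : Even a := by
      by_contra h2
      rw [Int.not_even_iff_odd] at h2
      obtain ⟨l, hl⟩ := odd_sq_form h2
      omega
    obtain ⟨l, rfl⟩ := haev
    have : (l + l) ^ 2 = 4 * l ^ 2 := by ring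
    omega
  have haodd : Odd a := by
    by_contra h2
    rw [Int.not_odd_iff_even] at h2
    obtain ⟨l, rfl⟩ := h2
    obtain ⟨j, hj⟩ := odd_pow4_form hgodd
    have : (l + l) ^ 2 = 4 * l ^ 2 := by ring
    omega
  have hheven : Even h := by
    by_contra h2
    rw [Int.not_even_iff_odd] at h2
    obtain ⟨j, hj⟩ := odd_pow4_form hgodd
    obtain ⟨i, hi⟩ := odd_pow4_form h2
    obtain ⟨l, hl⟩ := odd_sq_form haodd
    omega
  obtain ⟨h1, rfl⟩ := hheven
  have hcop2 : IsCoprime g 2 := by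
    obtain ⟨k, rfl⟩ := hgodd
    exact ⟨1, -k, by ring⟩
  have hcoph1 : IsCoprime g h1 := by
    have : IsCoprime g (2 * h1) := by rw [two_mul]; exact hc
    exact IsCoprime.of_mul_right_right this
  have h1ne : h1 ≠ 0 := by rintro rfl; exact hh (by ring)
  -- a - g^2 = 2A, a + g^2 = 2B
  obtain ⟨ka, hka⟩ := haodd
  obtain ⟨kg, hkg⟩ := hgodd.pow (n := 2)
  obtain ⟨A, hA⟩ : ∃ A, a - g ^ 2 = 2 * A := ⟨ka - kg, by omega⟩
  obtain ⟨B, hB⟩ : ∃ B, a + g ^ 2 = 2 * B := ⟨ka + kg + 1, by omega⟩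
  have hAB : A * B = 8 * h1 ^ 4 := by
    have : (2 * A) * (2 * B) = 32 * h1 ^ 4 := by
      rw [← hA, ← hB]; linear_combination (-1) * H
    linarith
  have hBA : B = A + g ^ 2 := by linarith
  have hcopA : IsCoprime A (g ^ 2) := by
    have h8 : IsCoprime (8 * h1 ^ 4) (g ^ 2) := by
      have : (8 : ℤ) * h1 ^ 4 = 2 ^ 3 * h1 ^ 4 := by norm_num
      rw [this]
      exact IsCoprime.mul_left ((hcop2.symm.pow_left).pow_right) ((hcoph1.symm.pow_left).pow_right)
    exact h8.of_isCoprime_of_dvd_left ⟨B, hAB.symm⟩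
  have hcopAB : IsCoprime A B := by
    rw [hBA]
    have := hcopA.add_mul_left_right 1
    rw [mul_one, add_comm] at this
    exact this
  have hABpos : 0 < A * B := by rw [hAB]; positivity
  have hapos : 0 < A + B := by
    have : 0 < a := by
      rcases ha0.lt_or_eq with h | h
      · exact h
      · exfalso
        omega
    linarith
  have hApos : 0 < A := by
    by_contra hcon
    push Not at hcon
    have hBneg : 0 < B := by linarith
    nlinarith
  have hBpos : 0 < B := by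
    by_contra hcon
    push Not at hcon
    nlinarith
  -- A even or odd
  have key : ∃ r s : ℤ, IsCoprime r s ∧ h1 ^ 4 = r ^ 4 * s ^ 4 ∧ g ^ 2 = s ^ 4 - 8 * r ^ 4 ∧ Odd s := by
    rcases Int.even_or_odd A with hAe | hAo
    · have hBo : Odd B := by
        by_contra h2
        rw [Int.not_odd_iff_even] at h2
        obtain ⟨A', hA'⟩ := hAe
        obtain ⟨B', hB'⟩ := h2
        have : IsCoprime (2 * A') (2 * B') := by
          rw [two_mul, two_mul, ← hA', ← hB']; exact hcopAB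
        have h3 := IsCoprime.of_mul_left_left this
        have h4 := IsCoprime.of_mul_right_left h3
        have := Int.isUnit_iff.mp (isCoprime_self.mp h4)
        omega
      have h8B : IsCoprime (8 : ℤ) B := by
        obtain ⟨k, rfl⟩ := hBo
        have : IsCoprime (2 : ℤ) (2 * k + 1) := ⟨-k, 1, by ring⟩
        have := this.pow_left (m := 3)
        norm_num at this
        exact this
      have h8A : (8 : ℤ) ∣ A := h8B.dvd_of_dvd_mul_right ⟨h1 ^ 4, hAB⟩
      obtain ⟨A', rfl⟩ := h8A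
      have hcop' : IsCoprime A' B := IsCoprime.of_mul_left_right hcopAB
      have e1 : A' * B = h1 ^ 4 := by linarith
      obtain ⟨r, hr⟩ := pow4_of_isCoprime hcop' (by linarith) e1
      obtain ⟨s, hs⟩ := pow4_of_isCoprime hcop'.symm hBpos.le (by rw [mul_comm]; exact e1)
      refine ⟨r, s, ?_, ?_, ?_, ?_⟩
      · rw [hr, hs] at hcop'
        exact (IsCoprime.pow_iff (by norm_num) (by norm_num)).mp hcop'
      · rw [← e1, hr, hs]
      · rw [← hr, ← hs]; linarith
      · rw [hs] at hBo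
        exact (Int.odd_pow.mp hBo).resolve_right (by norm_num)
    · exfalso
      have h8A : IsCoprime (8 : ℤ) A := by
        obtain ⟨k, rfl⟩ := hAo
        have : IsCoprime (2 : ℤ) (2 * k + 1) := ⟨-k, 1, by ring⟩
        have := this.pow_left (m := 3)
        norm_num at this
        exact this
      have h8B : (8 : ℤ) ∣ B := h8A.dvd_of_dvd_mul_left ⟨h1 ^ 4, hAB⟩
      obtain ⟨B', rfl⟩ := h8B
      have hcop' : IsCoprime A B' := IsCoprime.of_mul_right_right hcopAB
      have e1 : A * B' = h1 ^ 4 := by linarith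
      obtain ⟨s, hs⟩ := pow4_of_isCoprime hcop' hApos.le e1
      have hso : Odd s := by
        rw [hs] at hAo
        exact (Int.odd_pow.mp hAo).resolve_right (by norm_num)
      obtain ⟨i, hi⟩ := odd_pow4_form hso
      obtain ⟨j, hj⟩ := odd_sq_form hgodd
      omega
  obtain ⟨r, s, hrs, hh1, hg2, hso⟩ := key
  have hrne : r ≠ 0 := by
    rintro rfl
    have : h1 ^ 4 = 0 := by rw [hh1]; ring
    exact h1ne (by simpa using this)
  have hsne : s ≠ 0 := by rintro rfl; simp at hso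
  -- (s^2 - g)(s^2+g) = 8 r^4
  obtain ⟨ks, hks⟩ := hso.pow (n := 2)
  obtain ⟨kg', hkg'⟩ := hgodd
  obtain ⟨C, hC⟩ : ∃ C, s ^ 2 - g = 2 * C := ⟨ks - kg', by omega⟩
  obtain ⟨D, hD⟩ : ∃ D, s ^ 2 + g = 2 * D := ⟨ks + kg' + 1, by omega⟩
  have hCD : C * D = 2 * r ^ 4 := by
    have : (2 * C) * (2 * D) = 8 * r ^ 4 := by
      rw [← hC, ← hD]; linear_combination (-1) * hg2
    linarith
  have hCDs : D = s ^ 2 + C * (-1) := by linarith
  have hcop2s : IsCoprime (2 : ℤ) s := by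
    obtain ⟨k, rfl⟩ := hso
    exact ⟨-k, 1, by ring⟩
  have hcopC : IsCoprime C (s ^ 2) := by
    have h8 : IsCoprime (2 * r ^ 4) (s ^ 2) :=
      IsCoprime.mul_left (hcop2s.pow_right) ((hrs.pow_left).pow_right)
    exact h8.of_isCoprime_of_dvd_left ⟨D, hCD.symm⟩
  have hcopCD : IsCoprime C D := by
    rw [hCDs]
    exact hcopC.add_mul_left_right (-1)
  have hCDpos : 0 < C * D := by rw [hCD]; positivity
  have hs2pos : 0 < s ^ 2 := by positivity
  have hsum : 0 < C + D := by linarith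
  have hCpos : 0 < C := by
    by_contra hcon
    push Not at hcon
    have : 0 < D := by linarith
    nlinarith
  have hDpos : 0 < D := by
    by_contra hcon
    push Not at hcon
    nlinarith
  obtain ⟨p, q, hpq, hr4, hcase⟩ := split_two hcopCD hCpos.le hDpos.le hCD
  refine ⟨q, p, s, hpq.symm, ?_, ?_, ?_⟩
  · rintro rfl
    have : r ^ 4 = 0 := by rw [hr4]; ring
    exact hrne (by simpa using this)
  · rcases hcase with ⟨h1', h2'⟩ | ⟨h1', h2'⟩ <;> linarith
  · -- size
    have hqne : q ≠ 0 := by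
      rintro rfl
      have : r ^ 4 = 0 := by rw [hr4]; ring
      exact hrne (by simpa using this)
    have e : h1 ^ 4 = (p * (q * s)) ^ 4 := by rw [hh1, hr4]; ring
    have e2 : h1.natAbs = (p * (q * s)).natAbs := by
      have := congrArg Int.natAbs e
      rw [Int.natAbs_pow, Int.natAbs_pow] at this
      exact Nat.pow_left_injective (by norm_num) this
    have e3 : (h1 + h1).natAbs = 2 * h1.natAbs := by
      rw [← two_mul, Int.natAbs_mul]; rfl
    rw [e3, e2, Int.natAbs_mul]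
    have hp1 : 0 < p.natAbs := by
      rw [Int.natAbs_pos]
      rintro rfl
      have : r ^ 4 = 0 := by rw [hr4]; ring
      exact hrne (by simpa using this)
    have hqs1 : 0 < (q * s).natAbs := by
      rw [Int.natAbs_pos]; exact mul_ne_zero hqne hsne
    nlinarith

/-- `g ^ 4 + 2 h ^ 4 = a ^ 2` with `g, h` coprime forces `h = 0`. -/
theorem L1 (g h a : ℤ) (hc : IsCoprime g h) (H : g ^ 4 + 2 * h ^ 4 = a ^ 2) : h = 0 := by
  by_contra hh
  have main : ∀ n : ℕ, ∀ g h a : ℤ, IsCoprime g h → h ≠ 0 → g ^ 4 + 2 * h ^ 4 = a ^ 2 →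
      h.natAbs = n → False := by
    intro n
    induction n using Nat.strong_induction_on with
    | _ n ih =>
      intro g h a hc hh H hn
      obtain ⟨g', h', a', hc', hh', H', hlt⟩ := L1_step g h a hc hh H
      exact ih h'.natAbs (by omega) g' h' a' hc' hh' H' rfl
  exact main _ g h a hc hh H rfl

end Pool.Agent.Helper35.Cuboid
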