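import Pool.Agent.Helper35.CuboidA

namespace Pool.Agent.Helper35.Cuboid

lemma odd_of_isCoprime_even {a b : ℤ} (h : IsCoprime a b) (ha : Even a) : Odd b := by
  by_contra hb
  rw [Int.not_odd_iff_even] at hb
  obtain ⟨A', hA'⟩ := ha
  obtain ⟨B', hB'⟩ := hb
  have : IsCoprime (2 * A') (2 * B') := by
    rw [two_mul, two_mul, ← hA', ← hB']; exact h
  have h3 := IsCoprime.of_mul_left_left this
  have h4 := IsCoprime.of_mul_right_left h3
  have := Int.isUnit_iff.mp (isCoprime_self.mp h4)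
  omega

lemma isCoprime_two_of_odd {a : ℤ} (h : Odd a) : IsCoprime 2 a := by
  obtain ⟨k, rfl⟩ := h
  exact ⟨-k, 1, by ring⟩

lemma pos_pair {A B : ℤ} (h1 : 0 < A * B) (h2 : 0 < A + B) : 0 < A ∧ 0 < B := by
  have hA : 0 < A := by
    by_contra hcon
    push Not at hcon
    have : 0 < B := by linarith
    nlinarith
  refine ⟨hA, ?_⟩
  by_contra hcon
  push Not at hcon
  nlinarith

/-- `x^2 - 2y^2` and `x^2 + 2y^2` both squares forces `y = 0`. -/
theorem L0a (x y z w : ℤ) (hc : IsCoprime x y) (h1 : x ^ 2 - 2 * y ^ 2 = z ^ 2)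
    (h2 : x ^ 2 + 2 * y ^ 2 = w ^ 2) : y = 0 := by
  by_contra hy
  -- w and z have the same parity
  have hpar : Even (w - z) := by
    have h3 : Even ((w - z) * (w + z)) := ⟨2 * y ^ 2, by linear_combination h1 - h2⟩
    rcases Int.even_mul.mp h3 with h | h
    · exact h
    · have : w - z = w + z - 2 * z := by ring
      rw [this]
      exact h.sub (even_two_mul z)
  obtain ⟨Q, hQ⟩ := hpar
  obtain ⟨P, hP⟩ : ∃ P, P = z + Q := ⟨_, rfl⟩
  have hw : w = P + Q := by linarith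
  have hz : z = P - Q := by linarith
  have e1 : P * Q = y ^ 2 := by
    rw [hw, ] at h2
    rw [hz] at h1
    linarith [show (P + Q) ^ 2 - (P - Q) ^ 2 = 4 * (P * Q) by ring]
  have e2 : P ^ 2 + Q ^ 2 = x ^ 2 := by
    rw [hw, ] at h2
    rw [hz] at h1
    linarith [show (P + Q) ^ 2 + (P - Q) ^ 2 = 2 * (P ^ 2 + Q ^ 2) by ring]
  have hcPQ : IsCoprime P Q := by
    -- P coprime to x^2 (as P | y^2)
    have h3 : IsCoprime P (x ^ 2) :=
      (hc.symm.pow (m := 2) (n := 2)).of_isCoprime_of_dvd_left ⟨Q, e1.symm⟩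
    rw [← e2] at h3
    have h4 : IsCoprime P (Q ^ 2) := by
      have := h3.add_mul_left_right (-P)
      rw [show P ^ 2 + Q ^ 2 + P * -P = Q ^ 2 by ring] at this
      exact this
    exact (IsCoprime.pow_right_iff (by norm_num)).mp h4
  obtain ⟨p, hp⟩ := sq_of_isCoprime hcPQ e1
  obtain ⟨q, hq⟩ := sq_of_isCoprime hcPQ.symm (by rw [mul_comm]; exact e1)
  have hp4 : P ^ 2 = p ^ 4 := by rcases hp with h | h <;> rw [h] <;> ring
  have hq4 : Q ^ 2 = q ^ 4 := by rcases hq with h | h <;> rw [h] <;> ring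
  have hPne : P ≠ 0 := left_ne_zero_of_mul (b := Q) (by rw [e1]; exact pow_ne_zero 2 hy)
  have hQne : Q ≠ 0 := right_ne_zero_of_mul (a := P) (by rw [e1]; exact pow_ne_zero 2 hy)
  have hpne : p ≠ 0 := by rintro h; rw [h] at hp4; simp at hp4; exact hPne hp4
  have hqne : q ≠ 0 := by rintro h; rw [h] at hq4; simp at hq4; exact hQne hq4
  exact not_fermat_42 hpne hqne (by rw [← hp4, ← hq4, e2])

lemma L0b_step (x y z w : ℤ) (hc : IsCoprime x y) (hy : y ≠ 0) (h1 : x ^ 2 - y ^ 2 = z ^ 2)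
    (h2 : x ^ 2 + y ^ 2 = w ^ 2) : ∃ x' y' z' w' : ℤ, IsCoprime x' y' ∧ y' ≠ 0 ∧
      x' ^ 2 - y' ^ 2 = z' ^ 2 ∧ x' ^ 2 + y' ^ 2 = w' ^ 2 ∧ y'.natAbs < y.natAbs := by
  have hpar : Even (w - z) := by
    have h3 : Even ((w - z) * (w + z)) := ⟨y ^ 2, by linear_combination h1 - h2⟩
    rcases Int.even_mul.mp h3 with h | h
    · exact h
    · have : w - z = w + z - 2 * z := by ring
      rw [this]
      exact h.sub (even_two_mul z)
  obtain ⟨Q, hQ⟩ := hpar
  obtain ⟨P, hP⟩ : ∃ P, P = z + Q := ⟨_, rfl⟩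
  have hw : w = P + Q := by linarith
  have hz : z = P - Q := by linarith
  have e1 : 2 * (P * Q) = y ^ 2 := by
    rw [hw] at h2
    rw [hz] at h1
    linarith [show (P + Q) ^ 2 - (P - Q) ^ 2 = 4 * (P * Q) by ring]
  have e2 : P ^ 2 + Q ^ 2 = x ^ 2 := by
    rw [hw] at h2
    rw [hz] at h1
    linarith [show (P + Q) ^ 2 + (P - Q) ^ 2 = 2 * (P ^ 2 + Q ^ 2) by ring]
  have hyev : Even y := by
    have : Even (y ^ 2) := by rw [← e1]; exact even_two_mul _
    exact (Int.even_pow.mp this).1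
  obtain ⟨y1, rfl⟩ := hyev
  have hy1 : y1 ≠ 0 := by rintro rfl; exact hy (by ring)
  have e1' : P * Q = 2 * y1 ^ 2 := by linarith [show (y1 + y1) ^ 2 = 4 * y1 ^ 2 by ring]
  have hcy : IsCoprime x (2 * y1) := by rw [two_mul]; exact hc
  have hcPQ : IsCoprime P Q := by
    have h3 : IsCoprime P (x ^ 2) := by
      have h5 : IsCoprime (2 * (2 * y1 ^ 2)) (x ^ 2) := by
        have := hcy.symm.pow (m := 2) (n := 2)
        rw [show 2 * (2 * y1 ^ 2) = (2 * y1) ^ 2 by ring]
        exact this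
      exact (IsCoprime.of_mul_left_right h5).of_isCoprime_of_dvd_left ⟨Q, e1'.symm⟩
    rw [← e2] at h3
    have h4 : IsCoprime P (Q ^ 2) := by
      have := h3.add_mul_left_right (-P)
      rw [show P ^ 2 + Q ^ 2 + P * -P = Q ^ 2 by ring] at this
      exact this
    exact (IsCoprime.pow_right_iff (by norm_num)).mp h4
  -- one of P Q is even
  have main : ∀ P Q : ℤ, IsCoprime P Q → Even P → P * Q = 2 * y1 ^ 2 → P ^ 2 + Q ^ 2 = x ^ 2 →
      ∃ x' y' z' w' : ℤ, IsCoprime x' y' ∧ y' ≠ 0 ∧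
      x' ^ 2 - y' ^ 2 = z' ^ 2 ∧ x' ^ 2 + y' ^ 2 = w' ^ 2 ∧ y'.natAbs < (y1 + y1).natAbs := by
    intro P Q hcPQ hPe e1 e2
    have hQodd : Odd Q := odd_of_isCoprime_even hcPQ hPe
    obtain ⟨P1, rfl⟩ := hPe
    have hcP1Q : IsCoprime P1 Q := by
      rw [← two_mul] at hcPQ
      exact IsCoprime.of_mul_left_right hcPQ
    have e3 : P1 * Q = y1 ^ 2 := by linarith
    obtain ⟨p, hp⟩ := sq_of_isCoprime hcP1Q e3
    obtain ⟨q, hq⟩ := sq_of_isCoprime hcP1Q.symm (by rw [mul_comm]; exact e3)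
    have hp4 : P1 ^ 2 = p ^ 4 := by rcases hp with h | h <;> rw [h] <;> ring
    have hq4 : Q ^ 2 = q ^ 4 := by rcases hq with h | h <;> rw [h] <;> ring
    have hP1ne : P1 ≠ 0 := left_ne_zero_of_mul (b := Q) (by rw [e3]; exact pow_ne_zero 2 hy1)
    have hQne : Q ≠ 0 := right_ne_zero_of_mul (a := P1) (by rw [e3]; exact pow_ne_zero 2 hy1)
    have hpne : p ≠ 0 := by rintro h; rw [h] at hp4; simp at hp4; exact hP1ne hp4
    have hqne : q ≠ 0 := by rintro h; rw [h] at hq4; simp at hq4; exact hQne hq4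
    have hqodd : Odd q := by
      have : Odd (q ^ 4) := by rw [← hq4]; exact hQodd.pow
      exact (Int.odd_pow.mp this).resolve_right (by norm_num)
    have hpq : IsCoprime p q := by
      have : IsCoprime (p ^ 4) (q ^ 4) := by
        rw [← hp4, ← hq4]; exact hcP1Q.pow
      exact (IsCoprime.pow_iff (by norm_num) (by norm_num)).mp this
    -- q^4 + 4 p^4 = x^2
    have hpyth : PythagoreanTriple (q ^ 2) (2 * p ^ 2) x := by
      unfold PythagoreanTriple
      have : (P1 + P1) ^ 2 = 4 * P1 ^ 2 := by ring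
      nlinarith [hp4, hq4, e2, this]
    have hgcd : (q ^ 2).gcd (2 * p ^ 2) = 1 := by
      rw [← Int.isCoprime_iff_gcd_eq_one]
      exact IsCoprime.mul_right ((isCoprime_two_of_odd hqodd).symm.pow_left) (hpq.symm.pow)
    obtain ⟨k, l, hkl, -, hgkl, hpar2⟩ :=
      PythagoreanTriple.coprime_classification.mp ⟨hpyth, hgcd⟩
    rcases hkl with ⟨hk1, hk2⟩ | ⟨hk1, hk2⟩
    swap
    · exfalso
      have : Even (q ^ 2) := by rw [hk1, mul_assoc]; exact even_two_mul _
      exact (Int.not_even_iff_odd.mpr (hqodd.pow (n := 2))) this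
    have hkl2 : k * l = p ^ 2 := by linarith [hk2, mul_assoc 2 k l]
    have hck : IsCoprime k l := Int.isCoprime_iff_gcd_eq_one.mpr hgkl
    obtain ⟨K, hK⟩ := sq_of_isCoprime hck hkl2
    obtain ⟨L, hL⟩ := sq_of_isCoprime hck.symm (by rw [mul_comm]; exact hkl2)
    have hK4 : k ^ 2 = K ^ 4 := by rcases hK with h | h <;> rw [h] <;> ring
    have hL4 : l ^ 2 = L ^ 4 := by rcases hL with h | h <;> rw [h] <;> ring
    have hkne : k ≠ 0 := left_ne_zero_of_mul (b := l) (by rw [hkl2]; exact pow_ne_zero 2 hpne)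
    have hlne : l ≠ 0 := right_ne_zero_of_mul (a := k) (by rw [hkl2]; exact pow_ne_zero 2 hpne)
    have hKne : K ≠ 0 := by rintro h; rw [h] at hK4; simp at hK4; exact hkne hK4
    have hLne : L ≠ 0 := by rintro h; rw [h] at hL4; simp at hL4; exact hlne hL4
    have hKL : IsCoprime K L := by
      have : IsCoprime (K ^ 4) (L ^ 4) := by
        rw [← hK4, ← hL4]; exact hck.pow
      exact (IsCoprime.pow_iff (by norm_num) (by norm_num)).mp this
    have hprod : (K ^ 2 - L ^ 2) * (K ^ 2 + L ^ 2) = q ^ 2 := by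
      rw [hk1, hK4, hL4]; ring
    have hcop3 : IsCoprime (K ^ 2 - L ^ 2) (K ^ 2 + L ^ 2) := by
      -- both divide q^2 odd; gcd divides 2K^2, 2L^2
      have hodd1 : Odd (K ^ 2 - L ^ 2) := by
        have : Odd ((K ^ 2 - L ^ 2) * (K ^ 2 + L ^ 2)) := by rw [hprod]; exact hqodd.pow
        exact (Int.odd_mul.mp this).1
      have hL2 : IsCoprime (K ^ 2 - L ^ 2) (L ^ 2) := by
        have := (hKL.pow (m := 2) (n := 2)).symm.add_mul_left_right (-1)
        rw [show K ^ 2 + L ^ 2 * -1 = K ^ 2 - L ^ 2 by ring] at this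
        exact this.symm
      have : IsCoprime (K ^ 2 - L ^ 2) (2 * L ^ 2) :=
        IsCoprime.mul_right (isCoprime_two_of_odd hodd1).symm hL2
      have h5 := this.add_mul_left_right 1
      rw [show 2 * L ^ 2 + (K ^ 2 - L ^ 2) * 1 = K ^ 2 + L ^ 2 by ring] at h5
      exact h5
    have hpos : 0 < (K ^ 2 - L ^ 2) * (K ^ 2 + L ^ 2) := by rw [hprod]; positivity
    have hsumpos : 0 < K ^ 2 + L ^ 2 := by positivity
    have hdiffpos : 0 < K ^ 2 - L ^ 2 := by
      by_contra hcon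
      push Not at hcon
      nlinarith
    obtain ⟨z', hz'⟩ := sq_of_isCoprime hcop3 hprod
    obtain ⟨w', hw'⟩ := sq_of_isCoprime hcop3.symm (by rw [mul_comm]; exact hprod)
    refine ⟨K, L, z', w', hKL, hLne, ?_, ?_, ?_⟩
    · rcases hz' with h | h
      · exact h
      · exfalso
        have : 0 ≤ z' ^ 2 := by positivity
        linarith
    · rcases hw' with h | h
      · exact h
      · exfalso
        have : 0 ≤ w' ^ 2 := by positivity
        linarith
    · -- y1^2 = p^2 q^2 up to sign, p^2 = k l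
      have e4 : y1 ^ 4 = (L * (K * q)) ^ 4 * 1 := by
        have e5 : y1 ^ 4 = P1 ^ 2 * Q ^ 2 := by rw [show y1 ^ 4 = (y1 ^ 2) ^ 2 by ring, ← e3]; ring
        have e6 : p ^ 4 = K ^ 4 * L ^ 4 := by
          rw [show p ^ 4 = (p ^ 2) ^ 2 by ring, ← hkl2, ← hK4, ← hL4]; ring
        rw [e5, hp4, hq4, e6]; ring
      rw [mul_one] at e4
      have e2' : y1.natAbs = (L * (K * q)).natAbs := by
        have := congrArg Int.natAbs e4
        rw [Int.natAbs_pow, Int.natAbs_pow] at this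
        exact Nat.pow_left_injective (by norm_num) this
      have e3' : (y1 + y1).natAbs = 2 * y1.natAbs := by
        rw [← two_mul, Int.natAbs_mul]; rfl
      rw [e3', e2', Int.natAbs_mul]
      have hp1 : 0 < L.natAbs := Int.natAbs_pos.mpr hLne
      have hqs1 : 0 < (K * q).natAbs := Int.natAbs_pos.mpr (mul_ne_zero hKne hqne)
      nlinarith
  have hev : Even (P * Q) := by rw [e1']; exact even_two_mul _
  rcases Int.even_mul.mp hev with h | h
  · exact main P Q hcPQ h e1' e2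
  · exact main Q P hcPQ.symm h (by rw [mul_comm]; exact e1') (by rw [add_comm]; exact e2)

/-- `x^2 - y^2` and `x^2 + y^2` both squares forces `y = 0` (coprime case). -/
theorem L0b (x y z w : ℤ) (hc : IsCoprime x y) (h1 : x ^ 2 - y ^ 2 = z ^ 2)
    (h2 : x ^ 2 + y ^ 2 = w ^ 2) : y = 0 := by
  by_contra hy
  have main : ∀ n : ℕ, ∀ x y z w : ℤ, IsCoprime x y → y ≠ 0 → x ^ 2 - y ^ 2 = z ^ 2 →
      x ^ 2 + y ^ 2 = w ^ 2 → y.natAbs = n → False := by
    intro n
    induction n using Nat.strong_induction_on with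
    | _ n ih =>
      intro x y z w hc hy h1 h2 hn
      obtain ⟨x', y', z', w', hc', hy', h1', h2', hlt⟩ := L0b_step x y z w hc hy h1 h2
      exact ih y'.natAbs (by omega) x' y' z' w' hc' hy' h1' h2' rfl
  exact main _ x y z w hc hy h1 h2 rfl

end Pool.Agent.Helper35.Cuboid
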