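import Pool.Agent.Helper35.CuboidB

namespace Pool.Agent.Helper35.Cuboid

/-- From coprime nonnegative integers with product `17 c ^ 4`. -/
lemma split_seventeen {A B c : ℤ} (h : IsCoprime A B) (hA : 0 ≤ A) (hB : 0 ≤ B)
    (heq : A * B = 17 * c ^ 4) :
    ∃ p q, IsCoprime p q ∧ c ^ 4 = p ^ 4 * q ^ 4 ∧ A + B = p ^ 4 + 17 * q ^ 4 := by
  have hp17 : Prime (17 : ℤ) := by
    rw [Int.prime_iff_natAbs_prime]; norm_num
  have h2 : (17 : ℤ) ∣ A * B := ⟨c ^ 4, heq⟩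
  rcases (hp17.dvd_or_dvd h2) with ⟨A', hA'⟩ | ⟨B', hB'⟩
  · subst hA'
    have hcop : IsCoprime A' B := IsCoprime.of_mul_left_right h
    have e1 : A' * B = c ^ 4 := by linarith
    obtain ⟨p, hp⟩ := pow4_of_isCoprime hcop (by linarith) e1
    obtain ⟨q, hq⟩ := pow4_of_isCoprime hcop.symm hB (by rw [mul_comm]; exact e1)
    refine ⟨q, p, ?_, ?_, ?_⟩
    · rw [hp, hq] at hcop
      exact ((IsCoprime.pow_iff (by norm_num) (by norm_num)).mp hcop).symm
    · rw [← e1, hp, hq]; ring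
    · rw [hp, hq]; ring
  · subst hB'
    have hcop : IsCoprime A B' := IsCoprime.of_mul_right_right h
    have e1 : A * B' = c ^ 4 := by linarith
    obtain ⟨q, hq⟩ := pow4_of_isCoprime hcop hA e1
    obtain ⟨p, hp⟩ := pow4_of_isCoprime hcop.symm (by linarith) (by rw [mul_comm]; exact e1)
    refine ⟨q, p, ?_, ?_, ?_⟩
    · rw [hp, hq] at hcop
      exact ((IsCoprime.pow_iff (by norm_num) (by norm_num)).mp hcop)
    · rw [← e1, hp, hq]
    · rw [hp, hq]

lemma natAbs_eq_of_pow_four {a b : ℤ} (h : a ^ 4 = b ^ 4) : a = b ∨ a = -b := by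
  have : a.natAbs = b.natAbs := by
    have := congrArg Int.natAbs h
    rw [Int.natAbs_pow, Int.natAbs_pow] at this
    exact Nat.pow_left_injective (by norm_num) this
  exact Int.natAbs_eq_natAbs_iff.mp this

/-- Structure of the solutions of `u ^ 4 + 3 u ^ 2 v ^ 2 - 2 v ^ 4 = W ^ 2`. -/
theorem L2 (u v W : ℤ) (hc : IsCoprime u v) (hu : Odd u) (hv : Even v)
    (H : u ^ 4 + 3 * u ^ 2 * v ^ 2 - 2 * v ^ 4 = W ^ 2) :
    ∃ σ g h : ℤ, (v = 2 * (σ * g * h) ∨ v = -(2 * (σ * g * h))) ∧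
      (u = g ^ 4 + 2 * h ^ 4 ∨ u = -(g ^ 4 + 2 * h ^ 4)) ∧
      (σ ^ 2 = 3 * g ^ 2 * h ^ 2 + (g ^ 4 - 2 * h ^ 4) ∨
        σ ^ 2 = 3 * g ^ 2 * h ^ 2 - (g ^ 4 - 2 * h ^ 4)) ∧
      IsCoprime σ g ∧ IsCoprime σ h ∧ IsCoprime g h := by
  obtain ⟨v1, rfl⟩ := hv
  by_cases hv1 : v1 = 0
  · subst hv1
    have : IsUnit u := by
      rw [add_zero] at hc
      exact isCoprime_zero_right.mp hc
    refine ⟨1, 1, 0, ?_, ?_, ?_, ?_, ?_, ?_⟩
    · left; ring
    · rcases Int.isUnit_iff.mp this with h | h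
      · left; rw [h]; norm_num
      · right; rw [h]; norm_num
    · left; norm_num
    · exact isCoprime_one_left
    · exact isCoprime_one_left
    · exact isCoprime_one_left
  have hcv : IsCoprime u v1 := by
    rw [← two_mul] at hc
    exact IsCoprime.of_mul_right_right hc
  have hWodd : Odd W := by
    have h1 : Odd (W ^ 2) := by
      rw [← H]
      have h2 : Odd (u ^ 4) := hu.pow
      have h3 : Even (3 * u ^ 2 * (v1 + v1) ^ 2 - 2 * (v1 + v1) ^ 4) :=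
        ⟨3 * u ^ 2 * (2 * v1 ^ 2) - (v1 + v1) ^ 4, by ring⟩
      have := h2.add_even h3
      rw [← add_sub_assoc] at this
      exact this
    exact (Int.odd_pow.mp h1).resolve_right (by norm_num)
  obtain ⟨S, hS⟩ : ∃ S, S = u ^ 2 + 6 * v1 ^ 2 := ⟨_, rfl⟩
  have hSodd : Odd S := by
    rw [hS]
    exact (hu.pow (n := 2)).add_even ⟨3 * v1 ^ 2, by ring⟩
  obtain ⟨A, hA⟩ : ∃ A, S - W = 2 * A := by
    obtain ⟨x, hx⟩ := hSodd.sub_odd hWodd
    exact ⟨x, by linarith⟩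
  obtain ⟨B, hB⟩ : ∃ B, S + W = 2 * B := by
    obtain ⟨x, hx⟩ := hSodd.add_odd hWodd
    exact ⟨x, by linarith⟩
  have hAB : A * B = 17 * v1 ^ 4 := by
    have : (2 * A) * (2 * B) = 68 * v1 ^ 4 := by
      rw [← hA, ← hB, hS]; linear_combination H
    linarith
  have hsum : A + B = S := by linarith
  have hv1pos : 0 < v1 ^ 4 := by positivity
  have hune : u ≠ 0 := by rintro rfl; simp at hu
  have hSpos : 0 < S := by rw [hS]; positivity
  obtain ⟨hApos, hBpos⟩ := pos_pair (A := A) (B := B) (by rw [hAB]; linarith) (by linarith)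
  have hcop : IsCoprime A B := by
    -- via no common prime
    rw [Int.isCoprime_iff_gcd_eq_one]
    by_contra hne
    obtain ⟨p, hp, hpd⟩ := Nat.exists_prime_and_dvd hne
    have hpA : (p : ℤ) ∣ A := (Int.natCast_dvd_natCast.mpr hpd).trans (Int.gcd_dvd_left ..)
    have hpB : (p : ℤ) ∣ B := (Int.natCast_dvd_natCast.mpr hpd).trans (Int.gcd_dvd_right ..)
    have hpp : Prime (p : ℤ) := Nat.prime_iff_prime_int.mp hp
    have hp2 : (p : ℤ) * p ∣ 17 * v1 ^ 4 := by rw [← hAB]; exact mul_dvd_mul hpA hpB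
    have hpv : (p : ℤ) ∣ v1 := by
      by_contra hpv
      have hcpv : IsCoprime (p : ℤ) (v1 ^ 4) :=
        ((Prime.coprime_iff_not_dvd hpp).mpr hpv).pow_right
      have h3 : (p : ℤ) * p ∣ 17 := (hcpv.mul_left hcpv).dvd_of_dvd_mul_right hp2
      have h4 : p * p ∣ 17 := by exact_mod_cast h3
      have h5 : p ∣ 17 := (Dvd.intro _ rfl).trans h4
      have h6 : p = 1 ∨ p = 17 := (Nat.dvd_prime (by norm_num)).mp h5
      rcases h6 with h6 | h6
      · exact hp.one_lt.ne' h6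
      · rw [h6] at h4; norm_num at h4
    have hpS : (p : ℤ) ∣ S := by rw [← hsum]; exact dvd_add hpA hpB
    have hpu2 : (p : ℤ) ∣ u ^ 2 := by
      have : u ^ 2 = S - 6 * v1 ^ 2 := by linarith
      rw [this]
      exact dvd_sub hpS (Dvd.dvd.mul_left (dvd_pow hpv (by norm_num)) _)
    have hpu : (p : ℤ) ∣ u := hpp.dvd_of_dvd_pow hpu2
    exact hpp.not_isUnit (hcv.isUnit_of_dvd' hpu hpv)
  obtain ⟨σ, τ, hστ, hv4, hs⟩ := split_seventeen hcop hApos.le hBpos.le hAB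
  have hv1eq : v1 = σ * τ ∨ v1 = -(σ * τ) :=
    natAbs_eq_of_pow_four (by rw [hv4]; ring)
  have hv12 : v1 ^ 2 = σ ^ 2 * τ ^ 2 := by
    rcases hv1eq with h | h <;> rw [h] <;> ring
  have hσne : σ ≠ 0 := by
    rintro rfl
    apply hv1
    rcases hv1eq with h | h <;> rw [h] <;> ring
  have hτne : τ ≠ 0 := by
    rintro rfl
    apply hv1
    rcases hv1eq with h | h <;> rw [h] <;> ring
  have hcuσ : IsCoprime u σ := by
    have : IsCoprime (u ^ 2) (v1 ^ 2) := hcv.pow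
    rw [hv12] at this
    exact (IsCoprime.pow_iff (by norm_num) (by norm_num)).mp (IsCoprime.of_mul_right_left this)
  have hcuτ : IsCoprime u τ := by
    have : IsCoprime (u ^ 2) (v1 ^ 2) := hcv.pow
    rw [hv12] at this
    exact (IsCoprime.pow_iff (by norm_num) (by norm_num)).mp (IsCoprime.of_mul_right_right this)
  -- u^2 = (σ^2 - 3 τ^2)^2 + 8 τ^4
  have hu2 : u ^ 2 = (σ ^ 2 - 3 * τ ^ 2) ^ 2 + 8 * τ ^ 4 := by
    have : u ^ 2 + 6 * v1 ^ 2 = σ ^ 4 + 17 * τ ^ 4 := by rw [← hS, ← hsum, hs]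
    rw [hv12] at this
    linear_combination this
  obtain ⟨T, hT⟩ : ∃ T, T = σ ^ 2 - 3 * τ ^ 2 := ⟨_, rfl⟩
  rw [← hT] at hu2
  have hTodd : Odd T := by
    have h1 : Odd (T ^ 2) := by
      have : T ^ 2 = u ^ 2 - 8 * τ ^ 4 := by linarith
      rw [this]
      exact (hu.pow (n := 2)).sub_even ⟨4 * τ ^ 4, by ring⟩
    exact (Int.odd_pow.mp h1).resolve_right (by norm_num)
  -- work with |u|
  obtain ⟨U, hUpos, hUu⟩ : ∃ U : ℤ, 0 < U ∧ (u = U ∨ u = -U) := by
    rcases lt_or_gt_of_ne hune with h | h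
    · exact ⟨-u, by linarith, Or.inr (by ring)⟩
    · exact ⟨u, h, Or.inl rfl⟩
  have hUodd : Odd U := by
    rcases hUu with h | h
    · rw [← h]; exact hu
    · rw [h] at hu
      exact odd_neg.mp hu
  have hU2 : U ^ 2 = u ^ 2 := by rcases hUu with h | h <;> rw [h] <;> ring
  have hcUτ : IsCoprime U τ := by
    rcases hUu with h | h
    · rw [← h]; exact hcuτ
    · rw [h] at hcuτ
      exact (IsCoprime.neg_left_iff _ _).mp hcuτ
  obtain ⟨C, hC⟩ : ∃ C, U - T = 2 * C := by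
    obtain ⟨x, hx⟩ := hUodd.sub_odd hTodd
    exact ⟨x, by linarith⟩
  obtain ⟨D, hD⟩ : ∃ D, U + T = 2 * D := by
    obtain ⟨x, hx⟩ := hUodd.add_odd hTodd
    exact ⟨x, by linarith⟩
  have hCD : C * D = 2 * τ ^ 4 := by
    have : (2 * C) * (2 * D) = 8 * τ ^ 4 := by
      rw [← hC, ← hD]; linear_combination hU2 + hu2
    linarith
  have hsumCD : C + D = U := by linarith
  have hτ4 : 0 < τ ^ 4 := by positivity
  obtain ⟨hCpos, hDpos⟩ := pos_pair (A := C) (B := D) (by rw [hCD]; linarith) (by linarith)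
  have hcopC : IsCoprime C U := by
    have h8 : IsCoprime (2 * τ ^ 4) U :=
      IsCoprime.mul_left (isCoprime_two_of_odd hUodd) (hcUτ.symm.pow_left)
    exact h8.of_isCoprime_of_dvd_left ⟨D, hCD.symm⟩
  have hcopCD : IsCoprime C D := by
    have h5 := hcopC.add_mul_left_right (-1)
    rw [show U + C * -1 = D by linarith] at h5
    exact h5
  obtain ⟨h, g, hhg, hτgh, hcase⟩ := split_two hcopCD hCpos.le hDpos.le hCD
  have hτeq : τ = g * h ∨ τ = -(g * h) :=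
    natAbs_eq_of_pow_four (by rw [hτgh]; ring)
  have hτ2 : τ ^ 2 = g ^ 2 * h ^ 2 := by
    rcases hτeq with h | h <;> rw [h] <;> ring
  have hcστ2 : IsCoprime (σ ^ 2) (g ^ 2 * h ^ 2) := by
    rw [← hτ2]; exact hστ.pow
  refine ⟨σ, g, h, ?_, ?_, ?_, ?_, ?_, hhg.symm⟩
  · rcases hv1eq with e | e <;> rcases hτeq with e' | e' <;> rw [e, e']
    · left; ring
    · right; ring
    · right; ring
    · left; ring
  · have hUeq : U = g ^ 4 + 2 * h ^ 4 := by
      rcases hcase with ⟨a1, a2⟩ | ⟨a1, a2⟩ <;> linarith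
    rcases hUu with e | e
    · left; rw [e, hUeq]
    · right; rw [e, hUeq]
  · have hTeq : T = D - C := by linarith
    have hσ2 : σ ^ 2 = 3 * (g ^ 2 * h ^ 2) + (D - C) := by
      rw [← hτ2, ← hTeq, hT]; ring
    rcases hcase with ⟨a1, a2⟩ | ⟨a1, a2⟩
    · left; rw [hσ2, a1, a2]; ring
    · right; rw [hσ2, a1, a2]; ring
  · exact (IsCoprime.pow_iff (by norm_num) (by norm_num)).mp (IsCoprime.of_mul_right_left hcστ2)
  · exact (IsCoprime.pow_iff (by norm_num) (by norm_num)).mp (IsCoprime.of_mul_right_right hcστ2)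

/-- If moreover `u` is (up to sign) a square, then `v = 0`. -/
theorem L3 (u v W a : ℤ) (hc : IsCoprime u v) (hu : Odd u) (hv : Even v)
    (H : u ^ 4 + 3 * u ^ 2 * v ^ 2 - 2 * v ^ 4 = W ^ 2) (ha : u = a ^ 2 ∨ u = -a ^ 2) :
    v = 0 := by
  obtain ⟨σ, g, h, hv', hu', -, -, -, hgh⟩ := L2 u v W hc hu hv H
  have hune : u ≠ 0 := by rintro rfl; simp at hu
  have key : g ^ 4 + 2 * h ^ 4 = a ^ 2 := by
    have h1 : 0 ≤ g ^ 4 + 2 * h ^ 4 := by positivity
    have h2 : 0 ≤ a ^ 2 := by positivity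
    rcases hu' with e | e <;> rcases ha with e' | e'
    · linarith
    · exfalso; apply hune; linarith
    · exfalso; apply hune; linarith
    · linarith
  have hh : h = 0 := L1 g h a hgh key
  rcases hv' with e | e <;> rw [e, hh] <;> ring

/-- If `v = ± 2 c ^ 2` then `v = 0`. -/
theorem L4 (u v W c : ℤ) (hc : IsCoprime u v) (hu : Odd u) (hv : Even v)
    (H : u ^ 4 + 3 * u ^ 2 * v ^ 2 - 2 * v ^ 4 = W ^ 2) (hcc : v = 2 * c ^ 2 ∨ v = -(2 * c ^ 2)) :
    v = 0 := by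
  by_contra hvne
  obtain ⟨σ, g, h, hv', hu', hσ, hσg, hσh, hgh⟩ := L2 u v W hc hu hv H
  have hprod : ∃ c' : ℤ, σ * g * h = c' ^ 2 ∨ σ * g * h = -c' ^ 2 := by
    refine ⟨c, ?_⟩
    rcases hv' with e | e <;> rcases hcc with e' | e'
    · left; linarith
    · right; linarith
    · right; linarith
    · left; linarith
  -- each factor is ± a square
  have hsq : ∀ x y : ℤ, IsCoprime x y → (∃ c' : ℤ, x * y = c' ^ 2 ∨ x * y = -c' ^ 2) →
      ∃ d, x ^ 2 = d ^ 4 := by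
    intro x y hxy ⟨c', hc'⟩
    rcases hc' with e | e
    · obtain ⟨d, hd⟩ := sq_of_isCoprime hxy e
      exact ⟨d, by rcases hd with e | e <;> rw [e] <;> ring⟩
    · have : x * (-y) = c' ^ 2 := by linarith
      obtain ⟨d, hd⟩ := sq_of_isCoprime ((IsCoprime.neg_right_iff _ _).mpr hxy) this
      exact ⟨d, by rcases hd with e | e <;> rw [e] <;> ring⟩
  obtain ⟨s, hs⟩ := hsq σ (g * h) (hσg.mul_right hσh) (by
    obtain ⟨c', hc'⟩ := hprod
    exact ⟨c', by rw [← mul_assoc]; exact hc'⟩)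
  obtain ⟨g1, hg1⟩ := hsq g (σ * h) (hσg.symm.mul_right hgh) (by
    obtain ⟨c', hc'⟩ := hprod
    exact ⟨c', by rw [show g * (σ * h) = σ * g * h by ring]; exact hc'⟩)
  obtain ⟨h1, hh1⟩ := hsq h (σ * g) (hσh.symm.mul_right hgh.symm) (by
    obtain ⟨c', hc'⟩ := hprod
    exact ⟨c', by rw [show h * (σ * g) = σ * g * h by ring]; exact hc'⟩)
  have hgodd : Odd g := by
    have h1 : Odd (g ^ 4) := by
      have h2 : Odd (g ^ 4 + 2 * h ^ 4) := by
        rcases hu' with e | e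
        · rw [← e]; exact hu
        · rw [e] at hu; exact odd_neg.mp hu
      rw [Int.odd_add] at h2
      exact h2.mpr (even_two_mul _)
    exact (Int.odd_pow.mp h1).resolve_right (by norm_num)
  have hg1odd : Odd g1 := by
    have h1 : Odd (g1 ^ 4) := by rw [← hg1]; exact hgodd.pow
    exact (Int.odd_pow.mp h1).resolve_right (by norm_num)
  have hhne : h ≠ 0 := by
    rintro rfl
    apply hvne
    rcases hv' with e | e <;> rw [e] <;> ring
  have hh1ne : h1 ≠ 0 := by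
    rintro rfl
    apply hhne
    simpa using hh1
  have hcg1h1 : IsCoprime g1 h1 := by
    have : IsCoprime (g1 ^ 4) (h1 ^ 4) := by rw [← hg1, ← hh1]; exact hgh.pow
    exact (IsCoprime.pow_iff (by norm_num) (by norm_num)).mp this
  obtain ⟨jg, hjg⟩ := odd_pow4_form hg1odd
  rcases hσ with hσ | hσ
  · -- plus sign
    have E : s ^ 4 = 3 * g1 ^ 4 * h1 ^ 4 + (g1 ^ 8 - 2 * h1 ^ 8) := by
      rw [← hs, hσ, show g ^ 4 = (g ^ 2) ^ 2 by ring, show h ^ 4 = (h ^ 2) ^ 2 by ring, hg1, hh1]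
      ring
    rcases Int.even_or_odd h1 with hev | hodd
    · have h0 := L3 (g1 ^ 2) (h1 ^ 2) (s ^ 2) g1 (hcg1h1.pow) (hg1odd.pow)
        (by exact (Int.even_pow.mpr ⟨hev, by norm_num⟩)) (by linear_combination -E) (Or.inl rfl)
      exact hh1ne (by simpa using h0)
    · exfalso
      obtain ⟨jh, hjh⟩ := odd_pow4_form hodd
      have E2 : s ^ 4 = 16 * (3 * (16 * jg * jh + jg + jh) + 16 * jg ^ 2 + 2 * jg
          - 2 * (16 * jh ^ 2 + 2 * jh)) + 2 := by
        rw [E, show g1 ^ 8 = (g1 ^ 4) ^ 2 by ring, show h1 ^ 8 = (h1 ^ 4) ^ 2 by ring, hjg, hjh]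
        ring
      rcases Int.even_or_odd s with h | h
      · obtain ⟨k, hk⟩ := even_pow4_form h
        omega
      · obtain ⟨k, hk⟩ := odd_pow4_form h
        omega
  · exfalso
    have E : s ^ 4 = 3 * g1 ^ 4 * h1 ^ 4 - (g1 ^ 8 - 2 * h1 ^ 8) := by
      rw [← hs, hσ, show g ^ 4 = (g ^ 2) ^ 2 by ring, show h ^ 4 = (h ^ 2) ^ 2 by ring, hg1, hh1]
      ring
    have hsform : (∃ k, s ^ 4 = 16 * k) ∨ (∃ k, s ^ 4 = 16 * k + 1) := by
      rcases Int.even_or_odd s with h | h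
      · exact Or.inl (even_pow4_form h)
      · exact Or.inr (odd_pow4_form h)
    rcases Int.even_or_odd h1 with hev | hodd
    · obtain ⟨jh, hjh⟩ := even_pow4_form hev
      have E2 : s ^ 4 = 16 * (3 * (16 * jg * jh + jh) - 16 * jg ^ 2 - 2 * jg
          + 2 * (16 * jh ^ 2)) - 1 := by
        rw [E, show g1 ^ 8 = (g1 ^ 4) ^ 2 by ring, show h1 ^ 8 = (h1 ^ 4) ^ 2 by ring, hjg, hjh]
        ring
      rcases hsform with ⟨k, hk⟩ | ⟨k, hk⟩ <;> omega
    · obtain ⟨jh, hjh⟩ := odd_pow4_form hodd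
      have E2 : s ^ 4 = 16 * (3 * (16 * jg * jh + jg + jh) - 16 * jg ^ 2 - 2 * jg
          + 2 * (16 * jh ^ 2 + 2 * jh)) + 4 := by
        rw [E, show g1 ^ 8 = (g1 ^ 4) ^ 2 by ring, show h1 ^ 8 = (h1 ^ 4) ^ 2 by ring, hjg, hjh]
        ring
      rcases hsform with ⟨k, hk⟩ | ⟨k, hk⟩ <;> omega

end Pool.Agent.Helper35.Cuboid
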