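import Pool.Agent.Helper35.CuboidC

namespace Pool.Agent.Helper35.Cuboid

/-- `a * R = 2 k ^ 2`, `a` odd and coprime to `R` forces `a` to be `±` a square. -/
lemma sq_of_two_mul {a R k : ℤ} (ha : Odd a) (h : IsCoprime a R) (heq : a * R = 2 * k ^ 2) :
    ∃ d, a = d ^ 2 ∨ a = -d ^ 2 := by
  refine sq_of_isCoprime (b := 2 * R) (c := 2 * k) ?_ ?_
  · exact (isCoprime_two_of_odd ha).symm.mul_right h
  · linear_combination 2 * heq

lemma dvd_of_sq_dvd_two_mul {t k : ℤ} (ht : Odd t) (h : t ^ 2 ∣ 2 * k ^ 2) : t ∣ k := by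
  have h1 : IsCoprime (t ^ 2) 2 := (isCoprime_two_of_odd ht).symm.pow_left
  have h2 : t ^ 2 ∣ k ^ 2 := h1.dvd_of_dvd_mul_left h
  exact (Int.pow_dvd_pow_iff (by norm_num)).mp h2

theorem quad_odd (M N β k : ℤ) (hc : IsCoprime M N) (hM : Odd M)
    (hE : β * (β + M ^ 2 + 2 * N ^ 2) = M ^ 2 * (M ^ 2 - 2 * M * N - N ^ 2))
    (hK : β * M * N = -2 * k ^ 2) : M = N := by
  have hMne : M ≠ 0 := by rintro rfl; simp at hM
  -- the Pythagorean triple
  obtain ⟨Y, hY⟩ : ∃ Y, Y = 2 * β + M ^ 2 + 2 * N ^ 2 := ⟨_, rfl⟩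
  have hpyth : PythagoreanTriple (2 * N ^ 2 - M ^ 2) (2 * M * (M - N)) Y := by
    unfold PythagoreanTriple
    rw [hY]; linear_combination (-4) * hE
  have hPodd : Odd (2 * N ^ 2 - M ^ 2) := by
    have : Even (2 * N ^ 2) := even_two_mul _
    exact this.sub_odd hM.pow
  have hcop : IsCoprime (2 * N ^ 2 - M ^ 2) (2 * M * (M - N)) := by
    have h1 : IsCoprime (2 * N ^ 2 - M ^ 2) 2 := (isCoprime_two_of_odd hPodd).symm
    have h2 : IsCoprime (2 * N ^ 2 - M ^ 2) M := by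
      have h3 : IsCoprime (2 * N ^ 2) M :=
        IsCoprime.mul_left (isCoprime_two_of_odd hM) (hc.symm.pow_left)
      have := h3.symm.add_mul_left_right (-M)
      rw [show 2 * N ^ 2 + M * -M = 2 * N ^ 2 - M ^ 2 by ring] at this
      exact this.symm
    have h4 : IsCoprime (2 * N ^ 2 - M ^ 2) (M - N) := by
      have h5 : IsCoprime (M - N) (N ^ 2) := by
        have h6 := hc.symm.add_mul_left_right (-1)
        rw [show M + N * -1 = M - N by ring] at h6
        exact h6.symm.pow_right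
      have := h5.add_mul_left_right (-(M + N))
      rw [show N ^ 2 + (M - N) * -(M + N) = 2 * N ^ 2 - M ^ 2 by ring] at this
      exact this.symm
    exact (h1.mul_right h2).mul_right h4
  obtain ⟨x, y, hxy, hYxy, hgxy, hpar⟩ := PythagoreanTriple.coprime_classification.mp
    ⟨hpyth, Int.isCoprime_iff_gcd_eq_one.mp hcop⟩
  rcases hxy with ⟨hP, hQ⟩ | ⟨hP, hQ⟩
  swap
  · exfalso
    have : Even (2 * N ^ 2 - M ^ 2) := by rw [hP, mul_assoc]; exact even_two_mul _
    exact (Int.not_even_iff_odd.mpr hPodd) this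
  have hcxy : IsCoprime x y := Int.isCoprime_iff_gcd_eq_one.mpr hgxy
  have hprod : x * y = M * (M - N) := by linarith [hQ]
  -- N is odd
  have hNodd : Odd N := by
    by_contra hN
    rw [Int.not_odd_iff_even] at hN
    have h1 : Odd (x * y) := by rw [hprod]; exact hM.mul (hM.sub_even hN)
    have h2 := Int.odd_mul.mp h1
    rcases hpar with ⟨a, b⟩ | ⟨a, b⟩
    · exact (Int.not_even_iff_odd.mpr h2.1) (Int.even_iff.mpr a)
    · exact (Int.not_even_iff_odd.mpr h2.2) (Int.even_iff.mpr b)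
  -- x odd and y even
  have hxo : Odd x ∧ Even y := by
    rcases hpar with ⟨a, b⟩ | ⟨a, b⟩
    · exfalso
      obtain ⟨i, hi⟩ := odd_sq_form hM
      obtain ⟨j, hj⟩ := odd_sq_form hNodd
      obtain ⟨l, hl⟩ := odd_sq_form (Int.odd_iff.mpr b)
      obtain ⟨x', hx'⟩ := Int.even_iff.mpr a
      have : x ^ 2 = 4 * x' ^ 2 := by rw [hx']; ring
      omega
    · exact ⟨Int.odd_iff.mpr a, Int.even_iff.mpr b⟩
  obtain ⟨hxodd, hyev⟩ := hxo
  -- r = gcd (x, M)
  obtain ⟨r, x', t, hrx, hrM, hcx't⟩ : ∃ r x' t : ℤ, x = r * x' ∧ M = r * t ∧ IsCoprime x' t := by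
    have hg : (0 : ℕ) < x.gcd M := Int.gcd_pos_of_ne_zero_right _ hMne
    obtain ⟨a, b, hab, e1, e2⟩ := Int.exists_gcd_one hg
    exact ⟨x.gcd M, a, b, by rw [mul_comm]; exact e1, by rw [mul_comm]; exact e2,
      Int.isCoprime_iff_gcd_eq_one.mpr hab⟩
  have hrne : r ≠ 0 := by rintro rfl; apply hMne; rw [hrM]; ring
  have htne : t ≠ 0 := by rintro rfl; apply hMne; rw [hrM]; ring
  have h1 : x' * y = t * (M - N) := by
    have : r * (x' * y) = r * (t * (M - N)) := by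
      rw [← mul_assoc, ← hrx, hprod, ← mul_assoc, ← hrM]
    exact mul_left_cancel₀ hrne this
  have hty : t ∣ y := hcx't.symm.dvd_of_dvd_mul_left ⟨M - N, h1⟩
  obtain ⟨y', rfl⟩ := hty
  have h2 : x' * y' = M - N := by
    have : t * (x' * y') = t * (M - N) := by rw [← h1]; ring
    exact mul_left_cancel₀ htne this
  have hrodd : Odd r := by rw [hrM] at hM; exact (Int.odd_mul.mp hM).1
  have htodd : Odd t := by rw [hrM] at hM; exact (Int.odd_mul.mp hM).2
  have hy'ev : Even y' := by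
    rcases Int.even_mul.mp hyev with h | h
    · exact absurd h (Int.not_even_iff_odd.mpr htodd)
    · exact h
  have hcry' : IsCoprime r y' := by
    rw [hrx] at hcxy
    exact IsCoprime.of_mul_right_right (IsCoprime.of_mul_left_left hcxy)
  have hcrt : IsCoprime r t := by
    rw [hrx] at hcxy
    exact IsCoprime.of_mul_right_left (IsCoprime.of_mul_left_left hcxy)
  have hcrN : IsCoprime r N := by rw [hrM] at hc; exact IsCoprime.of_mul_left_left hc
  -- N = r t - x' y'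
  have hN : N = r * t - x' * y' := by rw [← hrM, h2]; ring
  have hE1 : r ^ 2 * t ^ 2 - 4 * r * t * x' * y' + 2 * x' ^ 2 * y' ^ 2 - r ^ 2 * x' ^ 2
      + t ^ 2 * y' ^ 2 = 0 := by
    rw [hrx, hrM, hN] at hP
    linear_combination hP
  -- r is ± a square
  have hrsq : ∃ d, r = d ^ 2 ∨ r = -d ^ 2 := by
    rcases hYxy with hYe | hYe
    · -- β = y^2 - M^2
      have hβ : β = t ^ 2 * (y' ^ 2 - r ^ 2) := by
        have : 2 * β = 2 * (t ^ 2 * (y' ^ 2 - r ^ 2)) := by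
          rw [hrM] at hY hP
          rw [hYe] at hY
          linear_combination (-1) * hY - hP
        linarith
      have hk2 : t ^ 2 ∣ 2 * k ^ 2 := by
        refine ⟨(r ^ 2 - y' ^ 2) * M * N, ?_⟩
        rw [hβ] at hK
        linear_combination hK
      obtain ⟨k1, rfl⟩ := dvd_of_sq_dvd_two_mul htodd hk2
      have hK2 : r * ((r ^ 2 - y' ^ 2) * (t * N)) = 2 * k1 ^ 2 := by
        have : t ^ 2 * (r * ((r ^ 2 - y' ^ 2) * (t * N))) = t ^ 2 * (2 * k1 ^ 2) := by
          rw [hβ] at hK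
          rw [hrM] at hK
          linear_combination (-1) * hK
        exact mul_left_cancel₀ (pow_ne_zero 2 htne) this
      refine sq_of_two_mul hrodd ?_ hK2
      refine IsCoprime.mul_right ?_ (hcrt.mul_right hcrN)
      have h6 : IsCoprime r (-(y' ^ 2)) := (IsCoprime.neg_right_iff _ _).mpr hcry'.pow_right
      have := h6.add_mul_left_right r
      rw [show -(y' ^ 2) + r * r = r ^ 2 - y' ^ 2 by ring] at this
      exact this
    · -- β = -(x^2+M^2)
      have hβ : β = -(r ^ 2 * (x' ^ 2 + t ^ 2)) := by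
        have : 2 * β = 2 * (-(r ^ 2 * (x' ^ 2 + t ^ 2))) := by
          rw [hrM, hrx] at hP
          rw [hrM] at hY
          rw [hYe, hrx] at hY
          linear_combination (-1) * hY - hP
        linarith
      have hk2 : r ^ 2 ∣ 2 * k ^ 2 := by
        refine ⟨(x' ^ 2 + t ^ 2) * M * N, ?_⟩
        rw [hβ] at hK
        linear_combination hK
      obtain ⟨k1, rfl⟩ := dvd_of_sq_dvd_two_mul hrodd hk2
      have hK2 : r * ((x' ^ 2 + t ^ 2) * (t * N)) = 2 * k1 ^ 2 := by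
        have : r ^ 2 * (r * ((x' ^ 2 + t ^ 2) * (t * N))) = r ^ 2 * (2 * k1 ^ 2) := by
          rw [hβ] at hK
          rw [hrM] at hK
          linear_combination (-1) * hK
        exact mul_left_cancel₀ (pow_ne_zero 2 hrne) this
      refine sq_of_two_mul hrodd ?_ hK2
      refine IsCoprime.mul_right ?_ (hcrt.mul_right hcrN)
      -- r | y'^2 (2 x'^2 + t^2)
      have h5 : r ∣ y' ^ 2 * (2 * x' ^ 2 + t ^ 2) := by
        refine ⟨4 * t * x' * y' + r * x' ^ 2 - r * t ^ 2, ?_⟩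
        linear_combination hE1
      have h6 : r ∣ 2 * x' ^ 2 + t ^ 2 := (hcry'.pow_right).dvd_of_dvd_mul_left h5
      obtain ⟨c, hcc⟩ := h6
      -- x'^2, t^2 coprime
      obtain ⟨a, b, hab⟩ := hcx't.pow (m := 2) (n := 2)
      -- a x'^2 + b t^2 = 1 ; x'^2 = (rc) - (x'^2+t^2), t^2 = 2(x'^2+t^2) - rc
      refine ⟨a * c - b * c, 2 * b - a, ?_⟩
      linear_combination hab - (a - b) * hcc
  obtain ⟨d, hd⟩ := hrsq
  -- W
  have hWsq : (x' * (2 * y' ^ 2 - r ^ 2) - 2 * r * t * y') ^ 2 =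
      t ^ 2 * (r ^ 4 + 3 * r ^ 2 * y' ^ 2 - 2 * y' ^ 4) := by
    linear_combination (2 * y' ^ 2 - r ^ 2) * hE1
  have hWd : t ∣ x' * (2 * y' ^ 2 - r ^ 2) - 2 * r * t * y' := by
    have : t ^ 2 ∣ (x' * (2 * y' ^ 2 - r ^ 2) - 2 * r * t * y') ^ 2 := ⟨_, hWsq⟩
    exact (Int.pow_dvd_pow_iff (by norm_num)).mp this
  obtain ⟨W, hW⟩ := hWd
  have hW2 : r ^ 4 + 3 * r ^ 2 * y' ^ 2 - 2 * y' ^ 4 = W ^ 2 := by
    have : t ^ 2 * (r ^ 4 + 3 * r ^ 2 * y' ^ 2 - 2 * y' ^ 4) = t ^ 2 * W ^ 2 := by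
      rw [← hWsq, hW]; ring
    exact mul_left_cancel₀ (pow_ne_zero 2 htne) this
  have hy'0 : y' = 0 := L3 r y' W d hcry' hrodd hy'ev hW2 hd
  rw [hy'0, mul_zero] at h2
  linarith

theorem quad_even (M N β k : ℤ) (hc : IsCoprime M N) (hM : Even M) (hk : k ≠ 0)
    (hE : β * (β + M ^ 2 + 2 * N ^ 2) = M ^ 2 * (M ^ 2 - 2 * M * N - N ^ 2))
    (hK : β * M * N = -2 * k ^ 2) : False := by
  have hNodd : Odd N := odd_of_isCoprime_even hc hM
  obtain ⟨M1, hMM1⟩ := hM
  rw [← two_mul] at hMM1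
  subst hMM1
  have hM1ne : M1 ≠ 0 := by
    rintro rfl
    apply hk
    have : k ^ 2 = 0 := by linarith
    simpa using this
  have hcM1 : IsCoprime M1 N := IsCoprime.of_mul_left_right hc
  -- parity of β : the discriminant is a square, even
  obtain ⟨Y, hY⟩ : ∃ Y, Y = 2 * β + (2 * M1) ^ 2 + 2 * N ^ 2 := ⟨_, rfl⟩
  obtain ⟨Y1, hY1⟩ : ∃ Y1, Y1 = β + 2 * M1 ^ 2 + N ^ 2 := ⟨_, rfl⟩
  have hpyth : PythagoreanTriple (N ^ 2 - 2 * M1 ^ 2) (2 * M1 * (2 * M1 - N)) Y1 := by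
    unfold PythagoreanTriple
    rw [hY1]; linear_combination (-1) * hE
  have hPodd : Odd (N ^ 2 - 2 * M1 ^ 2) := (hNodd.pow (n := 2)).sub_even (even_two_mul _)
  have hcop : IsCoprime (N ^ 2 - 2 * M1 ^ 2) (2 * M1 * (2 * M1 - N)) := by
    have h1 : IsCoprime (N ^ 2 - 2 * M1 ^ 2) 2 := (isCoprime_two_of_odd hPodd).symm
    have h2 : IsCoprime (N ^ 2 - 2 * M1 ^ 2) M1 := by
      have h3 : IsCoprime M1 (N ^ 2) := hcM1.pow_right
      have := h3.add_mul_left_right (-2 * M1)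
      rw [show N ^ 2 + M1 * (-2 * M1) = N ^ 2 - 2 * M1 ^ 2 by ring] at this
      exact this.symm
    have h4 : IsCoprime (N ^ 2 - 2 * M1 ^ 2) (2 * M1 - N) := by
      have h5 : IsCoprime (2 * M1 - N) (2 * M1 ^ 2) := by
        have h6 : IsCoprime (2 * M1 - N) M1 := by
          have := hcM1.add_mul_left_right (-2)
          rw [show N + M1 * -2 = -(2 * M1 - N) by ring] at this
          exact ((IsCoprime.neg_right_iff _ _).mp this).symm
        have h7 : IsCoprime (2 * M1 - N) 2 := by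
          have : Odd (2 * M1 - N) := (even_two_mul M1).sub_odd hNodd
          exact (isCoprime_two_of_odd this).symm
        exact h7.mul_right h6.pow_right
      have := h5.add_mul_left_right (-(2 * M1 + N))
      rw [show 2 * M1 ^ 2 + (2 * M1 - N) * -(2 * M1 + N) = N ^ 2 - 2 * M1 ^ 2 by ring] at this
      exact this.symm
    exact (h1.mul_right h2).mul_right h4
  obtain ⟨x, y, hxy, hYxy, hgxy, hpar⟩ := PythagoreanTriple.coprime_classification.mp
    ⟨hpyth, Int.isCoprime_iff_gcd_eq_one.mp hcop⟩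
  rcases hxy with ⟨hP, hQ⟩ | ⟨hP, hQ⟩
  swap
  · exfalso
    have : Even (N ^ 2 - 2 * M1 ^ 2) := by rw [hP, mul_assoc]; exact even_two_mul _
    exact (Int.not_even_iff_odd.mpr hPodd) this
  have hcxy : IsCoprime x y := Int.isCoprime_iff_gcd_eq_one.mpr hgxy
  have hprod : x * y = M1 * (2 * M1 - N) := by linarith [hQ]
  have hMNodd : Odd (2 * M1 - N) := (even_two_mul M1).sub_odd hNodd
  have hM1ev : Even M1 := by
    by_contra hcon
    rw [Int.not_even_iff_odd] at hcon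
    have h1 : Odd (x * y) := by rw [hprod]; exact hcon.mul hMNodd
    have h2 := Int.odd_mul.mp h1
    rcases hpar with ⟨a, b⟩ | ⟨a, b⟩
    · exact (Int.not_even_iff_odd.mpr h2.1) (Int.even_iff.mpr a)
    · exact (Int.not_even_iff_odd.mpr h2.2) (Int.even_iff.mpr b)
  have hxo : Odd x ∧ Even y := by
    rcases hpar with ⟨a, b⟩ | ⟨a, b⟩
    · exfalso
      obtain ⟨j, hj⟩ := odd_sq_form hNodd
      obtain ⟨l, hl⟩ := odd_sq_form (Int.odd_iff.mpr b)
      obtain ⟨x', hx'⟩ := Int.even_iff.mpr a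
      obtain ⟨m', hm'⟩ := hM1ev
      have e1 : x ^ 2 = 4 * x' ^ 2 := by rw [hx']; ring
      have e2 : M1 ^ 2 = 4 * m' ^ 2 := by rw [hm']; ring
      omega
    · exact ⟨Int.odd_iff.mpr a, Int.even_iff.mpr b⟩
  obtain ⟨hxodd, hyev⟩ := hxo
  obtain ⟨r, x', t, hrx, hrM, hcx't⟩ : ∃ r x' t : ℤ, x = r * x' ∧ M1 = r * t ∧ IsCoprime x' t := by
    have hg : (0 : ℕ) < x.gcd M1 := Int.gcd_pos_of_ne_zero_right _ hM1ne
    obtain ⟨a, b, hab, e1, e2⟩ := Int.exists_gcd_one hg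
    exact ⟨x.gcd M1, a, b, by rw [mul_comm]; exact e1, by rw [mul_comm]; exact e2,
      Int.isCoprime_iff_gcd_eq_one.mpr hab⟩
  have hrne : r ≠ 0 := by rintro rfl; apply hM1ne; rw [hrM]; ring
  have htne : t ≠ 0 := by rintro rfl; apply hM1ne; rw [hrM]; ring
  have h1 : x' * y = t * (2 * M1 - N) := by
    have : r * (x' * y) = r * (t * (2 * M1 - N)) := by
      rw [← mul_assoc, ← hrx, hprod, ← mul_assoc, ← hrM]
    exact mul_left_cancel₀ hrne this
  have hty : t ∣ y := hcx't.symm.dvd_of_dvd_mul_left ⟨2 * M1 - N, h1⟩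
  obtain ⟨y', rfl⟩ := hty
  have h2 : x' * y' = 2 * M1 - N := by
    have : t * (x' * y') = t * (2 * M1 - N) := by rw [← h1]; ring
    exact mul_left_cancel₀ htne this
  have hrodd : Odd r := by rw [hrx] at hxodd; exact (Int.odd_mul.mp hxodd).1
  have hx'odd : Odd x' := by rw [hrx] at hxodd; exact (Int.odd_mul.mp hxodd).2
  have htev : Even t := by
    rw [hrM] at hM1ev
    rcases Int.even_mul.mp hM1ev with h | h
    · exact absurd h (Int.not_even_iff_odd.mpr hrodd)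
    · exact h
  have hcrt : IsCoprime r t := by
    rw [hrx] at hcxy
    exact IsCoprime.of_mul_right_left (IsCoprime.of_mul_left_left hcxy)
  have hctN : IsCoprime t N := by rw [hrM] at hcM1; exact IsCoprime.of_mul_left_right hcM1
  have hN : N = 2 * (r * t) - x' * y' := by rw [← hrM, h2]; ring
  have hE2 : 2 * r ^ 2 * t ^ 2 - 4 * r * t * x' * y' + x' ^ 2 * y' ^ 2 - r ^ 2 * x' ^ 2
      + t ^ 2 * y' ^ 2 = 0 := by
    rw [hrx, hrM, hN] at hP
    linear_combination hP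
  obtain ⟨t1, ht1⟩ := htev
  rw [← two_mul] at ht1
  have ht1ne : t1 ≠ 0 := by rintro rfl; apply htne; rw [ht1]; ring
  have hctt1 : t1 ∣ t := ⟨2, by rw [ht1]; ring⟩
  -- t1 is ± a square
  have htsq : ∃ d, t1 = d ^ 2 ∨ t1 = -d ^ 2 := by
    rcases hYxy with hYe | hYe
    · have hβ : β = 2 * (t ^ 2 * (y' ^ 2 - 2 * r ^ 2)) := by
        rw [hrM] at hY1 hP
        rw [hYe] at hY1
        linear_combination (-1) * hY1 - hP
      have hK1 : t ^ 2 * (2 * (2 * r ^ 2 - y' ^ 2) * M1 * N) = k ^ 2 := by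
        have : 2 * (t ^ 2 * (2 * (2 * r ^ 2 - y' ^ 2) * M1 * N)) = 2 * k ^ 2 := by
          rw [hβ] at hK
          linear_combination (-1) * hK
        linarith
      have hk2 : t ∣ k := (Int.pow_dvd_pow_iff (by norm_num)).mp ⟨_, hK1.symm⟩
      obtain ⟨k1, rfl⟩ := hk2
      have hK2 : 2 * (2 * r ^ 2 - y' ^ 2) * M1 * N = k1 ^ 2 := by
        have : t ^ 2 * (2 * (2 * r ^ 2 - y' ^ 2) * M1 * N) = t ^ 2 * k1 ^ 2 := by
          rw [hK1]; ring
        exact mul_left_cancel₀ (pow_ne_zero 2 htne) this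
      have hk1e : Even k1 := by
        have : Even (k1 ^ 2) := by
          rw [← hK2]
          exact ⟨(2 * r ^ 2 - y' ^ 2) * M1 * N, by ring⟩
        exact (Int.even_pow.mp this).1
      obtain ⟨k2, rfl⟩ := hk1e
      have hK3 : t1 * ((2 * r ^ 2 - y' ^ 2) * (r * N)) = k2 ^ 2 := by
        have : 4 * (t1 * ((2 * r ^ 2 - y' ^ 2) * (r * N))) = 4 * k2 ^ 2 := by
          rw [hrM, ht1] at hK2
          linear_combination hK2
        linarith
      refine sq_of_isCoprime ?_ hK3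
      have hcop1 : IsCoprime t ((2 * r ^ 2 - y' ^ 2) * (r * N)) := by
        refine IsCoprime.mul_right ?_ (hcrt.symm.mul_right hctN)
        have h5 : t ∣ x' ^ 2 * (y' ^ 2 - r ^ 2) := by
          refine ⟨4 * r * x' * y' - 2 * r ^ 2 * t - t * y' ^ 2, ?_⟩
          linear_combination hE2
        have h6 : t ∣ y' ^ 2 - r ^ 2 := (hcx't.symm.pow_right).dvd_of_dvd_mul_left h5
        obtain ⟨c, hcc⟩ := h6
        have h7 : IsCoprime t (r ^ 2) := hcrt.symm.pow_right
        have := h7.add_mul_left_right (-c)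
        rw [show r ^ 2 + t * -c = 2 * r ^ 2 - y' ^ 2 by linear_combination hcc] at this
        exact this
      exact hcop1.of_isCoprime_of_dvd_left hctt1
    · have hβ : β = -(2 * (r ^ 2 * (x' ^ 2 + 2 * t ^ 2))) := by
        rw [hrM, hrx] at hP
        rw [hrM] at hY1
        rw [hYe, hrx] at hY1
        linear_combination (-1) * hY1 - hP
      have hK1 : r ^ 2 * (2 * (x' ^ 2 + 2 * t ^ 2) * M1 * N) = k ^ 2 := by
        have : 2 * (r ^ 2 * (2 * (x' ^ 2 + 2 * t ^ 2) * M1 * N)) = 2 * k ^ 2 := by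
          rw [hβ] at hK
          linear_combination (-1) * hK
        linarith
      have hk2 : r ∣ k := (Int.pow_dvd_pow_iff (by norm_num)).mp ⟨_, hK1.symm⟩
      obtain ⟨k1, rfl⟩ := hk2
      have hK2 : 2 * (x' ^ 2 + 2 * t ^ 2) * M1 * N = k1 ^ 2 := by
        have : r ^ 2 * (2 * (x' ^ 2 + 2 * t ^ 2) * M1 * N) = r ^ 2 * k1 ^ 2 := by
          rw [hK1]; ring
        exact mul_left_cancel₀ (pow_ne_zero 2 hrne) this
      have hk1e : Even k1 := by
        have : Even (k1 ^ 2) := by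
          rw [← hK2]
          exact ⟨(x' ^ 2 + 2 * t ^ 2) * M1 * N, by ring⟩
        exact (Int.even_pow.mp this).1
      obtain ⟨k2, rfl⟩ := hk1e
      have hK3 : t1 * ((x' ^ 2 + 2 * t ^ 2) * (r * N)) = k2 ^ 2 := by
        have : 4 * (t1 * ((x' ^ 2 + 2 * t ^ 2) * (r * N))) = 4 * k2 ^ 2 := by
          have e : M1 = r * (2 * t1) := by rw [← ht1]; exact hrM
          rw [e] at hK2
          linear_combination hK2
        linarith
      refine sq_of_isCoprime ?_ hK3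
      have hcop1 : IsCoprime t ((x' ^ 2 + 2 * t ^ 2) * (r * N)) := by
        refine IsCoprime.mul_right ?_ (hcrt.symm.mul_right hctN)
        have h7 : IsCoprime t (x' ^ 2) := hcx't.symm.pow_right
        have := h7.add_mul_left_right (2 * t)
        rw [show x' ^ 2 + t * (2 * t) = x' ^ 2 + 2 * t ^ 2 by ring] at this
        exact this
      exact hcop1.of_isCoprime_of_dvd_left hctt1
  obtain ⟨d, hd⟩ := htsq
  have hWsq : (y' * (x' ^ 2 + t ^ 2) - 2 * r * t * x') ^ 2 =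
      r ^ 2 * (x' ^ 4 + 3 * x' ^ 2 * t ^ 2 - 2 * t ^ 4) := by
    linear_combination (x' ^ 2 + t ^ 2) * hE2
  have hWd : r ∣ y' * (x' ^ 2 + t ^ 2) - 2 * r * t * x' := by
    have : r ^ 2 ∣ (y' * (x' ^ 2 + t ^ 2) - 2 * r * t * x') ^ 2 := ⟨_, hWsq⟩
    exact (Int.pow_dvd_pow_iff (by norm_num)).mp this
  obtain ⟨W, hW⟩ := hWd
  have hW2 : x' ^ 4 + 3 * x' ^ 2 * t ^ 2 - 2 * t ^ 4 = W ^ 2 := by
    have : r ^ 2 * (x' ^ 4 + 3 * x' ^ 2 * t ^ 2 - 2 * t ^ 4) = r ^ 2 * W ^ 2 := by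
      rw [← hWsq, hW]; ring
    exact mul_left_cancel₀ (pow_ne_zero 2 hrne) this
  have ht0 : t = 0 := L4 x' t W d hcx't hx'odd ⟨t1, by rw [ht1]; ring⟩ hW2
    (by rcases hd with h | h <;> rw [ht1, h]
        · left; ring
        · right; ring)
  exact htne ht0

theorem quad_main (M N β k : ℤ) (hc : IsCoprime M N) (hk : k ≠ 0)
    (hE : β * (β + M ^ 2 + 2 * N ^ 2) = M ^ 2 * (M ^ 2 - 2 * M * N - N ^ 2))
    (hK : β * M * N = -2 * k ^ 2) : M = N := by
  rcases Int.even_or_odd M with h | h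
  · exact (quad_even M N β k hc h hk hE hK).elim
  · exact quad_odd M N β k hc h hE hK

end Pool.Agent.Helper35.Cuboid
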