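import Pool.Agent.Helper35.CuboidD

namespace Pool.Agent.Helper35.Cuboid

lemma coprime_aux {m n : ℤ} (hc : IsCoprime m n) :
    IsCoprime n (m - n) ∧ IsCoprime n (m ^ 2 - 2 * n ^ 2) ∧ IsCoprime (m - n) (m ^ 2 - 2 * n ^ 2) ∧
    IsCoprime n (m + n) ∧ IsCoprime n (m ^ 4 - 2 * m ^ 3 * n + 2 * m * n ^ 3 - 2 * n ^ 4) ∧
    IsCoprime (m + n) (m ^ 4 - 2 * m ^ 3 * n + 2 * m * n ^ 3 - 2 * n ^ 4) := by
  have h1 : IsCoprime n (m - n) := by
    have := hc.symm.add_mul_left_right (-1)
    rwa [show m + n * -1 = m - n by ring] at this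
  have h2 : IsCoprime n (m + n) := by
    have := hc.symm.add_mul_left_right 1
    rwa [show m + n * 1 = m + n by ring] at this
  refine ⟨h1, ?_, ?_, h2, ?_, ?_⟩
  · have := (hc.symm.pow_right (n := 2)).add_mul_left_right (-2 * n)
    rwa [show m ^ 2 + n * (-2 * n) = m ^ 2 - 2 * n ^ 2 by ring] at this
  · have h3 : IsCoprime (m - n) (-(n ^ 2)) := (IsCoprime.neg_right_iff _ _).mpr h1.symm.pow_right
    have := h3.add_mul_left_right (m + n)
    rwa [show -(n ^ 2) + (m - n) * (m + n) = m ^ 2 - 2 * n ^ 2 by ring] at this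
  · have := (hc.symm.pow_right (n := 4)).add_mul_left_right
      (-2 * m ^ 3 + 2 * m * n ^ 2 - 2 * n ^ 3)
    rwa [show m ^ 4 + n * (-2 * m ^ 3 + 2 * m * n ^ 2 - 2 * n ^ 3)
      = m ^ 4 - 2 * m ^ 3 * n + 2 * m * n ^ 3 - 2 * n ^ 4 by ring] at this
  · have h3 : IsCoprime (m + n) (-(n ^ 4)) := (IsCoprime.neg_right_iff _ _).mpr h2.symm.pow_right
    have := h3.add_mul_left_right (m ^ 3 - 3 * m ^ 2 * n + 3 * m * n ^ 2 - n ^ 3)
    rwa [show -(n ^ 4) + (m + n) * (m ^ 3 - 3 * m ^ 2 * n + 3 * m * n ^ 2 - n ^ 3)
      = m ^ 4 - 2 * m ^ 3 * n + 2 * m * n ^ 3 - 2 * n ^ 4 by ring] at this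

theorem lin_main (m n k l : ℤ) (hc : IsCoprime m n) (hn : 0 < n)
    (h1 : n * (m - n) * (m ^ 2 - 2 * n ^ 2) = 2 * k ^ 2)
    (h2 : n * (m + n) * (m ^ 4 - 2 * m ^ 3 * n + 2 * m * n ^ 3 - 2 * n ^ 4) = -2 * l ^ 2) :
    m = 0 ∨ m = n ∨ m = -n := by
  by_contra hcon
  push Not at hcon
  obtain ⟨hm0, hmn, hmn'⟩ := hcon
  obtain ⟨c1, c2, c3, c4, c5, c6⟩ := coprime_aux hc
  obtain ⟨q, hq⟩ : ∃ q, q = m ^ 4 - 2 * m ^ 3 * n + 2 * m * n ^ 3 - 2 * n ^ 4 := ⟨_, rfl⟩
  rw [← hq] at h2 c5 c6
  obtain ⟨e, he⟩ : ∃ e, e = m ^ 2 - 2 * n ^ 2 := ⟨_, rfl⟩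
  rw [← he] at h1 c2 c3
  rcases Int.even_or_odd n with hne | hno
  · -- n even, m odd
    have hmo : Odd m := odd_of_isCoprime_even hc.symm hne
    obtain ⟨n', hn'⟩ := hne
    rw [← two_mul] at hn'
    have hn'pos : 0 < n' := by linarith
    obtain ⟨jm, hjm⟩ := odd_sq_form hmo
    -- e is a square
    have hc2' : IsCoprime e n' := by rw [hn'] at c2; exact (IsCoprime.of_mul_left_right c2).symm
    have E1 : e * (n' * (m - n)) = k ^ 2 := by
      have : 2 * (e * (n' * (m - n))) = 2 * k ^ 2 := by rw [← h1, hn']; ring
      linarith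
    obtain ⟨B, hB⟩ := sq_of_isCoprime (hc2'.mul_right c3.symm) E1
    have hn2 : n ^ 2 = 4 * n' ^ 2 := by rw [hn']; ring
    have heo : Odd e := by rw [he]; exact (hmo.pow (n := 2)).sub_even (even_two_mul _)
    have hBo : Odd B := by
      have : Odd (B ^ 2) := by
        rcases hB with h | h
        · rw [← h]; exact heo
        · rw [h] at heo; exact odd_neg.mp heo
      exact (Int.odd_pow.mp this).resolve_right (by norm_num)
    obtain ⟨jB, hjB⟩ := odd_sq_form hBo
    have hepos : 0 < e := by
      have hB2 : 0 < B ^ 2 := by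
        have : B ≠ 0 := by rintro rfl; simp at hBo
        positivity
      rcases hB with h | h
      · linarith
      · exfalso; omega
    have hmgt : n < m := by
      have h3 : 0 ≤ e * (n' * (m - n)) := by rw [E1]; positivity
      have h4 : 0 ≤ n' * (m - n) := nonneg_of_mul_nonneg_right h3 hepos
      have h5 : 0 ≤ m - n := nonneg_of_mul_nonneg_right h4 hn'pos
      rcases h5.lt_or_eq with h | h
      · linarith
      · exact absurd (by linarith) hmn
    -- q is a square
    have hc5' : IsCoprime q n' := by rw [hn'] at c5; exact (IsCoprime.of_mul_left_right c5).symm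
    have E2 : q * (-(n' * (m + n))) = l ^ 2 := by
      have : 2 * (q * (-(n' * (m + n)))) = 2 * l ^ 2 := by
        have : 2 * n' * (m + n) * q = -2 * l ^ 2 := by rw [← hn']; exact h2
        linarith
      linarith
    obtain ⟨D, hD⟩ := sq_of_isCoprime ((IsCoprime.neg_right_iff _ _).mpr (hc5'.mul_right c6.symm)) E2
    obtain ⟨j4, hj4⟩ := odd_pow4_form hmo
    have hqmod : ∃ j, q = 4 * j + 1 := by
      refine ⟨4 * j4 - m ^ 3 * n' + 4 * m * n' ^ 3 - 8 * n' ^ 4, ?_⟩
      rw [hq, hn']
      linear_combination hj4
    obtain ⟨jq, hjq⟩ := hqmod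
    have hqo : Odd q := ⟨2 * jq, by rw [hjq]; ring⟩
    have hDo : Odd D := by
      have : Odd (D ^ 2) := by
        rcases hD with h | h
        · rw [← h]; exact hqo
        · rw [h] at hqo; exact odd_neg.mp hqo
      exact (Int.odd_pow.mp this).resolve_right (by norm_num)
    obtain ⟨jD, hjD⟩ := odd_sq_form hDo
    have hqpos : 0 < q := by
      have hB2 : 0 < D ^ 2 := by
        have : D ≠ 0 := by rintro rfl; simp at hDo
        positivity
      rcases hD with h | h
      · linarith
      · exfalso; omega
    have h3 : 0 ≤ q * (-(n' * (m + n))) := by rw [E2]; positivity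
    have h4 : 0 ≤ -(n' * (m + n)) := nonneg_of_mul_nonneg_right h3 hqpos
    have h5 : 0 < n' * (m + n) := by
      have : 0 < m + n := by linarith
      positivity
    linarith
  · obtain ⟨jn, hjn⟩ := odd_sq_form hno
    obtain ⟨jn4, hjn4⟩ := odd_pow4_form hno
    rcases Int.even_or_odd m with hme | hmo
    · -- m even, n odd
      obtain ⟨m', hm'⟩ := hme
      rw [← two_mul] at hm'
      have hm'0 : m' ≠ 0 := by rintro rfl; apply hm0; rw [hm']; ring
      obtain ⟨e', he'⟩ : ∃ e', e' = 2 * m' ^ 2 - n ^ 2 := ⟨_, rfl⟩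
      have hee : e = 2 * e' := by rw [he, he', hm']; ring
      obtain ⟨q', hq'⟩ : ∃ q', q' = 8 * m' ^ 4 - 8 * m' ^ 3 * n + 2 * m' * n ^ 3 - n ^ 4 := ⟨_, rfl⟩
      have hqq : q = 2 * q' := by rw [hq, hq', hm']; ring
      rw [hee] at c2 c3 h1
      rw [hqq] at c5 c6 h2
      have E1 : e' * (n * (m - n)) = k ^ 2 := by linarith
      have E2 : q' * (-(n * (m + n))) = l ^ 2 := by linarith
      have ce1 : IsCoprime e' (n * (m - n)) :=
        (IsCoprime.of_mul_right_right c2).symm.mul_right (IsCoprime.of_mul_right_right c3).symm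
      have cq1 : IsCoprime q' (-(n * (m + n))) :=
        (IsCoprime.neg_right_iff _ _).mpr
        ((IsCoprime.of_mul_right_right c5).symm.mul_right (IsCoprime.of_mul_right_right c6).symm)
      obtain ⟨B, hB⟩ := sq_of_isCoprime ce1 E1
      obtain ⟨D, hD⟩ := sq_of_isCoprime cq1 E2
      have he'o : Odd e' := by
        rw [he']; exact (even_two_mul _).sub_odd (hno.pow)
      have hBo : Odd B := by
        have : Odd (B ^ 2) := by
          rcases hB with h | h
          · rw [← h]; exact he'o
          · rw [h] at he'o; exact odd_neg.mp he'o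
        exact (Int.odd_pow.mp this).resolve_right (by norm_num)
      obtain ⟨jB, hjB⟩ := odd_sq_form hBo
      have hB2 : 0 < B ^ 2 := by
        have : B ≠ 0 := by rintro rfl; simp at hBo
        positivity
      have hq'o : Odd q' := by
        have : Even (8 * m' ^ 4 - 8 * m' ^ 3 * n + 2 * m' * n ^ 3) :=
          ⟨4 * m' ^ 4 - 4 * m' ^ 3 * n + m' * n ^ 3, by ring⟩
        rw [hq']
        exact this.sub_odd hno.pow
      have hDo : Odd D := by
        have : Odd (D ^ 2) := by
          rcases hD with h | h
          · rw [← h]; exact hq'o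
          · rw [h] at hq'o; exact odd_neg.mp hq'o
        exact (Int.odd_pow.mp this).resolve_right (by norm_num)
      obtain ⟨jD, hjD⟩ := odd_sq_form hDo
      have hD2 : 0 < D ^ 2 := by
        have : D ≠ 0 := by rintro rfl; simp at hDo
        positivity
      rcases Int.even_or_odd m' with hm'e | hm'o
      · -- m ≡ 0 mod 4
        obtain ⟨m'', hm''⟩ := hm'e
        have hm'2 : m' ^ 2 = 4 * m'' ^ 2 := by rw [hm'']; ring
        have heB : e' = -B ^ 2 := by
          rcases hB with h | h
          · exfalso; omega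
          · exact h
        have hqD : q' = -D ^ 2 := by
          rcases hD with h | h
          · exfalso
            have : ∃ j, q' = 4 * j - 1 := by
              refine ⟨2 * m' ^ 4 - 2 * m' ^ 3 * n + m'' * n ^ 3 - 4 * jn4, ?_⟩
              rw [hq', hm'']
              linear_combination (-1) * hjn4
            obtain ⟨j, hj⟩ := this
            omega
          · exact h
        have hmlt : m - n < 0 := by
          have h3 : 0 ≤ B ^ 2 * (-(n * (m - n))) := by
            have : B ^ 2 * (-(n * (m - n))) = k ^ 2 := by rw [← E1, heB]; ring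
            rw [this]; positivity
          have h4 : 0 ≤ -(n * (m - n)) := nonneg_of_mul_nonneg_right h3 hB2
          have h5 : 0 ≤ n * (-(m - n)) := by linarith
          have h6 : 0 ≤ -(m - n) := nonneg_of_mul_nonneg_right h5 hn
          rcases h6.lt_or_eq with h | h
          · linarith
          · exact absurd (by linarith) hmn
        have hmgt : 0 < m + n := by
          have h3 : 0 ≤ D ^ 2 * (n * (m + n)) := by
            have : D ^ 2 * (n * (m + n)) = l ^ 2 := by rw [← E2, hqD]; ring
            rw [this]; positivity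
          have h4 : 0 ≤ n * (m + n) := nonneg_of_mul_nonneg_right h3 hD2
          have h6 : 0 ≤ m + n := nonneg_of_mul_nonneg_right h4 hn
          rcases h6.lt_or_eq with h | h
          · exact h
          · exact absurd (by linarith) hmn'
        -- m - n = - A^2, m + n = C^2
        obtain ⟨A, hA⟩ : ∃ A, m - n = A ^ 2 ∨ m - n = -A ^ 2 := by
          refine sq_of_isCoprime (b := n * e') (c := k) ?_ (by rw [← E1]; ring)
          exact c1.symm.mul_right (IsCoprime.of_mul_right_right c3)
        obtain ⟨C, hC⟩ : ∃ C, m + n = C ^ 2 ∨ m + n = -C ^ 2 := by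
          refine sq_of_isCoprime (b := -(n * q')) (c := l) ?_ (by rw [← E2]; ring)
          exact (IsCoprime.neg_right_iff _ _).mpr
            (c4.symm.mul_right (IsCoprime.of_mul_right_right c6))
        have hA' : m - n = -A ^ 2 := by
          rcases hA with h | h
          · exfalso
            have : 0 ≤ A ^ 2 := by positivity
            linarith
          · exact h
        have hC' : m + n = C ^ 2 := by
          rcases hC with h | h
          · exact h
          · exfalso
            have : 0 ≤ C ^ 2 := by positivity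
            linarith
        have F1 : B ^ 2 = n ^ 2 - 2 * m' ^ 2 := by linarith
        have F2 : (A * C) ^ 2 = n ^ 2 - 4 * m' ^ 2 := by
          have : (A * C) ^ 2 = (-(m - n)) * (m + n) := by rw [hA', hC']; ring
          rw [this, hm']; ring
        have hcB : IsCoprime B m' := by
          have h3 : IsCoprime m' (n ^ 2) := by
            rw [hm'] at hc
            exact (IsCoprime.of_mul_left_right hc).pow_right
          have h4 := h3.add_mul_left_right (-2 * m')
          rw [show n ^ 2 + m' * (-2 * m') = B ^ 2 by rw [F1]; ring] at h4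
          exact ((IsCoprime.pow_right_iff (by norm_num)).mp h4).symm
        exact hm'0 (L0a B m' (A * C) n hcB (by rw [F1, F2]; ring) (by rw [F1]; ring))
      · -- m ≡ 2 mod 4 : sign contradiction
        obtain ⟨jm', hjm'⟩ := odd_sq_form hm'o
        have heB : e' = B ^ 2 := by
          rcases hB with h | h
          · exact h
          · exfalso; omega
        have hqD : q' = D ^ 2 := by
          rcases hD with h | h
          · exact h
          · exfalso
            have : ∃ j, q' = 4 * j + 1 := by
              have ho : Odd (m' * n ^ 3) := hm'o.mul hno.pow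
              obtain ⟨i, hi⟩ := ho
              refine ⟨2 * m' ^ 4 - 2 * m' ^ 3 * n + i - 4 * jn4, ?_⟩
              rw [hq']
              linear_combination 2 * hi - hjn4
            obtain ⟨j, hj⟩ := this
            omega
        have hmgt : n < m := by
          have h3 : 0 ≤ B ^ 2 * (n * (m - n)) := by
            have : B ^ 2 * (n * (m - n)) = k ^ 2 := by rw [← E1, heB]
            rw [this]; positivity
          have h4 : 0 ≤ n * (m - n) := nonneg_of_mul_nonneg_right h3 hB2
          have h6 : 0 ≤ m - n := nonneg_of_mul_nonneg_right h4 hn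
          rcases h6.lt_or_eq with h | h
          · linarith
          · exact absurd (by linarith) hmn
        have h3 : 0 ≤ D ^ 2 * (-(n * (m + n))) := by
          have : D ^ 2 * (-(n * (m + n))) = l ^ 2 := by rw [← E2, hqD]
          rw [this]; positivity
        have h4 : 0 ≤ -(n * (m + n)) := nonneg_of_mul_nonneg_right h3 hD2
        have h5 : 0 < n * (m + n) := by
          have : 0 < m + n := by linarith
          positivity
        linarith
    · -- both odd
      obtain ⟨jm, hjm⟩ := odd_sq_form hmo
      obtain ⟨jm4, hjm4⟩ := odd_pow4_form hmo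
      obtain ⟨e1, he1⟩ : ∃ e1, m - n = 2 * e1 := by
        obtain ⟨x, hx⟩ := hmo.sub_odd hno
        exact ⟨x, by linarith⟩
      obtain ⟨e2, he2⟩ : ∃ e2, m + n = 2 * e2 := by
        obtain ⟨x, hx⟩ := hmo.add_odd hno
        exact ⟨x, by linarith⟩
      rw [he1] at c1 c3 h1
      rw [he2] at c4 c6 h2
      have E1 : e * (n * e1) = k ^ 2 := by linarith
      have E2 : q * (-(n * e2)) = l ^ 2 := by linarith
      have ce : IsCoprime e (n * e1) := c2.symm.mul_right (IsCoprime.of_mul_left_right c3).symm
      have cq : IsCoprime q (-(n * e2)) :=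
        (IsCoprime.neg_right_iff _ _).mpr (c5.symm.mul_right (IsCoprime.of_mul_left_right c6).symm)
      obtain ⟨B, hB⟩ := sq_of_isCoprime ce E1
      obtain ⟨D, hD⟩ := sq_of_isCoprime cq E2
      have heo : Odd e := by rw [he]; exact (hmo.pow (n := 2)).sub_even (even_two_mul _)
      have hBo : Odd B := by
        have : Odd (B ^ 2) := by
          rcases hB with h | h
          · rw [← h]; exact heo
          · rw [h] at heo; exact odd_neg.mp heo
        exact (Int.odd_pow.mp this).resolve_right (by norm_num)
      obtain ⟨jB, hjB⟩ := odd_sq_form hBo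
      have hB2 : 0 < B ^ 2 := by
        have : B ≠ 0 := by rintro rfl; simp at hBo
        positivity
      have hqmod : ∃ j, q = 8 * j - 1 := by
        -- m^4 - 2 m n (m^2 - n^2) - 2 n^4
        refine ⟨2 * jm4 - 2 * m * n * (jm - jn) - 4 * jn4, ?_⟩
        rw [hq]
        linear_combination hjm4 - 2 * m * n * (hjm - hjn) - 2 * hjn4
      obtain ⟨jq, hjq⟩ := hqmod
      have hqo : Odd q := ⟨4 * jq - 1, by rw [hjq]; ring⟩
      have hDo : Odd D := by
        have : Odd (D ^ 2) := by
          rcases hD with h | h
          · rw [← h]; exact hqo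
          · rw [h] at hqo; exact odd_neg.mp hqo
        exact (Int.odd_pow.mp this).resolve_right (by norm_num)
      obtain ⟨jD, hjD⟩ := odd_sq_form hDo
      have hD2 : 0 < D ^ 2 := by
        have : D ≠ 0 := by rintro rfl; simp at hDo
        positivity
      have heB : e = -B ^ 2 := by
        rcases hB with h | h
        · exfalso; omega
        · exact h
      have hqD : q = -D ^ 2 := by
        rcases hD with h | h
        · exfalso; omega
        · exact h
      have he1neg : e1 < 0 := by
        have h3 : 0 ≤ B ^ 2 * (-(n * e1)) := by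
          have : B ^ 2 * (-(n * e1)) = k ^ 2 := by rw [← E1, heB]; ring
          rw [this]; positivity
        have h4 : 0 ≤ -(n * e1) := nonneg_of_mul_nonneg_right h3 hB2
        have h5 : 0 ≤ n * (-e1) := by linarith
        have h6 : 0 ≤ -e1 := nonneg_of_mul_nonneg_right h5 hn
        rcases h6.lt_or_eq with h | h
        · linarith
        · exact absurd (by linarith) hmn
      have he2pos : 0 < e2 := by
        have h3 : 0 ≤ D ^ 2 * (n * e2) := by
          have : D ^ 2 * (n * e2) = l ^ 2 := by rw [← E2, hqD]; ring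
          rw [this]; positivity
        have h4 : 0 ≤ n * e2 := nonneg_of_mul_nonneg_right h3 hD2
        have h6 : 0 ≤ e2 := nonneg_of_mul_nonneg_right h4 hn
        rcases h6.lt_or_eq with h | h
        · exact h
        · exact absurd (by linarith) hmn'
      obtain ⟨A, hA⟩ : ∃ A, e1 = A ^ 2 ∨ e1 = -A ^ 2 := by
        refine sq_of_isCoprime (b := n * e) (c := k) ?_ (by rw [← E1]; ring)
        exact (IsCoprime.of_mul_right_right c1).symm.mul_right (IsCoprime.of_mul_left_right c3)
      obtain ⟨C, hC⟩ : ∃ C, e2 = C ^ 2 ∨ e2 = -C ^ 2 := by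
        refine sq_of_isCoprime (b := -(n * q)) (c := l) ?_ (by rw [← E2]; ring)
        exact (IsCoprime.neg_right_iff _ _).mpr
          ((IsCoprime.of_mul_right_right c4).symm.mul_right (IsCoprime.of_mul_left_right c6))
      have hA' : e1 = -A ^ 2 := by
        rcases hA with h | h
        · exfalso
          have : 0 ≤ A ^ 2 := by positivity
          linarith
        · exact h
      have hC' : e2 = C ^ 2 := by
        rcases hC with h | h
        · exact h
        · exfalso
          have : 0 ≤ C ^ 2 := by positivity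
          linarith
      have hAne : A ≠ 0 := by rintro rfl; simp at hA'; omega
      have hCne : C ≠ 0 := by rintro rfl; simp at hC'; omega
      have F1 : (2 * (A * C)) ^ 2 = n ^ 2 - m ^ 2 := by
        have : (2 * (A * C)) ^ 2 = (-(2 * e1)) * (2 * e2) := by rw [hA', hC']; ring
        rw [this, ← he1, ← he2]; ring
      have hcn : IsCoprime n (2 * (A * C)) := by
        have h3 : IsCoprime n (-(m ^ 2)) := (IsCoprime.neg_right_iff _ _).mpr hc.symm.pow_right
        have h4 := h3.add_mul_left_right n
        rw [show -(m ^ 2) + n * n = (2 * (A * C)) ^ 2 by rw [F1]; ring] at h4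
        exact (IsCoprime.pow_right_iff (by norm_num)).mp h4
      have := L0b n (2 * (A * C)) m B hcn (by rw [F1]; ring) (by rw [F1]; linarith)
      have h7 : A * C ≠ 0 := mul_ne_zero hAne hCne
      omega

end Pool.Agent.Helper35.Cuboid
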