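import Pool.Agent.Helper35.CuboidE

namespace Pool.Agent.Helper35.Cuboid

lemma rat_sq_int (q : ℚ) (T : ℤ) (h : q ^ 2 = T) : ∃ k : ℤ, q = k := by
  have hd : q.den = 1 := by
    have h1 : (q ^ 2).den = 1 := by rw [h]; exact Rat.den_intCast T
    rw [Rat.den_pow] at h1
    have := q.den_pos
    nlinarith
  exact ⟨q.num, by rw [← Rat.num_div_den q, hd]; simp⟩

lemma rat_two_sq_int (q : ℚ) (T : ℤ) (h : 2 * q ^ 2 = T) : ∃ k : ℤ, q = k := by
  obtain ⟨j, hj⟩ := rat_sq_int (2 * q) (2 * T) (by push_cast; rw [← h]; ring)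
  have h1 : j ^ 2 = 2 * T := by
    have : ((j : ℚ)) ^ 2 = 2 * T := by rw [← hj, ← h]; ring
    exact_mod_cast this
  have h2 : Even j := by
    have : Even (j ^ 2) := by rw [h1]; exact even_two_mul _
    exact (Int.even_pow.mp this).1
  obtain ⟨k, hk⟩ := h2
  refine ⟨k, ?_⟩
  rw [hk] at hj
  push_cast at hj
  linarith

theorem rat_lin (s p : ℚ) (hs : s ≠ 0) (hp : p ≠ 0) (hps : p ^ 2 + s ^ 2 = 1) (u : ℚ)
    (hu : u ^ 2 * (u - 1) * (u ^ 2 - 2) = 2 * s ^ 2) : False := by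
  have hune : u ≠ 0 := by
    rintro rfl
    apply hs
    have : s ^ 2 = 0 := by linarith
    simpa using this
  obtain ⟨m, hm⟩ : ∃ m : ℤ, m = u.num := ⟨_, rfl⟩
  obtain ⟨n, hn⟩ : ∃ n : ℤ, n = (u.den : ℤ) := ⟨_, rfl⟩
  have hnpos : 0 < n := by rw [hn]; exact_mod_cast u.den_pos
  have hc : IsCoprime m n := by
    rw [hm, hn, Int.isCoprime_iff_gcd_eq_one]
    exact u.reduced
  have hnq : (n : ℚ) ≠ 0 := by exact_mod_cast hnpos.ne'
  have hunm : u * n = m := by
    rw [hm, hn]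
    exact_mod_cast Rat.mul_den_eq_num u
  have hmeq : (m : ℚ) = u * n := hunm.symm
  -- first
  obtain ⟨k, hk⟩ := rat_two_sq_int (s * n ^ 2 / u) (n * (m - n) * (m ^ 2 - 2 * n ^ 2)) (by
    push_cast
    rw [hmeq]
    have : 2 * (s * n ^ 2 / u) ^ 2 = (2 * s ^ 2) * n ^ 4 / u ^ 2 := by
      field_simp
    rw [this, ← hu]
    field_simp)
  obtain ⟨l, hl⟩ := rat_two_sq_int (n ^ 3 * p)
    (-(n * (m + n) * (m ^ 4 - 2 * m ^ 3 * n + 2 * m * n ^ 3 - 2 * n ^ 4))) (by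
    push_cast
    rw [hmeq]
    have e1 : 2 * p ^ 2 = -((u + 1) * (u ^ 4 - 2 * u ^ 3 + 2 * u - 2)) := by
      linear_combination 2 * hps + hu
    linear_combination (n : ℚ) ^ 6 * e1)
  have h1 : n * (m - n) * (m ^ 2 - 2 * n ^ 2) = 2 * k ^ 2 := by
    have : (n : ℚ) * (m - n) * (m ^ 2 - 2 * n ^ 2) = 2 * k ^ 2 := by
      rw [← hk, hmeq]
      have : 2 * (s * n ^ 2 / u) ^ 2 = (2 * s ^ 2) * n ^ 4 / u ^ 2 := by
        field_simp
      rw [this, ← hu]
      field_simp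
    exact_mod_cast this
  have h2 : n * (m + n) * (m ^ 4 - 2 * m ^ 3 * n + 2 * m * n ^ 3 - 2 * n ^ 4) = -2 * l ^ 2 := by
    have : (n : ℚ) * (m + n) * (m ^ 4 - 2 * m ^ 3 * n + 2 * m * n ^ 3 - 2 * n ^ 4)
        = -2 * l ^ 2 := by
      rw [← hl, hmeq]
      have e1 : 2 * p ^ 2 = -((u + 1) * (u ^ 4 - 2 * u ^ 3 + 2 * u - 2)) := by
        linear_combination 2 * hps + hu
      linear_combination (n : ℚ) ^ 6 * e1
    exact_mod_cast this
  rcases lin_main m n k l hc hnpos h1 h2 with h | h | h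
  · rw [h] at hmeq
    push_cast at hmeq
    rcases mul_eq_zero.mp hmeq.symm with h | h
    · exact hune h
    · exact hnq h
  · rw [h] at hmeq
    have : u = 1 := by
      have : (u - 1) * n = 0 := by linarith
      rcases mul_eq_zero.mp this with h | h
      · linarith
      · exact absurd h hnq
    rw [this] at hu
    apply hs
    have : s ^ 2 = 0 := by linarith
    simpa using this
  · rw [h] at hmeq
    push_cast at hmeq
    have : u = -1 := by
      have : (u + 1) * n = 0 := by linarith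
      rcases mul_eq_zero.mp this with h | h
      · linarith
      · exact absurd h hnq
    rw [this] at hu
    apply hp
    have : p ^ 2 = 0 := by linarith
    simpa using this

/-- rational form of the key lemma for quadratic factors -/
theorem rat_quad_aux (s e f b : ℚ) (hs : s ≠ 0) (hf : f ≠ 0) (he : e ≠ 0)
    (hb : b = e ^ 2 - e - 2 - f)
    (hE : b * (b + e ^ 2 + 2) = e ^ 2 * (e ^ 2 - 2 * e - 1))
    (hK : e * (2 * s ^ 2) = -(f ^ 2 * b)) : False := by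
  obtain ⟨M, hM⟩ : ∃ m : ℤ, m = e.num := ⟨_, rfl⟩
  obtain ⟨N, hN⟩ : ∃ n : ℤ, n = (e.den : ℤ) := ⟨_, rfl⟩
  have hNpos : 0 < N := by rw [hN]; exact_mod_cast e.den_pos
  have hc : IsCoprime M N := by
    rw [hM, hN, Int.isCoprime_iff_gcd_eq_one]
    exact e.reduced
  have hNq : (N : ℚ) ≠ 0 := by exact_mod_cast hNpos.ne'
  have hMe : (M : ℚ) = e * N := by
    rw [hM, hN]
    exact_mod_cast (Rat.mul_den_eq_num e).symm
  -- 2 β + S
  obtain ⟨j, hj⟩ := rat_sq_int (2 * (b * N ^ 2) + (M ^ 2 + 2 * N ^ 2))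
    ((M ^ 2 + 2 * N ^ 2) ^ 2 + 4 * (M ^ 2 * (M ^ 2 - 2 * M * N - N ^ 2))) (by
      push_cast
      rw [hMe]
      linear_combination (4 * (N : ℚ) ^ 4) * hE)
  have hj2 : j ^ 2 = (M ^ 2 + 2 * N ^ 2) ^ 2 + 4 * (M ^ 2 * (M ^ 2 - 2 * M * N - N ^ 2)) := by
    have : (j : ℚ) ^ 2 = (M ^ 2 + 2 * N ^ 2) ^ 2 + 4 * (M ^ 2 * (M ^ 2 - 2 * M * N - N ^ 2)) := by
      rw [← hj, hMe]
      linear_combination (4 * (N : ℚ) ^ 4) * hE
    exact_mod_cast this
  have hpar : Even (j - (M ^ 2 + 2 * N ^ 2)) := by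
    have h3 : Even ((j - (M ^ 2 + 2 * N ^ 2)) * (j + (M ^ 2 + 2 * N ^ 2))) :=
      ⟨2 * (M ^ 2 * (M ^ 2 - 2 * M * N - N ^ 2)), by linear_combination hj2⟩
    rcases Int.even_mul.mp h3 with h | h
    · exact h
    · have : j - (M ^ 2 + 2 * N ^ 2) = j + (M ^ 2 + 2 * N ^ 2) - 2 * (M ^ 2 + 2 * N ^ 2) := by ring
      rw [this]
      exact h.sub (even_two_mul _)
  obtain ⟨β, hβ⟩ := hpar
  have hβb : (β : ℚ) = b * N ^ 2 := by
    have h1 : (j : ℚ) - (M ^ 2 + 2 * N ^ 2) = β + β := by exact_mod_cast hβ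
    rw [← hj] at h1
    linarith
  have hE' : β * (β + M ^ 2 + 2 * N ^ 2) = M ^ 2 * (M ^ 2 - 2 * M * N - N ^ 2) := by
    have : (β : ℚ) * (β + M ^ 2 + 2 * N ^ 2) = M ^ 2 * (M ^ 2 - 2 * M * N - N ^ 2) := by
      rw [hβb, hMe]
      linear_combination ((N : ℚ) ^ 4) * hE
    exact_mod_cast this
  have hkey : 2 * (s * e * N ^ 2 / f) ^ 2 = -((β : ℚ) * M * N) := by
    have h1 : 2 * (s * e * N ^ 2 / f) ^ 2 = (e * (2 * s ^ 2)) * (e * N ^ 4) / f ^ 2 := by
      field_simp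
    rw [h1, hK, hβb, hMe]
    field_simp
  obtain ⟨k, hk⟩ := rat_two_sq_int (s * e * N ^ 2 / f) (-(β * M * N)) (by
    push_cast
    exact hkey)
  have hkne : k ≠ 0 := by
    rintro rfl
    have h1 : s * e * N ^ 2 / f ≠ 0 := by positivity
    rw [hk] at h1
    simp at h1
  have hK' : β * M * N = -2 * k ^ 2 := by
    have : (β : ℚ) * M * N = -2 * k ^ 2 := by
      rw [← hk]; linarith
    exact_mod_cast this
  have hMN := quad_main M N β k hc hkne hE' hK'
  -- M = N = 1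
  have hN1 : N = 1 := by
    rw [hMN] at hc
    rcases Int.isUnit_iff.mp (isCoprime_self.mp hc) with h | h
    · exact h
    · omega
  rw [hMN, hN1] at hE' hK' hMe
  have he1 : e = 1 := by
    push_cast at hMe
    linarith
  have h4 : (β + 1) * (β + 2) = 0 := by linarith
  have h5 : β = -2 := by
    rcases mul_eq_zero.mp h4 with h | h
    · exfalso; omega
    · omega
  apply hf
  rw [hN1] at hβb
  rw [h5] at hβb
  push_cast at hβb
  have : b = -2 := by linarith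
  rw [this, he1] at hb
  linarith

theorem NT (s p : ℚ) (hs : s ≠ 0) (hp : p ≠ 0) (hps : p ^ 2 + s ^ 2 = 1) (u : ℂ) (e f : ℚ)
    (hu : u ^ 2 * (u - 1) * (u ^ 2 - 2) = 2 * (s : ℂ) ^ 2) (hef : u ^ 2 = e * u - f) : False := by
  by_cases hrat : ∃ q : ℚ, u = q
  · obtain ⟨q, rfl⟩ := hrat
    refine rat_lin s p hs hp hps q ?_
    exact_mod_cast hu
  · obtain ⟨R1, hR1⟩ : ∃ R1 : ℚ, R1 = e ^ 4 - 3 * e ^ 2 * f + f ^ 2 - (e ^ 3 - 2 * e * f)
        - 2 * (e ^ 2 - f) + 2 * e := ⟨_, rfl⟩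
    obtain ⟨R0, hR0⟩ : ∃ R0 : ℚ, R0 = f * (-(e ^ 3 - 2 * e * f) + (e ^ 2 - f) + 2 * e - 2)
        - 2 * s ^ 2 := ⟨_, rfl⟩
    have hlin : (R1 : ℂ) * u + R0 = 0 := by
      rw [hR1, hR0]
      push_cast
      -- u^5 - u^4 - 2u^3 + 2u^2 - 2 s^2 reduced modulo u^2 - e u + f
      linear_combination hu - (u ^ 3 + (e - 1) * u ^ 2 + (e * (e - 1) - f - 2) * u
        + (2 + e * (e * (e - 1) - f - 2) - f * (e - 1))) * hef
    have hR1z : R1 = 0 := by
      by_contra hne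
      apply hrat
      refine ⟨-R0 / R1, ?_⟩
      have hne' : (R1 : ℂ) ≠ 0 := by exact_mod_cast hne
      push_cast
      field_simp
      linear_combination hlin
    have hR0z : R0 = 0 := by
      rw [hR1z] at hlin
      push_cast at hlin
      rw [zero_mul, zero_add] at hlin
      exact_mod_cast hlin
    rw [hR1z] at hR1
    rw [hR0z] at hR0
    have hs2 : 2 * s ^ 2 ≠ 0 := by positivity
    have hf : f ≠ 0 := by
      rintro rfl
      apply hs2
      linarith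
    obtain ⟨b, hb⟩ : ∃ b, b = e ^ 2 - e - 2 - f := ⟨_, rfl⟩
    have hE : b * (b + e ^ 2 + 2) = e ^ 2 * (e ^ 2 - 2 * e - 1) := by
      rw [hb]; linear_combination (-1) * hR1
    have hK : e * (2 * s ^ 2) = -(f ^ 2 * b) := by
      rw [hb]; linear_combination e * hR0 + f * hR1
    have he : e ≠ 0 := by
      rintro rfl
      have h1 : b = 0 := by
        have : f ^ 2 * b = 0 := by linarith
        rcases mul_eq_zero.mp this with h | h
        · exact absurd (by simpa using h) hf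
        · exact h
      have h2 : f = -2 := by rw [h1] at hb; linarith
      rw [h2] at hR0
      apply hs2
      linarith
    exact rat_quad_aux s e f b hs hf he hb hE hK

end Pool.Agent.Helper35.Cuboid
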