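import Pool.Agent.Helper35.CuboidF

namespace Pool.Agent.Helper35.Cuboid

open Polynomial

/-- value of the quintic `q(Z)` (with `Q(X) = q(X^2)`), `A = a^2`, `B = b^2`. -/
def qv {K : Type*} [Field K] (A B z : K) : K :=
  z ^ 5 + (2 * B + A) * (3 * B - 2 * A) * z ^ 4
    + (B ^ 4 + 10 * A * B ^ 3 + 4 * A ^ 2 * B ^ 2 - 14 * A ^ 3 * B + A ^ 4) * z ^ 3
    - A * B * (B ^ 4 - 14 * A * B ^ 3 + 4 * A ^ 2 * B ^ 2 + 10 * A ^ 3 * B + A ^ 4) * z ^ 2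
    - A ^ 3 * B ^ 3 * (B + 2 * A) * (-2 * B + 3 * A) * z - A ^ 5 * B ^ 5

lemma qv_identity {K : Type*} [Field K] (A B z : K) :
    (A - B) * qv A B z = (A + B) * (z + A * B) *
      ((z + A ^ 2) * (z + B ^ 2) - 2 * (z + A * B) ^ 2) ^ 2
      - 2 * B * (z + A ^ 2) ^ 3 * (z + B ^ 2) ^ 2 := by
  unfold qv; ring

lemma qv_at_B {K : Type*} [Field K] (A B : K) :
    qv A B (-B ^ 2) = 4 * B ^ 5 * (A + B) * (A - B) ^ 4 := by
  unfold qv; ring

lemma qv_at_A {K : Type*} [Field K] (A B : K) :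
    qv A B (-A ^ 2) = -(4 * A ^ 5 * (A + B) * (A - B) ^ 4) := by
  unfold qv; ring

lemma qv_at_AB {K : Type*} [Field K] (A B : K) :
    qv A B (-(A * B)) = -(2 * A ^ 3 * B ^ 3 * (A - B) ^ 4) := by
  unfold qv; ring

lemma root_u {K : Type*} [Field K] [CharZero K] (A B z : K) (hA : A ≠ 0) (hB : B ≠ 0)
    (hAB : A - B ≠ 0) (hAB' : A + B ≠ 0) (hz : qv A B z = 0) :
    (1 - 2 * (z + A * B) ^ 2 / ((z + A ^ 2) * (z + B ^ 2))) ^ 2 *
      ((1 - 2 * (z + A * B) ^ 2 / ((z + A ^ 2) * (z + B ^ 2))) - 1) *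
      ((1 - 2 * (z + A * B) ^ 2 / ((z + A ^ 2) * (z + B ^ 2))) ^ 2 - 2)
      = 8 * A * B / (A + B) ^ 2 := by
  have h2 : (2 : K) ≠ 0 := two_ne_zero
  have h4 : (4 : K) ≠ 0 := by norm_num
  have n1 : z + A ^ 2 ≠ 0 := by
    intro h
    have : z = -A ^ 2 := by linear_combination h
    rw [this, qv_at_A] at hz
    have : (4 * A ^ 5 * (A + B) * (A - B) ^ 4) ≠ 0 := by
      refine mul_ne_zero (mul_ne_zero (mul_ne_zero h4 (pow_ne_zero _ hA)) hAB') (pow_ne_zero _ hAB)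
    exact this (neg_eq_zero.mp hz)
  have n2 : z + B ^ 2 ≠ 0 := by
    intro h
    have : z = -B ^ 2 := by linear_combination h
    rw [this, qv_at_B] at hz
    have : (4 * B ^ 5 * (A + B) * (A - B) ^ 4) ≠ 0 := by
      refine mul_ne_zero (mul_ne_zero (mul_ne_zero h4 (pow_ne_zero _ hB)) hAB') (pow_ne_zero _ hAB)
    exact this hz
  have n3 : z + A * B ≠ 0 := by
    intro h
    have : z = -(A * B) := by linear_combination h
    rw [this, qv_at_AB] at hz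
    have : (2 * A ^ 3 * B ^ 3 * (A - B) ^ 4) ≠ 0 := by
      refine mul_ne_zero (mul_ne_zero (mul_ne_zero h2 (pow_ne_zero _ hA)) (pow_ne_zero _ hB))
        (pow_ne_zero _ hAB)
    exact this (neg_eq_zero.mp hz)
  have hid := qv_identity A B z
  rw [hz, mul_zero] at hid
  obtain ⟨u, hu⟩ : ∃ u, u = 1 - 2 * (z + A * B) ^ 2 / ((z + A ^ 2) * (z + B ^ 2)) := ⟨_, rfl⟩
  rw [← hu]
  have hD : (z + A ^ 2) * (z + B ^ 2) - 2 * (z + A * B) ^ 2 = u * ((z + A ^ 2) * (z + B ^ 2)) := by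
    rw [hu]; field_simp
  -- u^2
  have hu2 : (A + B) * (z + A * B) * u ^ 2 = 2 * B * (z + A ^ 2) := by
    have h5 : ((z + A ^ 2) * (z + B ^ 2)) ^ 2 * ((A + B) * (z + A * B) * u ^ 2)
        = ((z + A ^ 2) * (z + B ^ 2)) ^ 2 * (2 * B * (z + A ^ 2)) := by
      rw [hD] at hid
      linear_combination (-1) * hid
    exact mul_left_cancel₀ (pow_ne_zero 2 (mul_ne_zero n1 n2)) h5
  have hu22 : (A + B) * (z + A * B) * (u ^ 2 - 2) = -2 * A * (z + B ^ 2) := by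
    linear_combination hu2
  have hu1 : (z + A ^ 2) * (z + B ^ 2) * (u - 1) = -2 * (z + A * B) ^ 2 := by
    linear_combination (-1) * hD
  have hAB2 : (A + B) ^ 2 ≠ 0 := pow_ne_zero 2 hAB'
  rw [eq_div_iff hAB2]
  have h6 : ((z + A * B) ^ 2 * ((z + A ^ 2) * (z + B ^ 2))) *
      (u ^ 2 * (u - 1) * (u ^ 2 - 2) * (A + B) ^ 2)
      = ((z + A * B) ^ 2 * ((z + A ^ 2) * (z + B ^ 2))) * (8 * A * B) := by
    have : ((z + A * B) ^ 2 * ((z + A ^ 2) * (z + B ^ 2))) *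
      (u ^ 2 * (u - 1) * (u ^ 2 - 2) * (A + B) ^ 2)
      = ((A + B) * (z + A * B) * u ^ 2) * ((A + B) * (z + A * B) * (u ^ 2 - 2)) *
        ((z + A ^ 2) * (z + B ^ 2) * (u - 1)) := by ring
    rw [this, hu2, hu22, hu1]
    ring
  exact mul_left_cancel₀ (mul_ne_zero (pow_ne_zero 2 n3) (mul_ne_zero n1 n2)) h6

/-- A complex number of degree at most two over `ℚ` satisfies a quadratic relation. -/
lemma exists_quadratic (u : ℂ) (hi : IsIntegral ℚ u) (h : (minpoly ℚ u).natDegree ≤ 2) :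
    ∃ e f : ℚ, u ^ 2 = e * u - f := by
  have hmon := minpoly.monic hi
  have hpos := minpoly.natDegree_pos hi
  have hae := minpoly.aeval ℚ u
  rw [aeval_eq_sum_range] at hae
  obtain h1 | h2 : (minpoly ℚ u).natDegree = 1 ∨ (minpoly ℚ u).natDegree = 2 := by omega
  · rw [h1] at hae
    have hc : (minpoly ℚ u).coeff 1 = 1 := by
      rw [← h1]; exact hmon.coeff_natDegree
    rw [Finset.sum_range_succ, Finset.sum_range_one, hc] at hae
    simp only [pow_zero, pow_one, Algebra.smul_def, mul_one, map_one, one_mul] at hae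
    refine ⟨-(minpoly ℚ u).coeff 0, 0, ?_⟩
    have : u = -((minpoly ℚ u).coeff 0 : ℂ) := by
      rw [eq_neg_iff_add_eq_zero, add_comm]
      exact hae
    push_cast
    rw [← this]; ring
  · rw [h2] at hae
    have hc : (minpoly ℚ u).coeff 2 = 1 := by
      rw [← h2]; exact hmon.coeff_natDegree
    rw [Finset.sum_range_succ, Finset.sum_range_succ, Finset.sum_range_one, hc] at hae
    simp only [pow_zero, pow_one, Algebra.smul_def, mul_one, map_one, one_mul] at hae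
    refine ⟨-(minpoly ℚ u).coeff 1, (minpoly ℚ u).coeff 0, ?_⟩
    push_cast
    have : ((minpoly ℚ u).coeff 0 : ℂ) + ((minpoly ℚ u).coeff 1 : ℂ) * u + u ^ 2 = 0 := hae
    linear_combination this

open IntermediateField in
theorem no_small (a b : ℕ) (ha : 0 < a) (hb : 0 < b) (hab : a ≠ b) (z : ℂ)
    (hz : qv ((a : ℂ) ^ 2) ((b : ℂ) ^ 2) z = 0) (hi : IsIntegral ℚ z)
    (hdeg : (minpoly ℚ z).natDegree ≤ 2) : False := by
  have haC : (a : ℂ) ≠ 0 := by exact_mod_cast ha.ne'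
  have hbC : (b : ℂ) ≠ 0 := by exact_mod_cast hb.ne'
  have haQ : (0 : ℚ) < a := by exact_mod_cast ha
  have hbQ : (0 : ℚ) < b := by exact_mod_cast hb
  have hsub : (a : ℚ) ^ 2 - (b : ℚ) ^ 2 ≠ 0 := by
    intro h
    have h1 : (a : ℚ) ^ 2 = (b : ℚ) ^ 2 := by linarith
    have h2 : (a : ℚ) = b := (pow_left_inj₀ haQ.le hbQ.le (by norm_num)).mp h1
    exact hab (by exact_mod_cast h2)
  have hsubC : (a : ℂ) ^ 2 - (b : ℂ) ^ 2 ≠ 0 := by exact_mod_cast hsub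
  have hadd : (a : ℚ) ^ 2 + (b : ℚ) ^ 2 ≠ 0 := by positivity
  have haddC : (a : ℂ) ^ 2 + (b : ℂ) ^ 2 ≠ 0 := by exact_mod_cast hadd
  have hroot := root_u ((a : ℂ) ^ 2) ((b : ℂ) ^ 2) z (pow_ne_zero 2 haC) (pow_ne_zero 2 hbC)
    hsubC haddC hz
  obtain ⟨u, hu⟩ : ∃ u, u = 1 - 2 * (z + (a : ℂ) ^ 2 * (b : ℂ) ^ 2) ^ 2 /
    ((z + ((a : ℂ) ^ 2) ^ 2) * (z + ((b : ℂ) ^ 2) ^ 2)) := ⟨_, rfl⟩
  rw [← hu] at hroot
  -- u lies in ℚ⟮z⟯
  have hzmem : z ∈ ℚ⟮z⟯ := mem_adjoin_simple_self ℚ z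
  have huK : u ∈ ℚ⟮z⟯ := by
    rw [hu]
    have ha' : (a : ℂ) ∈ ℚ⟮z⟯ := _root_.natCast_mem _ a
    have hb' : (b : ℂ) ∈ ℚ⟮z⟯ := _root_.natCast_mem _ b
    have h2' : (2 : ℂ) ∈ ℚ⟮z⟯ := ofNat_mem _ 2
    refine sub_mem (one_mem _) (div_mem (mul_mem h2' (pow_mem (add_mem hzmem
      (mul_mem (pow_mem ha' 2) (pow_mem hb' 2))) 2)) (mul_mem (add_mem hzmem
      (pow_mem (pow_mem ha' 2) 2)) (add_mem hzmem (pow_mem (pow_mem hb' 2) 2))))
  have : FiniteDimensional ℚ ℚ⟮z⟯ := adjoin.finiteDimensional hi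
  have hfin : Module.finrank ℚ ℚ⟮z⟯ ≤ 2 := by
    rw [adjoin.finrank hi]; exact hdeg
  have hmu : (minpoly ℚ u).natDegree ≤ 2 := by
    have h1 := minpoly.natDegree_le (A := ℚ) (⟨u, huK⟩ : ℚ⟮z⟯)
    have h2 : minpoly ℚ (⟨u, huK⟩ : ℚ⟮z⟯) = minpoly ℚ u := by
      rw [← minpoly.algebraMap_eq (B' := ℂ) (algebraMap ℚ⟮z⟯ ℂ).injective]
      rfl
    rw [h2] at h1
    exact h1.trans hfin
  have hiu : IsIntegral ℚ u := by
    have h1 : IsIntegral ℚ (⟨u, huK⟩ : ℚ⟮z⟯) := Algebra.IsIntegral.isIntegral _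
    exact h1.map (ℚ⟮z⟯.val)
  obtain ⟨e, f, hef⟩ := exists_quadratic u hiu hmu
  refine NT (2 * a * b / (a ^ 2 + b ^ 2)) ((a ^ 2 - b ^ 2) / (a ^ 2 + b ^ 2)) ?_ ?_ ?_ u e f ?_ hef
  · positivity
  · exact div_ne_zero hsub hadd
  · field_simp
    ring
  · rw [hroot]
    push_cast
    field_simp
    ring

end Pool.Agent.Helper35.Cuboid
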