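import Pool.Agent.Helper35.CuboidG

namespace Pool.Agent.Helper35.Cuboid

open Polynomial

/-- the quintic as a polynomial over `ℚ` -/
noncomputable def qp (A B : ℚ) : ℚ[X] :=
  X ^ 5 + C ((2 * B + A) * (3 * B - 2 * A)) * X ^ 4
    + C (B ^ 4 + 10 * A * B ^ 3 + 4 * A ^ 2 * B ^ 2 - 14 * A ^ 3 * B + A ^ 4) * X ^ 3
    - C (A * B * (B ^ 4 - 14 * A * B ^ 3 + 4 * A ^ 2 * B ^ 2 + 10 * A ^ 3 * B + A ^ 4)) * X ^ 2
    - C (A ^ 3 * B ^ 3 * (B + 2 * A) * (-2 * B + 3 * A)) * X - C (A ^ 5 * B ^ 5)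

lemma qp_natDegree (A B : ℚ) : (qp A B).natDegree = 5 := by
  unfold qp; compute_degree!

lemma qp_monic (A B : ℚ) : (qp A B).Monic := by
  unfold qp; monicity!

lemma qp_aeval (A B : ℚ) (z : ℂ) : aeval z (qp A B) = qv (A : ℂ) (B : ℂ) z := by
  unfold qp qv
  simp only [map_sub, map_add, map_mul, map_pow, aeval_X, aeval_C]
  simp only [eq_ratCast]
  push_cast
  ring

theorem qp_irreducible (a b : ℕ) (ha : 0 < a) (hb : 0 < b) (hab : a ≠ b) :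
    Irreducible (qp ((a : ℚ) ^ 2) ((b : ℚ) ^ 2)) := by
  rw [(qp_monic _ _).irreducible_iff_natDegree']
  refine ⟨?_, ?_⟩
  · intro h
    have := qp_natDegree ((a : ℚ) ^ 2) ((b : ℚ) ^ 2)
    rw [h] at this
    simp at this
  · intro f g hf hg hfg hmem
    rw [qp_natDegree, Finset.mem_Ioc] at hmem
    obtain ⟨h1, h2⟩ := hmem
    have h3 : g.natDegree ≤ 2 := h2
    have hdeg : g.degree ≠ 0 := by
      intro h
      rw [natDegree_eq_of_degree_eq_some h] at h1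
      exact lt_irrefl _ h1
    obtain ⟨z, hz⟩ := IsAlgClosed.exists_aeval_eq_zero ℂ g hdeg
    have hi : IsIntegral ℚ z := ⟨g, hg, hz⟩
    have hz2 : qv ((a : ℂ) ^ 2) ((b : ℂ) ^ 2) z = 0 := by
      have := qp_aeval ((a : ℚ) ^ 2) ((b : ℚ) ^ 2) z
      rw [← hfg, map_mul, hz, mul_zero] at this
      push_cast at this
      exact this.symm
    refine no_small a b ha hb hab z hz2 hi ?_
    have hdvd : minpoly ℚ z ∣ g := minpoly.dvd ℚ z hz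
    exact (natDegree_le_of_dvd hdvd hg.ne_zero).trans h3

open IntermediateField in
theorem deg_ten (a b : ℕ) (ha : 0 < a) (hb : 0 < b) (hab : a ≠ b) (Q : ℚ[X]) (hQm : Q.Monic)
    (hQd : Q.natDegree = 10)
    (hQ : ∀ x : ℂ, aeval x Q = qv ((a : ℂ) ^ 2) ((b : ℂ) ^ 2) (x ^ 2)) : Irreducible Q := by
  have haR : (0 : ℝ) < a := by exact_mod_cast ha
  have hbR : (0 : ℝ) < b := by exact_mod_cast hb
  have haR2 : (0 : ℝ) < (a : ℝ) ^ 2 := by positivity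
  have hbR2 : (0 : ℝ) < (b : ℝ) ^ 2 := by positivity
  have hsub : (a : ℝ) ^ 2 - (b : ℝ) ^ 2 ≠ 0 := by
    intro h
    have h1 : (a : ℝ) ^ 2 = (b : ℝ) ^ 2 := by linarith
    have h2 : (a : ℝ) = b := (pow_left_inj₀ haR.le hbR.le (by norm_num)).mp h1
    exact hab (by exact_mod_cast h2)
  -- a negative real root of q
  obtain ⟨z0, hz0mem, hz0⟩ : ∃ z0 ∈ Set.Icc (-((b : ℝ) ^ 2) ^ 2) 0,
      qv ((a : ℝ) ^ 2) ((b : ℝ) ^ 2) z0 = 0 := by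
    have hcont : ContinuousOn (fun z : ℝ => qv ((a : ℝ) ^ 2) ((b : ℝ) ^ 2) z)
        (Set.Icc (-((b : ℝ) ^ 2) ^ 2) 0) := by
      apply Continuous.continuousOn
      unfold qv
      fun_prop
    have hle : -((b : ℝ) ^ 2) ^ 2 ≤ 0 := by
      have : 0 ≤ ((b : ℝ) ^ 2) ^ 2 := by positivity
      linarith
    have h0 : qv ((a : ℝ) ^ 2) ((b : ℝ) ^ 2) 0 ≤ 0 := by
      have : qv ((a : ℝ) ^ 2) ((b : ℝ) ^ 2) 0 = -(((a : ℝ) ^ 2) ^ 5 * ((b : ℝ) ^ 2) ^ 5) := by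
        unfold qv; ring
      rw [this]
      have : 0 ≤ ((a : ℝ) ^ 2) ^ 5 * ((b : ℝ) ^ 2) ^ 5 := by positivity
      linarith
    have h1 : 0 ≤ qv ((a : ℝ) ^ 2) ((b : ℝ) ^ 2) (-((b : ℝ) ^ 2) ^ 2) := by
      rw [qv_at_B]
      positivity
    have := intermediate_value_Icc' hle hcont
    exact this ⟨h0, h1⟩
  have hz0ne : z0 ≠ 0 := by
    rintro rfl
    have : qv ((a : ℝ) ^ 2) ((b : ℝ) ^ 2) 0 = -(((a : ℝ) ^ 2) ^ 5 * ((b : ℝ) ^ 2) ^ 5) := by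
      unfold qv; ring
    rw [this] at hz0
    have : 0 < ((a : ℝ) ^ 2) ^ 5 * ((b : ℝ) ^ 2) ^ 5 := by positivity
    linarith
  have hz0neg : z0 < 0 := lt_of_le_of_ne hz0mem.2 hz0ne
  obtain ⟨x0, hx0⟩ : ∃ x0 : ℂ, x0 = (Real.sqrt (-z0) : ℂ) * Complex.I := ⟨_, rfl⟩
  have hx0sq : x0 ^ 2 = (z0 : ℂ) := by
    rw [hx0, mul_pow, Complex.I_sq]
    have : ((Real.sqrt (-z0) : ℝ) : ℂ) ^ 2 = ((-z0 : ℝ) : ℂ) := by
      rw [← Complex.ofReal_pow, Real.sq_sqrt (by linarith)]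
    rw [this]
    push_cast
    ring
  have hx0im : x0.im ≠ 0 := by
    rw [hx0]
    simp only [Complex.mul_im, Complex.ofReal_re, Complex.I_im, mul_one, Complex.ofReal_im,
      Complex.I_re, mul_zero, add_zero]
    exact (Real.sqrt_pos.mpr (by linarith)).ne'
  have hQx0 : aeval x0 Q = 0 := by
    rw [hQ, hx0sq]
    have h1 : (qv ((a : ℂ) ^ 2) ((b : ℂ) ^ 2) (z0 : ℂ)) = ((qv ((a : ℝ) ^ 2) ((b : ℝ) ^ 2) z0 : ℝ) : ℂ) := by
      unfold qv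
      push_cast
      ring
    rw [h1, hz0, Complex.ofReal_zero]
  have hix : IsIntegral ℚ x0 := ⟨Q, hQm, hQx0⟩
  -- minimal polynomial of z0
  have hqz0 : aeval (z0 : ℂ) (qp ((a : ℚ) ^ 2) ((b : ℚ) ^ 2)) = 0 := by
    rw [qp_aeval]
    have h1 : (qv (((a : ℚ) ^ 2 : ℚ) : ℂ) (((b : ℚ) ^ 2 : ℚ) : ℂ) (z0 : ℂ))
      = ((qv ((a : ℝ) ^ 2) ((b : ℝ) ^ 2) z0 : ℝ) : ℂ) := by
      unfold qv
      push_cast
      ring
    rw [h1, hz0, Complex.ofReal_zero]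
  have hiz : IsIntegral ℚ (z0 : ℂ) := ⟨_, qp_monic _ _, hqz0⟩
  have hminz : minpoly ℚ (z0 : ℂ) = qp ((a : ℚ) ^ 2) ((b : ℚ) ^ 2) :=
    (minpoly.eq_of_irreducible_of_monic (qp_irreducible a b ha hb hab) hqz0 (qp_monic _ _)).symm
  have hfinE : Module.finrank ℚ ℚ⟮(z0 : ℂ)⟯ = 5 := by
    rw [adjoin.finrank hiz, hminz, qp_natDegree]
  have hfinF : Module.finrank ℚ ℚ⟮x0⟯ = (minpoly ℚ x0).natDegree := adjoin.finrank hix
  have hle : ℚ⟮(z0 : ℂ)⟯ ≤ ℚ⟮x0⟯ := by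
    rw [adjoin_simple_le_iff, ← hx0sq]
    exact pow_mem (mem_adjoin_simple_self ℚ x0) 2
  have hnot : x0 ∉ ℚ⟮(z0 : ℂ)⟯ := by
    intro hmem
    have hreal : ℚ⟮(z0 : ℂ)⟯ ≤ (Complex.ofRealAm.restrictScalars ℚ).fieldRange := by
      rw [adjoin_simple_le_iff]
      exact ⟨z0, rfl⟩
    obtain ⟨r, hr⟩ := hreal hmem
    apply hx0im
    rw [← hr]
    exact Complex.ofReal_im r
  have hfdF : FiniteDimensional ℚ ℚ⟮x0⟯ := adjoin.finiteDimensional hix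
  have hfdE : FiniteDimensional ℚ ℚ⟮(z0 : ℂ)⟯ := adjoin.finiteDimensional hiz
  have hdvd : 5 ∣ (minpoly ℚ x0).natDegree := by
    rw [← hfinF, ← hfinE]
    exact finrank_dvd_of_le_right hle
  have hne5 : (minpoly ℚ x0).natDegree ≠ 5 := by
    intro h5
    have : ℚ⟮(z0 : ℂ)⟯ = ℚ⟮x0⟯ := by
      apply eq_of_le_of_finrank_eq hle
      rw [hfinE, hfinF, h5]
    apply hnot
    rw [this]
    exact mem_adjoin_simple_self ℚ x0
  have hpos := minpoly.natDegree_pos hix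
  have hdQ : minpoly ℚ x0 ∣ Q := minpoly.dvd ℚ x0 hQx0
  have h10 : 10 ≤ (minpoly ℚ x0).natDegree := by omega
  have : minpoly ℚ x0 = Q :=
    (eq_of_monic_of_dvd_of_natDegree_le (minpoly.monic hix) hQm hdQ (by rw [hQd]; exact h10)).symm
  rw [← this]
  exact minpoly.irreducible hix

end Pool.Agent.Helper35.Cuboid
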