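import Mathlib

open scoped TensorProduct

namespace Pool.Agent.Helper35.Oct

/-- Octahedral norms. -/
def IsOctahedral (Z : Type*) [NormedAddCommGroup Z] [NormedSpace ℝ Z] : Prop :=
  ∀ (E : Submodule ℝ Z), FiniteDimensional ℝ E → ∀ ε : ℝ, 0 < ε →
    ∃ y : Z, ‖y‖ = 1 ∧ ∀ x ∈ E, ∀ c : ℝ, (1 - ε) * (‖x‖ + |c|) ≤ ‖x + c • y‖

section proj

variable (X Y : Type*) [NormedAddCommGroup X] [NormedSpace ℝ X]
  [NormedAddCommGroup Y] [NormedSpace ℝ Y]

/-- The set of all values `∑ ‖x i‖ ‖y i‖` over the representations `u = ∑ x i ⊗ y i`. -/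
def repValues {X Y : Type*} [NormedAddCommGroup X] [NormedSpace ℝ X]
    [NormedAddCommGroup Y] [NormedSpace ℝ Y] (u : X ⊗[ℝ] Y) : Set ℝ :=
  {c : ℝ | ∃ (n : ℕ) (x : Fin n → X) (y : Fin n → Y),
    u = ∑ i, x i ⊗ₜ[ℝ] y i ∧ c = ∑ i, ‖x i‖ * ‖y i‖}

/-- The projective norm of an element of the algebraic tensor product. -/
noncomputable def projNorm {X Y : Type*} [NormedAddCommGroup X] [NormedSpace ℝ X]
    [NormedAddCommGroup Y] [NormedSpace ℝ Y] (u : X ⊗[ℝ] Y) : ℝ :=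
  sInf (repValues u)

variable {X Y}

theorem repValues_nonempty (u : X ⊗[ℝ] Y) : (repValues u).Nonempty := by
  induction u using TensorProduct.induction_on with
  | zero => exact ⟨0, 0, Fin.elim0, Fin.elim0, by simp, by simp⟩
  | tmul x y => exact ⟨‖x‖ * ‖y‖, 1, fun _ => x, fun _ => y, by simp, by simp⟩
  | add u v hu hv =>
    obtain ⟨c, n, x, y, h1, h2⟩ := hu
    obtain ⟨d, m, x', y', h3, h4⟩ := hv
    refine ⟨c + d, n + m, Fin.append x x', Fin.append y y', ?_, ?_⟩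
    · rw [Fin.sum_univ_add, h1, h3]
      simp
    · rw [Fin.sum_univ_add, h2, h4]
      simp

theorem repValues_nonneg {u : X ⊗[ℝ] Y} {c : ℝ} (h : c ∈ repValues u) : 0 ≤ c := by
  obtain ⟨n, x, y, -, h2⟩ := h
  rw [h2]
  exact Finset.sum_nonneg (fun i _ => by positivity)

theorem repValues_bddBelow (u : X ⊗[ℝ] Y) : BddBelow (repValues u) :=
  ⟨0, fun _ h => repValues_nonneg h⟩

theorem projNorm_nonneg (u : X ⊗[ℝ] Y) : 0 ≤ projNorm u :=
  le_csInf (repValues_nonempty u) (fun _ h => repValues_nonneg h)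

theorem projNorm_le_of_mem {u : X ⊗[ℝ] Y} {c : ℝ} (h : c ∈ repValues u) : projNorm u ≤ c :=
  csInf_le (repValues_bddBelow u) h

theorem exists_rep_lt {u : X ⊗[ℝ] Y} {r : ℝ} (h : projNorm u < r) :
    ∃ (n : ℕ) (x : Fin n → X) (y : Fin n → Y),
      u = ∑ i, x i ⊗ₜ[ℝ] y i ∧ ∑ i, ‖x i‖ * ‖y i‖ < r := by
  obtain ⟨c, ⟨n, x, y, h1, h2⟩, hc⟩ := exists_lt_of_csInf_lt (repValues_nonempty u) h
  exact ⟨n, x, y, h1, h2 ▸ hc⟩

theorem projNorm_tmul_le (x : X) (y : Y) : projNorm (x ⊗ₜ[ℝ] y) ≤ ‖x‖ * ‖y‖ :=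
  projNorm_le_of_mem ⟨1, fun _ => x, fun _ => y, by simp, by simp⟩

theorem projNorm_zero : projNorm (0 : X ⊗[ℝ] Y) = 0 := by
  refine le_antisymm ?_ (projNorm_nonneg _)
  exact projNorm_le_of_mem ⟨0, Fin.elim0, Fin.elim0, by simp, by simp⟩

theorem projNorm_add_le (u v : X ⊗[ℝ] Y) : projNorm (u + v) ≤ projNorm u + projNorm v := by
  refine le_of_forall_pos_lt_add (fun ε hε => ?_)
  obtain ⟨n, x, y, h1, h2⟩ := exists_rep_lt (show projNorm u < projNorm u + ε / 2 by linarith)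
  obtain ⟨m, x', y', h3, h4⟩ := exists_rep_lt (show projNorm v < projNorm v + ε / 2 by linarith)
  have : projNorm (u + v) ≤ ∑ i, ‖x i‖ * ‖y i‖ + ∑ i, ‖x' i‖ * ‖y' i‖ := by
    refine projNorm_le_of_mem ⟨n + m, Fin.append x x', Fin.append y y', ?_, ?_⟩
    · rw [Fin.sum_univ_add, h1, h3]
      simp
    · rw [Fin.sum_univ_add]
      simp
  linarith

theorem projNorm_smul_le (c : ℝ) (u : X ⊗[ℝ] Y) : projNorm (c • u) ≤ |c| * projNorm u := by
  rcases eq_or_ne c 0 with rfl | hc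
  · simp [projNorm_zero]
  have hc' : 0 < |c| := abs_pos.mpr hc
  refine le_of_forall_pos_lt_add (fun ε hε => ?_)
  obtain ⟨n, x, y, h1, h2⟩ :=
    exists_rep_lt (show projNorm u < projNorm u + ε / |c| by
      have : 0 < ε / |c| := by positivity
      linarith)
  have h3 : projNorm (c • u) ≤ |c| * ∑ i, ‖x i‖ * ‖y i‖ := by
    refine projNorm_le_of_mem ⟨n, fun i => c • x i, y, ?_, ?_⟩
    · rw [h1, Finset.smul_sum]
      exact Finset.sum_congr rfl (fun i _ => (TensorProduct.smul_tmul' c (x i) (y i)))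
    · rw [Finset.mul_sum]
      exact Finset.sum_congr rfl (fun i _ => by rw [norm_smul, Real.norm_eq_abs]; ring)
  have h4 : |c| * ∑ i, ‖x i‖ * ‖y i‖ < |c| * (projNorm u + ε / |c|) :=
    mul_lt_mul_of_pos_left h2 hc'
  have h5 : |c| * (projNorm u + ε / |c|) = |c| * projNorm u + ε := by
    field_simp
  linarith

theorem projNorm_neg (u : X ⊗[ℝ] Y) : projNorm (-u) = projNorm u := by
  have h : ∀ v : X ⊗[ℝ] Y, projNorm (-v) ≤ projNorm v := fun v => by
    have := projNorm_smul_le (-1) v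
    simpa using this
  refine le_antisymm (h u) ?_
  have := h (-u)
  rwa [neg_neg] at this

/-- Upper bounds through linear maps in the second variable. -/
theorem projNorm_lTensor_le {Y' : Type*} [NormedAddCommGroup Y'] [NormedSpace ℝ Y']
    (g : Y →ₗ[ℝ] Y') (hg : ∀ y, ‖g y‖ ≤ ‖y‖) (u : X ⊗[ℝ] Y) :
    projNorm (g.lTensor X u) ≤ projNorm u := by
  refine le_of_forall_pos_lt_add (fun ε hε => ?_)
  obtain ⟨n, x, y, h1, h2⟩ := exists_rep_lt (show projNorm u < projNorm u + ε by linarith)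
  have h3 : projNorm (g.lTensor X u) ≤ ∑ i, ‖x i‖ * ‖g (y i)‖ := by
    refine projNorm_le_of_mem ⟨n, x, fun i => g (y i), ?_, rfl⟩
    rw [h1, map_sum]
    simp
  have h4 : ∑ i, ‖x i‖ * ‖g (y i)‖ ≤ ∑ i, ‖x i‖ * ‖y i‖ :=
    Finset.sum_le_sum (fun i _ => mul_le_mul_of_nonneg_left (hg _) (norm_nonneg _))
  linarith

/-- Lower bounds through bounded bilinear forms. -/
theorem le_projNorm_of_bilin (B : X →ₗ[ℝ] Y →ₗ[ℝ] ℝ) (hB : ∀ x y, |B x y| ≤ ‖x‖ * ‖y‖)
    (u : X ⊗[ℝ] Y) : TensorProduct.lift B u ≤ projNorm u := by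
  refine le_csInf (repValues_nonempty u) ?_
  rintro c ⟨n, x, y, h1, h2⟩
  rw [h1, h2, map_sum]
  refine Finset.sum_le_sum (fun i _ => ?_)
  rw [TensorProduct.lift.tmul]
  exact (le_abs_self _).trans (hB _ _)

end proj

/-- The algebraic tensor product `X ⊗ Y` carrying the projective norm. -/
def ProjTensor (X Y : Type*) [NormedAddCommGroup X] [NormedSpace ℝ X]
    [NormedAddCommGroup Y] [NormedSpace ℝ Y] : Type _ := X ⊗[ℝ] Y

section inst

variable (X Y : Type*) [NormedAddCommGroup X] [NormedSpace ℝ X]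
  [NormedAddCommGroup Y] [NormedSpace ℝ Y]

noncomputable instance : AddCommGroup (ProjTensor X Y) :=
  inferInstanceAs (AddCommGroup (X ⊗[ℝ] Y))

noncomputable instance : Module ℝ (ProjTensor X Y) :=
  inferInstanceAs (Module ℝ (X ⊗[ℝ] Y))

noncomputable instance : SeminormedAddCommGroup (ProjTensor X Y) :=
  AddGroupSeminorm.toSeminormedAddCommGroup
    { toFun := fun u : ProjTensor X Y => projNorm (X := X) (Y := Y) u
      map_zero' := projNorm_zero
      add_le' := projNorm_add_le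
      neg' := projNorm_neg }

theorem ProjTensor.norm_def (u : ProjTensor X Y) : ‖u‖ = projNorm (X := X) (Y := Y) u := rfl

noncomputable instance : NormedSpace ℝ (ProjTensor X Y) where
  norm_smul_le c u := by
    rw [ProjTensor.norm_def, ProjTensor.norm_def, Real.norm_eq_abs]
    exact projNorm_smul_le c u

/-- The completed projective tensor product. -/
abbrev ProjTensorProduct : Type _ := UniformSpace.Completion (ProjTensor X Y)

end inst

end Pool.Agent.Helper35.Oct
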