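import Pool.Agent.Helper35.OctA

open scoped TensorProduct

namespace Pool.Agent.Helper35.Oct

/-- The three-dimensional space `ℝ³`, to be equipped with a polyhedral norm. -/
def Oct3 : Type := Fin 3 → ℝ

noncomputable instance : AddCommGroup Oct3 := inferInstanceAs (AddCommGroup (Fin 3 → ℝ))
noncomputable instance : Module ℝ Oct3 := inferInstanceAs (Module ℝ (Fin 3 → ℝ))

/-- `‖(a,b,c)‖ = max (s/2) ((s + 2m)/4)` with `s = |a|+|b|+|c|` and `m = max (|a|,|b|,|c|)`. -/
noncomputable def octNorm (y : Fin 3 → ℝ) : ℝ :=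
  max ((|y 0| + |y 1| + |y 2|) / 2)
    ((|y 0| + |y 1| + |y 2| + 2 * max |y 0| (max |y 1| |y 2|)) / 4)

theorem octNorm_le {y : Fin 3 → ℝ} {r : ℝ} (h : (|y 0| + |y 1| + |y 2|) / 2 ≤ r)
    (h0 : (|y 0| + |y 1| + |y 2| + 2 * |y 0|) / 4 ≤ r)
    (h1 : (|y 0| + |y 1| + |y 2| + 2 * |y 1|) / 4 ≤ r)
    (h2 : (|y 0| + |y 1| + |y 2| + 2 * |y 2|) / 4 ≤ r) : octNorm y ≤ r := by
  unfold octNorm
  refine max_le h ?_
  rcases max_choice |y 0| (max |y 1| |y 2|) with h' | h'
  · rw [h']; exact h0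
  · rw [h']
    rcases max_choice |y 1| |y 2| with h'' | h''
    · rw [h'']; exact h1
    · rw [h'']; exact h2

theorem le_octNorm (y : Fin 3 → ℝ) : (|y 0| + |y 1| + |y 2|) / 2 ≤ octNorm y := le_max_left _ _

theorem le_octNorm0 (y : Fin 3 → ℝ) : (|y 0| + |y 1| + |y 2| + 2 * |y 0|) / 4 ≤ octNorm y := by
  refine le_trans ?_ (le_max_right _ _)
  have := le_max_left |y 0| (max |y 1| |y 2|)
  linarith

theorem le_octNorm1 (y : Fin 3 → ℝ) : (|y 0| + |y 1| + |y 2| + 2 * |y 1|) / 4 ≤ octNorm y := by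
  refine le_trans ?_ (le_max_right _ _)
  have := le_max_right |y 0| (max |y 1| |y 2|)
  have := le_max_left |y 1| |y 2|
  linarith

theorem le_octNorm2 (y : Fin 3 → ℝ) : (|y 0| + |y 1| + |y 2| + 2 * |y 2|) / 4 ≤ octNorm y := by
  refine le_trans ?_ (le_max_right _ _)
  have := le_max_right |y 0| (max |y 1| |y 2|)
  have := le_max_right |y 1| |y 2|
  linarith

theorem octNorm_zero : octNorm 0 = 0 := by
  simp [octNorm]

theorem octNorm_smul_le (c : ℝ) (y : Fin 3 → ℝ) : octNorm (c • y) ≤ |c| * octNorm y := by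
  have h := le_octNorm y
  have h0 := le_octNorm0 y
  have h1 := le_octNorm1 y
  have h2 := le_octNorm2 y
  have hc := abs_nonneg c
  apply octNorm_le
  · simp only [Pi.smul_apply, smul_eq_mul, abs_mul]
    nlinarith [mul_le_mul_of_nonneg_left h hc]
  · simp only [Pi.smul_apply, smul_eq_mul, abs_mul]
    nlinarith [mul_le_mul_of_nonneg_left h0 hc]
  · simp only [Pi.smul_apply, smul_eq_mul, abs_mul]
    nlinarith [mul_le_mul_of_nonneg_left h1 hc]
  · simp only [Pi.smul_apply, smul_eq_mul, abs_mul]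
    nlinarith [mul_le_mul_of_nonneg_left h2 hc]

theorem octNorm_neg (y : Fin 3 → ℝ) : octNorm (-y) = octNorm y := by
  simp [octNorm]

theorem octNorm_add_le (x y : Fin 3 → ℝ) : octNorm (x + y) ≤ octNorm x + octNorm y := by
  have h := le_octNorm y
  have h0 := le_octNorm0 y
  have h1 := le_octNorm1 y
  have h2 := le_octNorm2 y
  have k := le_octNorm x
  have k0 := le_octNorm0 x
  have k1 := le_octNorm1 x
  have k2 := le_octNorm2 x
  have a0 := abs_add_le (x 0) (y 0)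
  have a1 := abs_add_le (x 1) (y 1)
  have a2 := abs_add_le (x 2) (y 2)
  apply octNorm_le <;> simp only [Pi.add_apply] <;> linarith

theorem eq_zero_of_octNorm (y : Fin 3 → ℝ) (h : octNorm y = 0) : y = 0 := by
  have h1 := le_octNorm y
  have a0 := abs_nonneg (y 0)
  have a1 := abs_nonneg (y 1)
  have a2 := abs_nonneg (y 2)
  funext i
  fin_cases i
  · exact abs_eq_zero.mp (le_antisymm (by show |y 0| ≤ 0; linarith) (abs_nonneg _))
  · exact abs_eq_zero.mp (le_antisymm (by show |y 1| ≤ 0; linarith) (abs_nonneg _))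
  · exact abs_eq_zero.mp (le_antisymm (by show |y 2| ≤ 0; linarith) (abs_nonneg _))

noncomputable instance : NormedAddCommGroup Oct3 :=
  AddGroupNorm.toNormedAddCommGroup
    { toFun := fun y : Oct3 => octNorm y
      map_zero' := octNorm_zero
      add_le' := octNorm_add_le
      neg' := octNorm_neg
      eq_zero_of_map_eq_zero' := eq_zero_of_octNorm }

theorem Oct3.norm_def (y : Oct3) : ‖y‖ = octNorm y := rfl

noncomputable instance : NormedSpace ℝ Oct3 where
  norm_smul_le c y := by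
    rw [Oct3.norm_def, Oct3.norm_def, Real.norm_eq_abs]
    exact octNorm_smul_le c y

/-- The vector `(a,b,c)` of `Oct3`. -/
noncomputable def vec (a b c : ℝ) : Oct3 := (![a, b, c] : Fin 3 → ℝ)

theorem norm_vec (a b c : ℝ) : ‖vec a b c‖ =
    max ((|a| + |b| + |c|) / 2) ((|a| + |b| + |c| + 2 * max |a| (max |b| |c|)) / 4) := by
  have h : ‖vec a b c‖ = octNorm ![a, b, c] := rfl
  rw [h]
  simp [octNorm]

theorem norm_vec_le {a b c r : ℝ} (h : (|a| + |b| + |c|) / 2 ≤ r)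
    (h0 : (|a| + |b| + |c| + 2 * |a|) / 4 ≤ r)
    (h1 : (|a| + |b| + |c| + 2 * |b|) / 4 ≤ r)
    (h2 : (|a| + |b| + |c| + 2 * |c|) / 4 ≤ r) : ‖vec a b c‖ ≤ r :=
  octNorm_le (y := ![a, b, c]) (by simpa using h) (by simpa using h0) (by simpa using h1)
    (by simpa using h2)

theorem le_norm_vec (a b c : ℝ) : (|a| + |b| + |c|) / 2 ≤ ‖vec a b c‖ := by
  have h : ‖vec a b c‖ = octNorm ![a, b, c] := rfl
  rw [h]
  simpa using le_octNorm (![a, b, c])

theorem le_norm_vec0 (a b c : ℝ) : (|a| + |b| + |c| + 2 * |a|) / 4 ≤ ‖vec a b c‖ := by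
  have h : ‖vec a b c‖ = octNorm ![a, b, c] := rfl
  rw [h]
  simpa using le_octNorm0 (![a, b, c])

theorem le_norm_vec1 (a b c : ℝ) : (|a| + |b| + |c| + 2 * |b|) / 4 ≤ ‖vec a b c‖ := by
  have h : ‖vec a b c‖ = octNorm ![a, b, c] := rfl
  rw [h]
  simpa using le_octNorm1 (![a, b, c])

theorem le_norm_vec2 (a b c : ℝ) : (|a| + |b| + |c| + 2 * |c|) / 4 ≤ ‖vec a b c‖ := by
  have h : ‖vec a b c‖ = octNorm ![a, b, c] := rfl
  rw [h]
  simpa using le_octNorm2 (![a, b, c])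

theorem eq_vec (y : Oct3) : ∃ a b c, y = vec a b c := by
  refine ⟨(y : Fin 3 → ℝ) 0, (y : Fin 3 → ℝ) 1, (y : Fin 3 → ℝ) 2, ?_⟩
  funext i
  fin_cases i <;> rfl

theorem vec_add (a b c a' b' c' : ℝ) : vec a b c + vec a' b' c' = vec (a + a') (b + b') (c + c') := by
  funext i
  fin_cases i <;> rfl

theorem smul_vec (r a b c : ℝ) : r • vec a b c = vec (r * a) (r * b) (r * c) := by
  funext i
  fin_cases i <;> rfl

theorem vec_ext {a b c a' b' c' : ℝ} (h1 : a = a') (h2 : b = b') (h3 : c = c') :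
    vec a b c = vec a' b' c' := by rw [h1, h2, h3]

/-- The nine vertices of the unit ball of `Oct3`, up to sign. -/
noncomputable def vert : Fin 9 → Oct3 :=
  ![vec 1 1 0, vec 1 (-1) 0, vec 1 0 1, vec 1 0 (-1), vec 0 1 1, vec 0 1 (-1),
    vec (4/3) 0 0, vec 0 (4/3) 0, vec 0 0 (4/3)]

theorem norm_vert (i : Fin 9) : ‖vert i‖ ≤ 1 := by
  fin_cases i <;> simp [vert, norm_vec] <;> norm_num

end Pool.Agent.Helper35.Oct
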