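import Pool.Agent.Helper35.OctB

open scoped TensorProduct

namespace Pool.Agent.Helper35.Oct

/-- Decomposition of a vector into vertices: signed version. -/
theorem dec_aux {σ τ ρ : ℝ} (hσ : σ = 1 ∨ σ = -1) (hτ : τ = 1 ∨ τ = -1) (hρ : ρ = 1 ∨ ρ = -1)
    (p q r u v w : ℝ) (hp : 0 ≤ p) (hq : 0 ≤ q) (hr : 0 ≤ r) (hu : 0 ≤ u) (hv : 0 ≤ v)
    (hw : 0 ≤ w) :
    ∃ α : Fin 9 → ℝ, vec (σ * (p + q + 4 / 3 * u)) (τ * (p + r + 4 / 3 * v))
      (ρ * (q + r + 4 / 3 * w)) = ∑ i, α i • vert i ∧ ∑ i, |α i| ≤ p + q + r + u + v + w := by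
  refine ⟨![p * ((σ + τ) / 2), p * ((σ - τ) / 2), q * ((σ + ρ) / 2), q * ((σ - ρ) / 2),
    r * ((τ + ρ) / 2), r * ((τ - ρ) / 2), σ * u, τ * v, ρ * w], ?_, ?_⟩
  · simp only [Fin.sum_univ_succ, vert, Matrix.cons_val_zero, Matrix.cons_val_succ,
      Finset.univ_eq_empty, Finset.sum_empty]
    simp only [smul_vec, vec_add, add_zero]
    apply vec_ext <;> ring
  · simp only [Fin.sum_univ_succ, Matrix.cons_val_zero, Matrix.cons_val_succ,
      Finset.univ_eq_empty, Finset.sum_empty, abs_mul, abs_of_nonneg hp,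
      abs_of_nonneg hq, abs_of_nonneg hr, abs_of_nonneg hu, abs_of_nonneg hv, abs_of_nonneg hw]
    rcases hσ with rfl | rfl <;> rcases hτ with rfl | rfl <;> rcases hρ with rfl | rfl <;>
      norm_num <;> linarith

theorem exists_sign (a : ℝ) : ∃ σ : ℝ, (σ = 1 ∨ σ = -1) ∧ a = σ * |a| := by
  rcases le_total 0 a with h | h
  · exact ⟨1, Or.inl rfl, by rw [abs_of_nonneg h]; ring⟩
  · exact ⟨-1, Or.inr rfl, by rw [abs_of_nonpos h]; ring⟩

/-- Every `y` is a combination of vertices with `∑ |α i| ≤ ‖y‖`. -/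
theorem exists_dec (y : Oct3) :
    ∃ α : Fin 9 → ℝ, y = ∑ i, α i • vert i ∧ ∑ i, |α i| ≤ ‖y‖ := by
  obtain ⟨a, b, c, rfl⟩ := eq_vec y
  obtain ⟨σ, hσ, ha⟩ := exists_sign a
  obtain ⟨τ, hτ, hb⟩ := exists_sign b
  obtain ⟨ρ, hρ, hc⟩ := exists_sign c
  have n := le_norm_vec a b c
  have n0 := le_norm_vec0 a b c
  have n1 := le_norm_vec1 a b c
  have n2 := le_norm_vec2 a b c
  have pa := abs_nonneg a
  have pb := abs_nonneg b
  have pc := abs_nonneg c
  rcases lt_or_ge (|b| + |c|) |a| with h0 | h0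
  · obtain ⟨α, h1, h2⟩ := dec_aux hσ hτ hρ |b| |c| 0 (3 / 4 * (|a| - |b| - |c|)) 0 0 pb pc
      le_rfl (by linarith) le_rfl le_rfl
    refine ⟨α, ?_, by linarith⟩
    rw [← h1]
    apply vec_ext
    · rw [show |b| + |c| + 4 / 3 * (3 / 4 * (|a| - |b| - |c|)) = |a| by ring]; exact ha
    · rw [show |b| + 0 + 4 / 3 * 0 = |b| by ring]; exact hb
    · rw [show |c| + 0 + 4 / 3 * 0 = |c| by ring]; exact hc
  rcases lt_or_ge (|a| + |c|) |b| with h3 | h3
  · obtain ⟨α, h1, h2⟩ := dec_aux hσ hτ hρ |a| 0 |c| 0 (3 / 4 * (|b| - |a| - |c|)) 0 pa le_rfl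
      pc le_rfl (by linarith) le_rfl
    refine ⟨α, ?_, by linarith⟩
    rw [← h1]
    apply vec_ext
    · rw [show |a| + 0 + 4 / 3 * 0 = |a| by ring]; exact ha
    · rw [show |a| + |c| + 4 / 3 * (3 / 4 * (|b| - |a| - |c|)) = |b| by ring]; exact hb
    · rw [show 0 + |c| + 4 / 3 * 0 = |c| by ring]; exact hc
  rcases lt_or_ge (|a| + |b|) |c| with h4 | h4
  · obtain ⟨α, h1, h2⟩ := dec_aux hσ hτ hρ 0 |a| |b| 0 0 (3 / 4 * (|c| - |a| - |b|)) le_rfl pa
      pb le_rfl le_rfl (by linarith)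
    refine ⟨α, ?_, by linarith⟩
    rw [← h1]
    apply vec_ext
    · rw [show 0 + |a| + 4 / 3 * 0 = |a| by ring]; exact ha
    · rw [show 0 + |b| + 4 / 3 * 0 = |b| by ring]; exact hb
    · rw [show |a| + |b| + 4 / 3 * (3 / 4 * (|c| - |a| - |b|)) = |c| by ring]; exact hc
  · obtain ⟨α, h1, h2⟩ := dec_aux hσ hτ hρ ((|a| + |b| - |c|) / 2) ((|a| + |c| - |b|) / 2)
      ((|b| + |c| - |a|) / 2) 0 0 0 (by linarith) (by linarith) (by linarith) le_rfl le_rfl le_rfl
    refine ⟨α, ?_, by linarith⟩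
    rw [← h1]
    apply vec_ext
    · rw [show (|a| + |b| - |c|) / 2 + (|a| + |c| - |b|) / 2 + 4 / 3 * 0 = |a| by ring]; exact ha
    · rw [show (|a| + |b| - |c|) / 2 + (|b| + |c| - |a|) / 2 + 4 / 3 * 0 = |b| by ring]; exact hb
    · rw [show (|a| + |c| - |b|) / 2 + (|b| + |c| - |a|) / 2 + 4 / 3 * 0 = |c| by ring]; exact hc

/-- The coordinate functionals. -/
noncomputable def coordL (i : Fin 3) : Oct3 →ₗ[ℝ] ℝ := (LinearMap.proj i : (Fin 3 → ℝ) →ₗ[ℝ] ℝ)

@[simp] theorem coordL_zero_vec (a b c : ℝ) : coordL 0 (vec a b c) = a := rfl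
@[simp] theorem coordL_one_vec (a b c : ℝ) : coordL 1 (vec a b c) = b := rfl
@[simp] theorem coordL_two_vec (a b c : ℝ) : coordL 2 (vec a b c) = c := rfl

section P

variable (X : Type*) [NormedAddCommGroup X] [NormedSpace ℝ X]

/-- The key property of a vertex. -/
def PropP (v : Oct3) : Prop :=
  ∃ U : X ⊗[ℝ] Oct3, projNorm U ≤ 7 ∧
    ∀ x : X, ‖x‖ ≤ 1 → projNorm (U + x ⊗ₜ[ℝ] v) ≤ projNorm U + 2 / 3

variable {X}

theorem PropP.transport {v : Oct3} (h : PropP X v) (g : Oct3 →ₗ[ℝ] Oct3)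
    (hg : ∀ y, ‖g y‖ ≤ ‖y‖) (hgg : ∀ y, g (g y) = y) : PropP X (g v) := by
  obtain ⟨U, hU, h⟩ := h
  have key : projNorm U ≤ projNorm (g.lTensor X U) := by
    have h1 := projNorm_lTensor_le (X := X) g hg (g.lTensor X U)
    have h2 : g.lTensor X (g.lTensor X U) = U := by
      have h3 : g ∘ₗ g = LinearMap.id := LinearMap.ext hgg
      rw [← LinearMap.lTensor_comp_apply, h3, LinearMap.lTensor_id_apply]
    rwa [h2] at h1
  refine ⟨g.lTensor X U, (projNorm_lTensor_le g hg U).trans hU, fun x hx => ?_⟩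
  have h1 : g.lTensor X U + x ⊗ₜ[ℝ] g v = g.lTensor X (U + x ⊗ₜ[ℝ] v) := by
    rw [map_add, LinearMap.lTensor_tmul]
  rw [h1]
  have h2 := projNorm_lTensor_le g hg (U + x ⊗ₜ[ℝ] v)
  have h3 := h x hx
  linarith

end P

/-- Signed coordinate permutations: auxiliary constructor. -/
noncomputable def mk3 (f : ℝ → ℝ → ℝ → Oct3)
    (hadd : ∀ a b c a' b' c', f (a + a') (b + b') (c + c') = f a b c + f a' b' c')
    (hsmul : ∀ r a b c, f (r * a) (r * b) (r * c) = r • f a b c) : Oct3 →ₗ[ℝ] Oct3 where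
  toFun y := f (coordL 0 y) (coordL 1 y) (coordL 2 y)
  map_add' x y := by
    simp only [map_add]
    exact hadd _ _ _ _ _ _
  map_smul' r x := by
    simp only [map_smul, smul_eq_mul, RingHom.id_apply]
    exact hsmul _ _ _ _

/-- `(a,b,c) ↦ (a,-b,c)` -/
noncomputable def flip1 : Oct3 →ₗ[ℝ] Oct3 :=
  mk3 (fun a b c => vec a (-b) c)
    (fun a b c a' b' c' => by rw [vec_add]; apply vec_ext <;> ring)
    (fun r a b c => by rw [smul_vec]; apply vec_ext <;> ring)

/-- `(a,b,c) ↦ (a,b,-c)` -/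
noncomputable def flip2 : Oct3 →ₗ[ℝ] Oct3 :=
  mk3 (fun a b c => vec a b (-c))
    (fun a b c a' b' c' => by rw [vec_add]; apply vec_ext <;> ring)
    (fun r a b c => by rw [smul_vec]; apply vec_ext <;> ring)

/-- `(a,b,c) ↦ (b,a,c)` -/
noncomputable def swap01 : Oct3 →ₗ[ℝ] Oct3 :=
  mk3 (fun a b c => vec b a c)
    (fun a b c a' b' c' => by rw [vec_add])
    (fun r a b c => by rw [smul_vec])

/-- `(a,b,c) ↦ (a,c,b)` -/
noncomputable def swap12 : Oct3 →ₗ[ℝ] Oct3 :=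
  mk3 (fun a b c => vec a c b)
    (fun a b c a' b' c' => by rw [vec_add])
    (fun r a b c => by rw [smul_vec])

/-- `(a,b,c) ↦ (c,b,a)` -/
noncomputable def swap02 : Oct3 →ₗ[ℝ] Oct3 :=
  mk3 (fun a b c => vec c b a)
    (fun a b c a' b' c' => by rw [vec_add])
    (fun r a b c => by rw [smul_vec])

theorem flip1_vec (a b c : ℝ) : flip1 (vec a b c) = vec a (-b) c := rfl
theorem flip2_vec (a b c : ℝ) : flip2 (vec a b c) = vec a b (-c) := rfl
theorem swap01_vec (a b c : ℝ) : swap01 (vec a b c) = vec b a c := rfl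
theorem swap12_vec (a b c : ℝ) : swap12 (vec a b c) = vec a c b := rfl
theorem swap02_vec (a b c : ℝ) : swap02 (vec a b c) = vec c b a := rfl

section
variable {X : Type*} [NormedAddCommGroup X] [NormedSpace ℝ X]

theorem PropP.of_vec_flip1 {a b c : ℝ} (h : PropP X (vec a b c)) : PropP X (vec a (-b) c) := by
  rw [← flip1_vec]
  refine h.transport flip1 (fun y => ?_) (fun y => ?_)
  · obtain ⟨a, b, c, rfl⟩ := eq_vec y
    rw [flip1_vec]
    have n := le_norm_vec a b c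
    have n0 := le_norm_vec0 a b c
    have n1 := le_norm_vec1 a b c
    have n2 := le_norm_vec2 a b c
    apply norm_vec_le <;> rw [abs_neg] <;> linarith
  · obtain ⟨a, b, c, rfl⟩ := eq_vec y
    rw [flip1_vec, flip1_vec]
    apply vec_ext <;> ring

theorem PropP.of_vec_flip2 {a b c : ℝ} (h : PropP X (vec a b c)) : PropP X (vec a b (-c)) := by
  rw [← flip2_vec]
  refine h.transport flip2 (fun y => ?_) (fun y => ?_)
  · obtain ⟨a, b, c, rfl⟩ := eq_vec y
    rw [flip2_vec]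
    have n := le_norm_vec a b c
    have n0 := le_norm_vec0 a b c
    have n1 := le_norm_vec1 a b c
    have n2 := le_norm_vec2 a b c
    apply norm_vec_le <;> rw [abs_neg] <;> linarith
  · obtain ⟨a, b, c, rfl⟩ := eq_vec y
    rw [flip2_vec, flip2_vec]
    apply vec_ext <;> ring

theorem PropP.of_vec_swap01 {a b c : ℝ} (h : PropP X (vec a b c)) : PropP X (vec b a c) := by
  rw [← swap01_vec]
  refine h.transport swap01 (fun y => ?_) (fun y => ?_)
  · obtain ⟨a, b, c, rfl⟩ := eq_vec y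
    rw [swap01_vec]
    have n := le_norm_vec a b c
    have n0 := le_norm_vec0 a b c
    have n1 := le_norm_vec1 a b c
    have n2 := le_norm_vec2 a b c
    apply norm_vec_le <;> linarith
  · obtain ⟨a, b, c, rfl⟩ := eq_vec y
    rw [swap01_vec, swap01_vec]

theorem PropP.of_vec_swap12 {a b c : ℝ} (h : PropP X (vec a b c)) : PropP X (vec a c b) := by
  rw [← swap12_vec]
  refine h.transport swap12 (fun y => ?_) (fun y => ?_)
  · obtain ⟨a, b, c, rfl⟩ := eq_vec y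
    rw [swap12_vec]
    have n := le_norm_vec a b c
    have n0 := le_norm_vec0 a b c
    have n1 := le_norm_vec1 a b c
    have n2 := le_norm_vec2 a b c
    apply norm_vec_le <;> linarith
  · obtain ⟨a, b, c, rfl⟩ := eq_vec y
    rw [swap12_vec, swap12_vec]

theorem PropP.of_vec_swap02 {a b c : ℝ} (h : PropP X (vec a b c)) : PropP X (vec c b a) := by
  rw [← swap02_vec]
  refine h.transport swap02 (fun y => ?_) (fun y => ?_)
  · obtain ⟨a, b, c, rfl⟩ := eq_vec y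
    rw [swap02_vec]
    have n := le_norm_vec a b c
    have n0 := le_norm_vec0 a b c
    have n1 := le_norm_vec1 a b c
    have n2 := le_norm_vec2 a b c
    apply norm_vec_le <;> linarith
  · obtain ⟨a, b, c, rfl⟩ := eq_vec y
    rw [swap02_vec, swap02_vec]

/-- It is enough to prove `PropP` for two vertices. -/
theorem propP_vert (h1 : PropP X (vec 1 1 0)) (h2 : PropP X (vec (4 / 3) 0 0)) (i : Fin 9) :
    PropP X (vert i) := by
  have a1 : PropP X (vec 1 (-1) 0) := h1.of_vec_flip1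
  have a2 : PropP X (vec 1 0 1) := h1.of_vec_swap12
  have a3 : PropP X (vec 1 0 (-1)) := a2.of_vec_flip2
  have a4 : PropP X (vec 0 1 1) := h1.of_vec_swap02
  have a5 : PropP X (vec 0 1 (-1)) := a4.of_vec_flip2
  have a6 : PropP X (vec 0 (4 / 3) 0) := h2.of_vec_swap01
  have a7 : PropP X (vec 0 0 (4 / 3)) := h2.of_vec_swap02
  fin_cases i
  · exact h1
  · exact a1
  · exact a2
  · exact a3
  · exact a4
  · exact a5
  · exact h2
  · exact a6
  · exact a7

end

end Pool.Agent.Helper35.Oct
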