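import Pool.Agent.Helper35.OctC

open scoped TensorProduct

namespace Pool.Agent.Helper35.Oct

section T3

variable {X : Type*} [NormedAddCommGroup X] [NormedSpace ℝ X]

/-- `p ⊗ e₀ + q ⊗ e₁ + r ⊗ e₂` -/
noncomputable def T3 (p q r : X) : X ⊗[ℝ] Oct3 :=
  p ⊗ₜ[ℝ] vec 1 0 0 + q ⊗ₜ[ℝ] vec 0 1 0 + r ⊗ₜ[ℝ] vec 0 0 1

theorem T3_add (p q r p' q' r' : X) :
    T3 p q r + T3 p' q' r' = T3 (p + p') (q + q') (r + r') := by
  simp only [T3, TensorProduct.add_tmul]
  abel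

theorem tmul_vec (x : X) (a b c : ℝ) : x ⊗ₜ[ℝ] vec a b c = T3 (a • x) (b • x) (c • x) := by
  have h : vec a b c = a • vec 1 0 0 + b • vec 0 1 0 + c • vec 0 0 1 := by
    simp only [smul_vec, vec_add]
    apply vec_ext <;> ring
  rw [h, TensorProduct.tmul_add, TensorProduct.tmul_add, T3]
  simp only [TensorProduct.tmul_smul, TensorProduct.smul_tmul']

theorem T3_congr {p q r p' q' r' : X} (h1 : p = p') (h2 : q = q') (h3 : r = r') :
    T3 p q r = T3 p' q' r' := by rw [h1, h2, h3]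

theorem lift_T3 (B : X →ₗ[ℝ] Oct3 →ₗ[ℝ] ℝ) (p q r : X) : TensorProduct.lift B (T3 p q r) =
    B p (vec 1 0 0) + B q (vec 0 1 0) + B r (vec 0 0 1) := by
  simp [T3]

theorem projNorm_sum_le {X Y : Type*} [NormedAddCommGroup X] [NormedSpace ℝ X]
    [NormedAddCommGroup Y] [NormedSpace ℝ Y] {n : ℕ} (x : Fin n → X) (y : Fin n → Y) :
    projNorm (∑ i, x i ⊗ₜ[ℝ] y i) ≤ ∑ i, ‖x i‖ * ‖y i‖ :=
  projNorm_le_of_mem ⟨n, x, y, rfl, rfl⟩

end T3

section main

variable {X₀ : Type*} [NormedAddCommGroup X₀] [NormedSpace ℝ X₀]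

theorem abs_pair (u c : ℝ) : |u + c| + |u - c| ≤ 2 * |u| ∨ |u + c| + |u - c| ≤ 2 * |c| := by
  have h1 := neg_abs_le u
  have h2 := le_abs_self u
  have h3 := neg_abs_le c
  have h4 := le_abs_self c
  rcases abs_cases (u + c) with ⟨h, _⟩ | ⟨h, _⟩ <;>
    rcases abs_cases (u - c) with ⟨h', _⟩ | ⟨h', _⟩ <;> rw [h, h']
  · left; linarith
  · right; linarith
  · right; linarith
  · left; linarith

omit [NormedSpace ℝ X₀] in
theorem norm_vec4_le {p q r s : X₀} {c : ℝ} (hc : 0 ≤ c) (hp : ‖p‖ ≤ c) (hq : ‖q‖ ≤ c)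
    (hr : ‖r‖ ≤ c) (hs : ‖s‖ ≤ c) : ‖(![p, q, r, s] : Fin 4 → X₀)‖ ≤ c := by
  rw [pi_norm_le_iff_of_nonneg hc]
  intro i
  fin_cases i
  · exact hp
  · exact hq
  · exact hr
  · exact hs

theorem propP_G (e : X₀) (φ : X₀ →L[ℝ] ℝ) (he : ‖e‖ = 1) (hφ : ‖φ‖ ≤ 1) (hφe : φ e = 1) :
    PropP (Fin 4 → X₀) (vec 1 1 0) := by
  -- the element `U`
  set U : (Fin 4 → X₀) ⊗[ℝ] Oct3 :=
    T3 ![0, (2 : ℝ) • e, (2 : ℝ) • e, (2 : ℝ) • e]
      ![0, (-2 : ℝ) • e, (-2 : ℝ) • e, (2 : ℝ) • e]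
      ![(4 : ℝ) • e, (2 : ℝ) • e, (-2 : ℝ) • e, 0] with hU
  -- upper bound
  have up : ∀ x : Fin 4 → X₀, ‖x‖ ≤ 1 → projNorm (U + x ⊗ₜ[ℝ] vec 1 1 0) ≤ 11 / 2 := by
    intro x hx
    have hxi : ∀ i, ‖x i‖ ≤ 1 := fun i => (norm_le_pi_norm x i).trans hx
    set f : Fin 6 → (Fin 4 → X₀) := ![![e, e, x 2, e], ![-e, -e, x 2, e], ![-e, x 1, e, e],
      ![e, x 1, -e, e], ![(3 / 4 : ℝ) • x 0, (3 / 4 : ℝ) • e, (3 / 4 : ℝ) • e, (3 / 4 : ℝ) • x 3],
      ![(3 / 4 : ℝ) • x 0, (-3 / 4 : ℝ) • e, (-3 / 4 : ℝ) • e, (3 / 4 : ℝ) • x 3]] with hf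
    set v : Fin 6 → Oct3 := ![vec 1 0 1, vec 0 1 (-1), vec 1 0 (-1), vec 0 1 1, vec (4 / 3) 0 0,
      vec 0 (4 / 3) 0] with hv
    have hrep : U + x ⊗ₜ[ℝ] vec 1 1 0 = ∑ i, f i ⊗ₜ[ℝ] v i := by
      simp only [Fin.sum_univ_succ, hf, hv, Matrix.cons_val_zero, Matrix.cons_val_succ,
        Finset.univ_eq_empty, Finset.sum_empty, add_zero]
      rw [hU]
      simp only [tmul_vec, T3_add]
      apply T3_congr
      · funext i
        fin_cases i <;> simp <;> module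
      · funext i
        fin_cases i <;> simp <;> module
      · funext i
        fin_cases i <;> simp <;> module
    have hn : ∑ i, ‖f i‖ * ‖v i‖ ≤ 11 / 2 := by
      have hv1 : ∀ i, ‖v i‖ ≤ 1 := by
        intro i
        fin_cases i <;> simp [hv, norm_vec] <;> norm_num
      have hf0 : ‖f 0‖ ≤ 1 := norm_vec4_le zero_le_one he.le he.le (hxi 2) he.le
      have hf1 : ‖f 1‖ ≤ 1 := norm_vec4_le zero_le_one (by rw [norm_neg]; exact he.le)
        (by rw [norm_neg]; exact he.le) (hxi 2) he.le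
      have hf2 : ‖f 2‖ ≤ 1 := norm_vec4_le zero_le_one (by rw [norm_neg]; exact he.le)
        (hxi 1) he.le he.le
      have hf3 : ‖f 3‖ ≤ 1 := norm_vec4_le zero_le_one he.le (hxi 1)
        (by rw [norm_neg]; exact he.le) he.le
      have hs : ∀ z : X₀, ‖z‖ ≤ 1 → ‖(3 / 4 : ℝ) • z‖ ≤ 3 / 4 := fun z hz => by
        rw [norm_smul, Real.norm_of_nonneg (by norm_num)]; linarith
      have hs' : ∀ z : X₀, ‖z‖ ≤ 1 → ‖(-3 / 4 : ℝ) • z‖ ≤ 3 / 4 := fun z hz => by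
        rw [norm_smul, Real.norm_of_nonpos (by norm_num)]; linarith
      have hf4 : ‖f 4‖ ≤ 3 / 4 := norm_vec4_le (by norm_num) (hs _ (hxi 0)) (hs _ he.le)
        (hs _ he.le) (hs _ (hxi 3))
      have hf5 : ‖f 5‖ ≤ 3 / 4 := norm_vec4_le (by norm_num) (hs _ (hxi 0)) (hs' _ he.le)
        (hs' _ he.le) (hs _ (hxi 3))
      have hle : ∑ i, ‖f i‖ * ‖v i‖ ≤ ∑ i, ‖f i‖ :=
        Finset.sum_le_sum (fun i _ => mul_le_of_le_one_right (norm_nonneg _) (hv1 i))
      have h6 := Fin.sum_univ_six (fun i => ‖f i‖)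
      linarith
    rw [hrep]
    exact (projNorm_sum_le f v).trans hn
  -- lower bound
  have low : (5 : ℝ) ≤ projNorm U := by
    set B : (Fin 4 → X₀) →ₗ[ℝ] Oct3 →ₗ[ℝ] ℝ := LinearMap.mk₂ ℝ
      (fun x y => (φ (x 0) * coordL 2 y + φ (x 1) * (coordL 0 y - coordL 1 y + coordL 2 y)
        + φ (x 2) * (coordL 0 y - coordL 1 y - coordL 2 y)
        + φ (x 3) * (coordL 0 y + coordL 1 y)) / 4)
      (fun x x' y => by simp only [Pi.add_apply, map_add]; ring)
      (fun c x y => by simp only [Pi.smul_apply, map_smul, smul_eq_mul]; ring)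
      (fun x y y' => by simp only [map_add]; ring)
      (fun c x y => by simp only [map_smul, smul_eq_mul]; ring) with hB
    have hbd : ∀ x y, |B x y| ≤ ‖x‖ * ‖y‖ := by
      intro x y
      obtain ⟨a, b, c, rfl⟩ := eq_vec y
      have n := le_norm_vec a b c
      have n0 := le_norm_vec0 a b c
      have n1 := le_norm_vec1 a b c
      have n2 := le_norm_vec2 a b c
      have hφx : ∀ i, |φ (x i)| ≤ ‖x‖ := fun i => by
        have h1 := φ.le_opNorm (x i)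
        have h2 := norm_le_pi_norm x i
        have h3 : ‖φ‖ * ‖x i‖ ≤ 1 * ‖x‖ :=
          mul_le_mul hφ h2 (norm_nonneg _) zero_le_one
        rw [Real.norm_eq_abs] at h1
        linarith
      have e1 : B x (vec a b c) = (φ (x 0) * c + φ (x 1) * (a - b + c)
          + φ (x 2) * (a - b - c) + φ (x 3) * (a + b)) / 4 := by
        simp [hB]
      have e2 : |φ (x 0) * c| ≤ ‖x‖ * |c| := by
        rw [abs_mul]; exact mul_le_mul_of_nonneg_right (hφx 0) (abs_nonneg _)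
      have e3 : |φ (x 1) * (a - b + c)| ≤ ‖x‖ * |a - b + c| := by
        rw [abs_mul]; exact mul_le_mul_of_nonneg_right (hφx 1) (abs_nonneg _)
      have e4 : |φ (x 2) * (a - b - c)| ≤ ‖x‖ * |a - b - c| := by
        rw [abs_mul]; exact mul_le_mul_of_nonneg_right (hφx 2) (abs_nonneg _)
      have e5 : |φ (x 3) * (a + b)| ≤ ‖x‖ * |a + b| := by
        rw [abs_mul]; exact mul_le_mul_of_nonneg_right (hφx 3) (abs_nonneg _)
      have e6 : (|c| + |a - b + c| + |a - b - c| + |a + b|) / 4 ≤ ‖vec a b c‖ := by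
        have t1 := abs_add_le a b
        have t2 : |a - b| ≤ |a| + |b| := abs_sub a b
        rcases abs_pair (a - b) c with h1 | h1 <;> rcases abs_pair a b with h2 | h2 <;> linarith
      have e7 : |B x (vec a b c)| ≤ (‖x‖ * |c| + ‖x‖ * |a - b + c| + ‖x‖ * |a - b - c|
          + ‖x‖ * |a + b|) / 4 := by
        rw [e1, abs_div, abs_of_pos (show (0 : ℝ) < 4 by norm_num)]
        have t1 := abs_add_le (φ (x 0) * c + φ (x 1) * (a - b + c) + φ (x 2) * (a - b - c))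
          (φ (x 3) * (a + b))
        have t2 := abs_add_le (φ (x 0) * c + φ (x 1) * (a - b + c)) (φ (x 2) * (a - b - c))
        have t3 := abs_add_le (φ (x 0) * c) (φ (x 1) * (a - b + c))
        apply div_le_div_of_nonneg_right _ (by norm_num)
        linarith
      have e8 : ‖x‖ * ((|c| + |a - b + c| + |a - b - c| + |a + b|) / 4) ≤ ‖x‖ * ‖vec a b c‖ :=
        mul_le_mul_of_nonneg_left e6 (norm_nonneg _)
      linarith
    have h1 := le_projNorm_of_bilin B hbd U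
    have h2 : TensorProduct.lift B U = 5 := by
      rw [hU, lift_T3]
      simp only [hB, LinearMap.mk₂_apply, coordL_zero_vec, coordL_one_vec, coordL_two_vec,
        Matrix.cons_val_zero, Matrix.cons_val_one, Matrix.cons_val_two, Matrix.cons_val_three,
        Matrix.tail_cons, Matrix.head_cons, Matrix.cons_val, map_smul, map_zero, hφe, smul_eq_mul]
      norm_num
    linarith
  refine ⟨U, ?_, fun x hx => ?_⟩
  · have h := up 0 (by simp)
    rw [TensorProduct.zero_tmul, add_zero] at h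
    linarith
  · have h := up x hx
    linarith

theorem propP_F (e : X₀) (φ : X₀ →L[ℝ] ℝ) (he : ‖e‖ = 1) (hφ : ‖φ‖ ≤ 1) (hφe : φ e = 1) :
    PropP (Fin 4 → X₀) (vec (4 / 3) 0 0) := by
  -- the element `U`
  set U : (Fin 4 → X₀) ⊗[ℝ] Oct3 :=
    T3 ![(4 : ℝ) • e, 0, 0, 0] ![0, (4 : ℝ) • e, 0, 0] ![0, 0, (4 : ℝ) • e, 0] with hU
  -- upper bound
  have up : ∀ x : Fin 4 → X₀, ‖x‖ ≤ 1 →
      projNorm (U + x ⊗ₜ[ℝ] vec (4 / 3) 0 0) ≤ 20 / 3 := by
    intro x hx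
    have hxi : ∀ i, ‖x i‖ ≤ 1 := fun i => (norm_le_pi_norm x i).trans hx
    set f : Fin 6 → (Fin 4 → X₀) :=
      ![![e + (1 / 3 : ℝ) • x 0, (4 / 3 : ℝ) • e, (2 / 3 : ℝ) • x 2, (2 / 3 : ℝ) • x 3],
        ![e + (1 / 3 : ℝ) • x 0, (-4 / 3 : ℝ) • e, (2 / 3 : ℝ) • x 2, (2 / 3 : ℝ) • x 3],
        ![e + (1 / 3 : ℝ) • x 0, (2 / 3 : ℝ) • x 1, (4 / 3 : ℝ) • e, 0],
        ![e + (1 / 3 : ℝ) • x 0, (2 / 3 : ℝ) • x 1, (-4 / 3 : ℝ) • e, 0],
        ![0, (2 / 3 : ℝ) • e, (2 / 3 : ℝ) • e, 0],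
        ![0, (2 / 3 : ℝ) • e, (-2 / 3 : ℝ) • e, 0]] with hf
    set v : Fin 6 → Oct3 := ![vec 1 1 0, vec 1 (-1) 0, vec 1 0 1, vec 1 0 (-1), vec 0 1 1,
      vec 0 1 (-1)] with hv
    have hrep : U + x ⊗ₜ[ℝ] vec (4 / 3) 0 0 = ∑ i, f i ⊗ₜ[ℝ] v i := by
      simp only [Fin.sum_univ_succ, hf, hv, Matrix.cons_val_zero, Matrix.cons_val_succ,
        Finset.univ_eq_empty, Finset.sum_empty, add_zero]
      rw [hU]
      simp only [tmul_vec, T3_add]
      apply T3_congr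
      · funext i
        fin_cases i <;> simp <;> module
      · funext i
        fin_cases i <;> simp <;> module
      · funext i
        fin_cases i <;> simp <;> module
    have hn : ∑ i, ‖f i‖ * ‖v i‖ ≤ 20 / 3 := by
      have hv1 : ∀ i, ‖v i‖ ≤ 1 := by
        intro i
        fin_cases i <;> simp [hv, norm_vec] <;> norm_num
      have hs : ∀ (c d : ℝ) (z : X₀), ‖z‖ ≤ 1 → |c| ≤ d → ‖c • z‖ ≤ d := fun c d z hz hc => by
        rw [norm_smul, Real.norm_eq_abs]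
        have := mul_le_mul hc hz (norm_nonneg _) ((abs_nonneg _).trans hc)
        linarith
      have hs0 : ∀ z : X₀, ‖z‖ ≤ 1 → ‖e + (1 / 3 : ℝ) • z‖ ≤ 4 / 3 := fun z hz => by
        have h1 := norm_add_le e ((1 / 3 : ℝ) • z)
        have h2 := hs (1 / 3) (1 / 3) z hz (by rw [abs_of_pos (by norm_num)])
        linarith
      have habs : ∀ c : ℝ, (c = 2 / 3 ∨ c = -2 / 3 ∨ c = 4 / 3 ∨ c = -4 / 3) → |c| ≤ 4 / 3 := by
        rintro c (rfl | rfl | rfl | rfl) <;> norm_num [abs_le]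
      have hf0 : ‖f 0‖ ≤ 4 / 3 := norm_vec4_le (by norm_num) (hs0 _ (hxi 0))
        (hs _ _ _ he.le (habs _ (by norm_num))) (hs _ _ _ (hxi 2) (habs _ (by norm_num)))
        (hs _ _ _ (hxi 3) (habs _ (by norm_num)))
      have hf1 : ‖f 1‖ ≤ 4 / 3 := norm_vec4_le (by norm_num) (hs0 _ (hxi 0))
        (hs _ _ _ he.le (habs _ (by norm_num))) (hs _ _ _ (hxi 2) (habs _ (by norm_num)))
        (hs _ _ _ (hxi 3) (habs _ (by norm_num)))
      have hf2 : ‖f 2‖ ≤ 4 / 3 := norm_vec4_le (by norm_num) (hs0 _ (hxi 0))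
        (hs _ _ _ (hxi 1) (habs _ (by norm_num))) (hs _ _ _ he.le (habs _ (by norm_num)))
        (by rw [norm_zero]; norm_num)
      have hf3 : ‖f 3‖ ≤ 4 / 3 := norm_vec4_le (by norm_num) (hs0 _ (hxi 0))
        (hs _ _ _ (hxi 1) (habs _ (by norm_num))) (hs _ _ _ he.le (habs _ (by norm_num)))
        (by rw [norm_zero]; norm_num)
      have h23 : |(2 / 3 : ℝ)| ≤ 2 / 3 := by rw [abs_of_pos (by norm_num)]
      have h23' : |(-2 / 3 : ℝ)| ≤ 2 / 3 := by rw [abs_of_neg (by norm_num)]; norm_num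
      have hf4 : ‖f 4‖ ≤ 2 / 3 := norm_vec4_le (by norm_num) (by rw [norm_zero]; norm_num)
        (hs _ _ _ he.le h23) (hs _ _ _ he.le h23) (by rw [norm_zero]; norm_num)
      have hf5 : ‖f 5‖ ≤ 2 / 3 := norm_vec4_le (by norm_num) (by rw [norm_zero]; norm_num)
        (hs _ _ _ he.le h23) (hs _ _ _ he.le h23') (by rw [norm_zero]; norm_num)
      have hle : ∑ i, ‖f i‖ * ‖v i‖ ≤ ∑ i, ‖f i‖ :=
        Finset.sum_le_sum (fun i _ => mul_le_of_le_one_right (norm_nonneg _) (hv1 i))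
      have h6 := Fin.sum_univ_six (fun i => ‖f i‖)
      linarith
    rw [hrep]
    exact (projNorm_sum_le f v).trans hn
  -- lower bound
  have low : (6 : ℝ) ≤ projNorm U := by
    set B : (Fin 4 → X₀) →ₗ[ℝ] Oct3 →ₗ[ℝ] ℝ := LinearMap.mk₂ ℝ
      (fun x y => (φ (x 0) * coordL 0 y + φ (x 1) * coordL 1 y + φ (x 2) * coordL 2 y) / 2)
      (fun x x' y => by simp only [Pi.add_apply, map_add]; ring)
      (fun c x y => by simp only [Pi.smul_apply, map_smul, smul_eq_mul]; ring)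
      (fun x y y' => by simp only [map_add]; ring)
      (fun c x y => by simp only [map_smul, smul_eq_mul]; ring) with hB
    have hbd : ∀ x y, |B x y| ≤ ‖x‖ * ‖y‖ := by
      intro x y
      obtain ⟨a, b, c, rfl⟩ := eq_vec y
      have n := le_norm_vec a b c
      have hφx : ∀ i, |φ (x i)| ≤ ‖x‖ := fun i => by
        have h1 := φ.le_opNorm (x i)
        have h2 := norm_le_pi_norm x i
        have h3 : ‖φ‖ * ‖x i‖ ≤ 1 * ‖x‖ :=
          mul_le_mul hφ h2 (norm_nonneg _) zero_le_one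
        rw [Real.norm_eq_abs] at h1
        linarith
      have e1 : B x (vec a b c) = (φ (x 0) * a + φ (x 1) * b + φ (x 2) * c) / 2 := by
        simp [hB]
      have e2 : |φ (x 0) * a| ≤ ‖x‖ * |a| := by
        rw [abs_mul]; exact mul_le_mul_of_nonneg_right (hφx 0) (abs_nonneg _)
      have e3 : |φ (x 1) * b| ≤ ‖x‖ * |b| := by
        rw [abs_mul]; exact mul_le_mul_of_nonneg_right (hφx 1) (abs_nonneg _)
      have e4 : |φ (x 2) * c| ≤ ‖x‖ * |c| := by
        rw [abs_mul]; exact mul_le_mul_of_nonneg_right (hφx 2) (abs_nonneg _)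
      have e7 : |B x (vec a b c)| ≤ (‖x‖ * |a| + ‖x‖ * |b| + ‖x‖ * |c|) / 2 := by
        rw [e1, abs_div, abs_of_pos (show (0 : ℝ) < 2 by norm_num)]
        have t2 := abs_add_le (φ (x 0) * a + φ (x 1) * b) (φ (x 2) * c)
        have t3 := abs_add_le (φ (x 0) * a) (φ (x 1) * b)
        apply div_le_div_of_nonneg_right _ (by norm_num)
        linarith
      have e8 : ‖x‖ * ((|a| + |b| + |c|) / 2) ≤ ‖x‖ * ‖vec a b c‖ :=
        mul_le_mul_of_nonneg_left n (norm_nonneg _)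
      linarith
    have h1 := le_projNorm_of_bilin B hbd U
    have h2 : TensorProduct.lift B U = 6 := by
      rw [hU, lift_T3]
      simp only [hB, LinearMap.mk₂_apply, coordL_zero_vec, coordL_one_vec, coordL_two_vec,
        Matrix.cons_val_zero, Matrix.cons_val_one, Matrix.cons_val_two, Matrix.cons_val_three,
        Matrix.tail_cons, Matrix.head_cons, Matrix.cons_val, map_smul, map_zero, hφe, smul_eq_mul]
      norm_num
    linarith
  refine ⟨U, ?_, fun x hx => ?_⟩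
  · have h := up 0 (by simp)
    rw [TensorProduct.zero_tmul, add_zero] at h
    linarith
  · have h := up x hx
    linarith

end main

end Pool.Agent.Helper35.Oct
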