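import Pool.Agent.Helper35.OctD

open scoped TensorProduct

namespace Pool.Agent.Helper35.Oct

/-- Sup-norm powers of octahedral spaces are octahedral. -/
theorem octahedral_pi {X₀ : Type*} [NormedAddCommGroup X₀] [NormedSpace ℝ X₀]
    (h : IsOctahedral X₀) : IsOctahedral (Fin 4 → X₀) := by
  intro E hE ε hε
  let p : Fin 4 → ((Fin 4 → X₀) →ₗ[ℝ] X₀) := fun i => LinearMap.proj i
  have hfin : FiniteDimensional ℝ (⨆ i, E.map (p i) : Submodule ℝ X₀) := inferInstance
  obtain ⟨y, hy, hyE⟩ := h (⨆ i, E.map (p i)) hfin ε hε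
  refine ⟨fun _ => y, ?_, ?_⟩
  · rw [pi_norm_const, hy]
  · intro x hx c
    obtain ⟨j, -, hj⟩ := Finset.exists_mem_eq_sup' (Finset.univ_nonempty (α := Fin 4))
      (fun i => ‖x i‖)
    have hxj : ‖x‖ ≤ ‖x j‖ := by
      rw [pi_norm_le_iff_of_nonneg (norm_nonneg _)]
      intro i
      rw [← hj]
      exact Finset.le_sup' (fun i => ‖x i‖) (Finset.mem_univ i)
    have hxj' : ‖x‖ = ‖x j‖ := le_antisymm hxj (norm_le_pi_norm x j)
    have hmem : x j ∈ (⨆ i, E.map (p i) : Submodule ℝ X₀) :=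
      Submodule.mem_iSup_of_mem j (Submodule.mem_map.mpr ⟨x, hx, rfl⟩)
    have h1 := hyE (x j) hmem c
    have h2 : ‖x j + c • y‖ ≤ ‖x + c • (fun _ => y : Fin 4 → X₀)‖ :=
      norm_le_pi_norm (x + c • (fun _ => y : Fin 4 → X₀)) j
    rw [hxj']
    exact h1.trans h2

/-- `ℓ₁(ℝ)` is octahedral. -/
theorem octahedral_l1 : IsOctahedral (lp (fun _ : ℝ => ℝ) 1) := by
  classical
  intro E hE ε hε
  have hp1 : (1 : ENNReal).toReal = 1 := ENNReal.toReal_one
  have hp : 0 < (1 : ENNReal).toReal := by rw [hp1]; exact one_pos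
  obtain ⟨S, hS⟩ : E.FG := Module.Finite.iff_fg.mp hE
  have hcount : (⋃ s ∈ S, Function.support (fun i : ℝ => s i)).Countable := by
    refine Set.Countable.biUnion S.countable_toSet (fun s _ => ?_)
    have h1 : Summable (fun i => ‖s i‖ ^ (1 : ENNReal).toReal) := (lp.memℓp s).summable hp
    have h2 := h1.countable_support
    refine h2.mono ?_
    intro i hi
    rw [Function.mem_support] at hi ⊢
    rw [hp1, Real.rpow_one]
    exact norm_ne_zero_iff.mpr hi
  obtain ⟨γ, hγ⟩ : ∃ γ, γ ∉ (⋃ s ∈ S, Function.support (fun i : ℝ => s i)) := by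
    by_contra hcon
    push Not at hcon
    have h3 : (Set.univ : Set ℝ).Countable := hcount.mono (fun x _ => hcon x)
    exact Cardinal.not_countable_real h3
  have hzero : ∀ x ∈ E, x γ = 0 := by
    intro x hx
    rw [← hS] at hx
    induction hx using Submodule.span_induction with
    | mem x hx =>
      by_contra hne
      exact hγ (Set.mem_biUnion hx hne)
    | zero => rfl
    | add x y _ _ hx hy =>
      rw [lp.coeFn_add, Pi.add_apply, hx, hy, add_zero]
    | smul c x _ hx =>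
      rw [lp.coeFn_smul, Pi.smul_apply, hx, smul_zero]
  refine ⟨lp.single 1 γ (1 : ℝ), ?_, ?_⟩
  · rw [lp.norm_single (by norm_num)]
    simp
  · intro x hx c
    set g : lp (fun _ : ℝ => ℝ) 1 := x + c • lp.single 1 γ (1 : ℝ) with hg
    have hgγ : g γ = c := by
      rw [hg, lp.coeFn_add, Pi.add_apply, lp.coeFn_smul, Pi.smul_apply, hzero x hx,
        lp.single_apply_self]
      simp
    have h1 := lp.norm_sub_norm_compl_sub_single hp g {γ}
    rw [Finset.sum_singleton, Finset.sum_singleton, hgγ, hp1, Real.rpow_one, Real.rpow_one,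
      Real.rpow_one] at h1
    have h2 : g - lp.single 1 γ c = x := by
      rw [hg, ← lp.single_smul]
      simp
    rw [h2, Real.norm_eq_abs] at h1
    have h3 : ‖g‖ = ‖x‖ + |c| := by linarith
    rw [h3]
    have h4 : 0 ≤ ‖x‖ + |c| := by positivity
    nlinarith

/-- The key contradiction. -/
theorem not_octahedral_of_propP {X : Type*} [NormedAddCommGroup X] [NormedSpace ℝ X]
    (h : ∀ i, PropP X (vert i)) : ¬ IsOctahedral (ProjTensorProduct X Oct3) := by
  intro hO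
  choose U hU7 hU using h
  obtain ⟨ι, hιnorm, hιadd, hιsmul, hιdense⟩ : ∃ ι : X ⊗[ℝ] Oct3 → ProjTensorProduct X Oct3,
      (∀ v, ‖ι v‖ = projNorm v) ∧ (∀ u v, ι (u + v) = ι u + ι v) ∧
      (∀ (c : ℝ) (u), ι (c • u) = c • ι u) ∧ DenseRange ι := by
    refine ⟨fun u => ((show ProjTensor X Oct3 from u : ProjTensor X Oct3) :
      UniformSpace.Completion (ProjTensor X Oct3)), ?_, ?_, ?_, ?_⟩
    · intro v
      exact UniformSpace.Completion.norm_coe (show ProjTensor X Oct3 from v)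
    · intro u v
      exact UniformSpace.Completion.coe_add (show ProjTensor X Oct3 from u)
        (show ProjTensor X Oct3 from v)
    · intro c u
      exact UniformSpace.Completion.coe_smul c (show ProjTensor X Oct3 from u)
    · exact UniformSpace.Completion.denseRange_coe (α := ProjTensor X Oct3)
  let E : Submodule ℝ (ProjTensorProduct X Oct3) :=
    Submodule.span ℝ (Set.range fun i => ι (U i))
  obtain ⟨z, hz, hzE⟩ := hO E (FiniteDimensional.span_of_finite ℝ (Set.finite_range _))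
    (1 / 1000) (by norm_num)
  obtain ⟨u, hu⟩ : ∃ u : X ⊗[ℝ] Oct3, dist z (ι u) < 1 / 1000 :=
    hιdense.exists_dist_lt z (by norm_num)
  rw [dist_eq_norm] at hu
  have hun : projNorm u < 1 + 1 / 1000 := by
    rw [← hιnorm]
    have h1 : ‖ι u‖ ≤ ‖z‖ + ‖z - ι u‖ := by
      have := norm_sub_le z (z - ι u)
      rwa [sub_sub_cancel] at this
    linarith
  have hul : 1 - 1 / 1000 < projNorm u := by
    rw [← hιnorm]
    have h1 : ‖z‖ ≤ ‖ι u‖ + ‖z - ι u‖ := by
      have := norm_add_le (ι u) (z - ι u)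
      rwa [add_sub_cancel] at this
    linarith
  obtain ⟨n, x, y, h1, h2⟩ := exists_rep_lt hun
  choose α hα1 hα2 using fun i => exists_dec (y i)
  set w : Fin 9 → X := fun k => ∑ i, α i k • x i with hw
  have hu' : u = ∑ k, w k ⊗ₜ[ℝ] vert k := by
    rw [h1]
    have e1 : ∀ i, x i ⊗ₜ[ℝ] y i = ∑ k, (α i k • x i) ⊗ₜ[ℝ] vert k := fun i => by
      conv_lhs => rw [hα1 i]
      rw [TensorProduct.tmul_sum]
      refine Finset.sum_congr rfl (fun k _ => ?_)
      rw [TensorProduct.tmul_smul, TensorProduct.smul_tmul']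
    rw [Finset.sum_congr rfl (fun i _ => e1 i), Finset.sum_comm]
    refine Finset.sum_congr rfl (fun k _ => ?_)
    rw [hw, TensorProduct.sum_tmul]
  have hwle : ∑ k, ‖w k‖ < 1 + 1 / 1000 := by
    refine lt_of_le_of_lt ?_ h2
    calc ∑ k, ‖w k‖ ≤ ∑ k, ∑ i, |α i k| * ‖x i‖ := by
          refine Finset.sum_le_sum (fun k _ => ?_)
          refine (norm_sum_le _ _).trans (Finset.sum_le_sum (fun i _ => ?_))
          rw [norm_smul, Real.norm_eq_abs]
      _ = ∑ i, ‖x i‖ * ∑ k, |α i k| := by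
          rw [Finset.sum_comm]
          refine Finset.sum_congr rfl (fun i _ => ?_)
          rw [Finset.mul_sum]
          exact Finset.sum_congr rfl (fun k _ => mul_comm _ _)
      _ ≤ ∑ i, ‖x i‖ * ‖y i‖ :=
          Finset.sum_le_sum (fun i _ => mul_le_mul_of_nonneg_left (hα2 i) (norm_nonneg _))
  have hwge : 1 - 1 / 1000 < ∑ k, ‖w k‖ := by
    refine lt_of_lt_of_le hul ?_
    rw [hu']
    refine (projNorm_sum_le w vert).trans (Finset.sum_le_sum (fun k _ => ?_))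
    exact mul_le_of_le_one_right (norm_nonneg _) (norm_vert k)
  obtain ⟨k, -, hk⟩ : ∃ k ∈ (Finset.univ : Finset (Fin 9)), (1 - 1 / 1000) / 9 < ‖w k‖ := by
    refine Finset.exists_lt_of_sum_lt ?_
    rw [Finset.sum_const, Finset.card_univ, Fintype.card_fin]
    simp only [nsmul_eq_mul]
    push_cast
    linarith
  set μ := ‖w k‖ with hμ
  have hμ0 : 0 < μ := by
    refine lt_trans ?_ hk
    norm_num
  have hμ1 : μ ≤ ∑ j, ‖w j‖ := Finset.single_le_sum (f := fun j => ‖w j‖)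
    (fun j _ => norm_nonneg _) (Finset.mem_univ k)
  -- upper bound
  have hup1 : projNorm (U k + (1 / 2 : ℝ) • (w k ⊗ₜ[ℝ] vert k)) ≤ projNorm (U k) + μ / 3 := by
    have e1 : U k + (1 / 2 : ℝ) • (w k ⊗ₜ[ℝ] vert k) =
        (1 - μ / 2) • U k + (μ / 2) • (U k + (μ⁻¹ • w k) ⊗ₜ[ℝ] vert k) := by
      rw [smul_add, ← add_assoc, ← add_smul, sub_add_cancel, one_smul,
        ← TensorProduct.smul_tmul', smul_smul]
      congr 2
      field_simp
    have hx1 : ‖μ⁻¹ • w k‖ ≤ 1 := by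
      rw [norm_smul, Real.norm_of_nonneg (by positivity), ← hμ, inv_mul_cancel₀ hμ0.ne']
    have e2 := hU k _ hx1
    rw [e1]
    have e3 := projNorm_add_le ((1 - μ / 2) • U k) ((μ / 2) • (U k + (μ⁻¹ • w k) ⊗ₜ[ℝ] vert k))
    have e4 := projNorm_smul_le (1 - μ / 2) (U k)
    have e5 := projNorm_smul_le (μ / 2) (U k + (μ⁻¹ • w k) ⊗ₜ[ℝ] vert k)
    rw [abs_of_nonneg (by linarith)] at e4
    rw [abs_of_nonneg (by linarith)] at e5
    have e6 : μ / 2 * projNorm (U k + (μ⁻¹ • w k) ⊗ₜ[ℝ] vert k) ≤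
        μ / 2 * (projNorm (U k) + 2 / 3) := mul_le_mul_of_nonneg_left e2 (by linarith)
    nlinarith
  have hup : projNorm (U k + (1 / 2 : ℝ) • u) ≤
      projNorm (U k) + (∑ j, ‖w j‖) / 2 - μ / 6 := by
    have e1 : U k + (1 / 2 : ℝ) • u =
        (U k + (1 / 2 : ℝ) • (w k ⊗ₜ[ℝ] vert k)) +
        (1 / 2 : ℝ) • ∑ j ∈ Finset.univ.erase k, w j ⊗ₜ[ℝ] vert j := by
      rw [hu', ← Finset.add_sum_erase _ _ (Finset.mem_univ k), smul_add, add_assoc]
    rw [e1]
    have e2 := projNorm_add_le (U k + (1 / 2 : ℝ) • (w k ⊗ₜ[ℝ] vert k))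
      ((1 / 2 : ℝ) • ∑ j ∈ Finset.univ.erase k, w j ⊗ₜ[ℝ] vert j)
    have e3 := projNorm_smul_le (1 / 2 : ℝ) (∑ j ∈ Finset.univ.erase k, w j ⊗ₜ[ℝ] vert j)
    have e4 : ∀ s : Finset (Fin 9), projNorm (∑ j ∈ s, w j ⊗ₜ[ℝ] vert j) ≤ ∑ j ∈ s, ‖w j‖ := by
      intro s
      induction s using Finset.induction_on with
      | empty => simp [projNorm_zero]
      | insert a s ha ih =>
        rw [Finset.sum_insert ha, Finset.sum_insert ha]
        have f1 := projNorm_add_le (w a ⊗ₜ[ℝ] vert a) (∑ j ∈ s, w j ⊗ₜ[ℝ] vert j)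
        have f2 := projNorm_tmul_le (w a) (vert a)
        have f3 : ‖w a‖ * ‖vert a‖ ≤ ‖w a‖ :=
          mul_le_of_le_one_right (norm_nonneg _) (norm_vert a)
        linarith
    have e5 := e4 (Finset.univ.erase k)
    have e6 := Finset.add_sum_erase Finset.univ (fun j => ‖w j‖) (Finset.mem_univ k)
    rw [abs_of_pos (by norm_num : (0 : ℝ) < 1 / 2)] at e3
    linarith
  -- lower bound
  have hlow : (1 - 1 / 1000) * (projNorm (U k) + 1 / 2) - 1 / 2000 ≤
      projNorm (U k + (1 / 2 : ℝ) • u) := by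
    have e1 := hzE (ι (U k)) (Submodule.subset_span ⟨k, rfl⟩) (1 / 2)
    rw [hιnorm, abs_of_pos (by norm_num : (0 : ℝ) < 1 / 2)] at e1
    have e2 : ι (U k + (1 / 2 : ℝ) • u) = ι (U k) + (1 / 2 : ℝ) • ι u := by
      rw [hιadd, hιsmul]
    have e3 : ‖ι (U k) + (1 / 2 : ℝ) • z‖ ≤
        ‖ι (U k + (1 / 2 : ℝ) • u)‖ + 1 / 2 * ‖z - ι u‖ := by
      have e4 : ι (U k) + (1 / 2 : ℝ) • z =
          ι (U k + (1 / 2 : ℝ) • u) + (1 / 2 : ℝ) • (z - ι u) := by
        rw [e2, smul_sub]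
        abel
      rw [e4]
      refine (norm_add_le _ _).trans ?_
      rw [norm_smul, Real.norm_of_nonneg (by norm_num : (0 : ℝ) ≤ 1 / 2)]
    have e5 : ‖ι (U k + (1 / 2 : ℝ) • u)‖ =
        projNorm (U k + (1 / 2 : ℝ) • u) := hιnorm _
    rw [e5] at e3
    linarith
  have h7 := hU7 k
  linarith

theorem not_octahedral {X₀ : Type*} [NormedAddCommGroup X₀] [NormedSpace ℝ X₀]
    (e : X₀) (φ : X₀ →L[ℝ] ℝ) (he : ‖e‖ = 1) (hφ : ‖φ‖ ≤ 1) (hφe : φ e = 1) :
    ¬ IsOctahedral (ProjTensorProduct (Fin 4 → X₀) Oct3) :=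
  not_octahedral_of_propP (propP_vert (propP_G e φ he hφ hφe) (propP_F e φ he hφ hφe))

/-- For every nontrivial `X₀`, the tensor product `ℓ_∞^4(X₀) ⊗ Y` is not octahedral. -/
theorem not_octahedral_tensor (X₀ : Type*) [NormedAddCommGroup X₀] [NormedSpace ℝ X₀]
    [Nontrivial X₀] : ¬ IsOctahedral (ProjTensorProduct (Fin 4 → X₀) Oct3) := by
  obtain ⟨x, hx⟩ := exists_ne (0 : X₀)
  obtain ⟨φ, h1, h2⟩ := exists_dual_vector ℝ x (norm_ne_zero_iff.mpr hx)
  have hx' : ‖x‖ ≠ 0 := norm_ne_zero_iff.mpr hx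
  refine not_octahedral (‖x‖⁻¹ • x) φ ?_ h1.le ?_
  · rw [norm_smul, norm_inv, norm_norm, inv_mul_cancel₀ hx']
  · rw [map_smul, h2, smul_eq_mul]
    exact inv_mul_cancel₀ hx'

end Pool.Agent.Helper35.Oct
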